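import Pool.Agent.H47.GD.ValA

/-!
# Module Base (150 lines): the bottom field `C(ξ)`

`s ξ = ξ + 1`, characteristic 0.
`tr_xi`: let `P ∈ PP (Cst s)`, `P(ξ) = 0`. Then `P.map s = P`, so `P(ξ + n) = s^n (P(ξ)) = 0` for all
`n`; infinitely many roots, `P = 0`.
`fb_add_nmem`: `fb ξ a + fb ξ b = k` constant, `a < b`: multiply by `ξ^(b+1)`: `ξ^(b-a) + 1 = k ξ^(b+1)`;
a nonzero polynomial relation (value `1` at `0`): contradiction to `tr_xi`. `fb_ne`: similar.
`ind_zero`: let `R = ∑ k_i ξ^(-(i+1))` (the sum over the indices `Sum.inl i`, `i ∈ T'`; at the stage `0`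
there is no index `Sum.inr`, `e.2 < 0`), `R = s g + g`, `g ∈ C(ξ)`. With `Val (Cst s) ξ`: `R` is regular
at every `π ≠ 0` in `C`. By `Val.sigma`, `Val.of_sigma` (`α = β = 1`): `s g` is regular at `π - 1` iff
`g` is regular at `π` (`π ∈ C`, `s π = π`). So for an integer `n ≠ 0`: `g` regular at `n` iff `s g = R - g`
regular at `n` iff `g` regular at `n + 1`. Finitely many poles: `g` is regular at all integers `≥ 1`, and
at all integers `≤ 0` (going from `-∞` up: `n = -1` gives `g` regular at `-1` iff at `0`).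
So `R = s g + g` is regular at `0`. If some `k_i ≠ 0` let `m` be the largest one: `R ξ^(m+1)` is
`k_m + ∑_{i<m} k_i ξ^(m-i)` with value `k_m` at `0`, and also value `(value of R) · 0 = 0`:
contradiction by `Val.eq` and `tr_xi`.
-/

set_option autoImplicit false

namespace Pool.Agent.H47.GD

open Polynomial

variable {K : Type} [Field K] [CharZero K] {s : K ≃+* K} {ξ : K}

private theorem base_map {σ : K ≃+* K} (hσ : ∀ a ∈ Cst s, σ a = a) {P : K[X]}
    (hP : P ∈ PP (Cst s)) (a : K) : σ (P.eval a) = P.eval (σ a) := by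
  have h1 : P.map (σ : K →+* K) = P := by
    ext n
    rw [Polynomial.coeff_map]
    exact hσ _ (hP n)
  have h2 : (P.map (σ : K →+* K)).eval ((σ : K →+* K) a) = (σ : K →+* K) (P.eval a) :=
    Polynomial.eval_map_apply (σ : K →+* K) a
  rw [h1] at h2
  exact h2.symm

theorem tr_xi (h : s ξ = ξ + 1) : Tr (Cst s) ξ := by
  intro P hP h0
  have h1 : ∀ n : ℕ, P.eval (ξ + n) = 0 := by
    intro n
    induction n with
    | zero => simpa using h0
    | succ n ih =>
      have h2 := base_map (s := s) (σ := s) (fun a ha => ha) hP (ξ + n)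
      rw [ih, map_zero, map_add, h, map_natCast] at h2
      rw [h2]
      congr 1
      push_cast
      ring
  apply Polynomial.eq_zero_of_infinite_isRoot
  apply Set.infinite_of_injective_forall_mem (f := fun n : ℕ => ξ + (n : K))
  · intro a b hab
    exact Nat.cast_injective (add_left_cancel hab)
  · intro n
    exact h1 n

private theorem base_ne (h : s ξ = ξ + 1) : ξ ≠ 0 := by
  intro h0
  have := tr_xi h X X_mem_PP (by rw [eval_X]; exact h0)
  exact X_ne_zero this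

theorem fb_ne (h : s ξ = ξ + 1) {a b : ℕ} (hab : a ≠ b) : fb ξ a ≠ fb ξ b := by
  intro he
  have h1 : ξ ^ (a + 1) = ξ ^ (b + 1) := inv_injective he
  have h2 := tr_xi h (X ^ (a + 1) - X ^ (b + 1))
    ((PP (Cst s)).sub_mem ((PP (Cst s)).pow_mem X_mem_PP _) ((PP (Cst s)).pow_mem X_mem_PP _))
    (by rw [eval_sub, eval_pow, eval_pow, eval_X, h1, sub_self])
  have h3 := congrArg (fun P : K[X] => P.coeff (a + 1)) h2
  simp only [coeff_sub, coeff_X_pow, coeff_zero, if_true] at h3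
  rw [if_neg (by omega)] at h3
  simp at h3

theorem fb_add_nmem (h : s ξ = ξ + 1) {a b : ℕ} (hab : a ≠ b) : fb ξ a + fb ξ b ∉ Cst s := by
  have hξ := base_ne h
  have main : ∀ a b : ℕ, a < b → fb ξ a + fb ξ b ∉ Cst s := by
    intro a b hlt hk
    obtain ⟨c, hc⟩ := Nat.exists_eq_add_of_lt hlt
    have h1 : ξ ^ (c + 1) + 1 = (fb ξ a + fb ξ b) * ξ ^ (b + 1) := by
      have e1 : fb ξ a * ξ ^ (b + 1) = ξ ^ (c + 1) := by
        unfold fb
        have : ξ ^ (b + 1) = ξ ^ (a + 1) * ξ ^ (c + 1) := by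
          rw [← pow_add]; congr 1; omega
        rw [this, inv_mul_cancel_left₀ (pow_ne_zero _ hξ)]
      have e2 : fb ξ b * ξ ^ (b + 1) = 1 := by
        unfold fb
        exact inv_mul_cancel₀ (pow_ne_zero _ hξ)
      rw [add_mul, e1, e2]
    have h2 := tr_xi h (X ^ (c + 1) + 1 - C (fb ξ a + fb ξ b) * X ^ (b + 1))
      ((PP (Cst s)).sub_mem ((PP (Cst s)).add_mem ((PP (Cst s)).pow_mem X_mem_PP _)
        (PP (Cst s)).one_mem)
        ((PP (Cst s)).mul_mem (C_mem_PP hk) ((PP (Cst s)).pow_mem X_mem_PP _)))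
      (by rw [eval_sub, eval_add, eval_mul, eval_pow, eval_pow, eval_X, eval_C, eval_one, h1,
            sub_self])
    have h3 := congrArg (fun P : K[X] => P.eval 0) h2
    simp at h3
  rcases lt_or_gt_of_ne hab with h1 | h1
  · exact main a b h1
  · rw [add_comm]
    exact main b a h1

theorem fb_mem (j : ℕ) : fb ξ j ∈ Fx (Cst s) ξ :=
  (Fx (Cst s) ξ).inv_mem ((Fx (Cst s) ξ).pow_mem (self_mem_Fx _ _) _)

private theorem base_stb {σ : K ≃+* K} (hσ : ∀ a ∈ Cst s, σ a = a) {c : K} (hc : c ∈ Cst s)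
    (hξ : σ ξ = ξ + c) {g : K} (hg : g ∈ Fx (Cst s) ξ) : σ g ∈ Fx (Cst s) ξ := by
  obtain ⟨P, hP, Q, hQ, h1, h2⟩ := hg
  have h3 : σ (Q.eval ξ) ∈ Fx (Cst s) ξ := by
    rw [base_map hσ hQ ξ, hξ]
    exact eval_mem (PP_mono (le_Fx _ _) hQ) ((Fx (Cst s) ξ).add_mem (self_mem_Fx _ _)
      (le_Fx _ _ hc))
  have h4 : σ (P.eval ξ) ∈ Fx (Cst s) ξ := by
    rw [base_map hσ hP ξ, hξ]
    exact eval_mem (PP_mono (le_Fx _ _) hP) ((Fx (Cst s) ξ).add_mem (self_mem_Fx _ _)
      (le_Fx _ _ hc))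
  have h5 : σ (Q.eval ξ) ≠ 0 := by
    intro h0
    exact h1 ((map_eq_zero_iff σ σ.injective).1 h0)
  have h6 : σ g = σ (P.eval ξ) / σ (Q.eval ξ) := by
    rw [eq_div_iff h5, ← map_mul, h2]
  rw [h6]
  exact (Fx (Cst s) ξ).div_mem h4 h3

theorem stb_zero (h : s ξ = ξ + 1) : Stb s (Fx (Cst s) ξ) := by
  intro x
  constructor
  · intro hx
    have h1 : ∀ a ∈ Cst s, s.symm a = a := by
      intro a ha
      rw [RingEquiv.symm_apply_eq]
      exact (mem_Cst.1 ha).symm
    have h2 : s.symm ξ = ξ + (-1) := by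
      rw [RingEquiv.symm_apply_eq, map_add, h, map_neg, map_one]
      ring
    have h3 := base_stb (s := s) (σ := s.symm) h1 ((Cst s).neg_mem (Cst s).one_mem) h2 hx
    rwa [RingEquiv.symm_apply_apply] at h3
  · intro hx
    exact base_stb (s := s) (σ := s) (fun a ha => ha) (Cst s).one_mem h hx

private theorem base_int (n : ℤ) : ((n : ℤ) : K) ∈ Cst s := by
  rw [mem_Cst, map_intCast]

private theorem base_step (h : s ξ = ξ + 1) {g R : K} (hR : s g + g = R)
    (hreg : ∀ n : ℤ, n ≠ 0 → ∃ v, Val (Cst s) ξ (n : K) R v) :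
    (∀ n : ℤ, n ≠ 0 → (∃ v, Val (Cst s) ξ (n : K) g v) → ∃ v, Val (Cst s) ξ ((n + 1 : ℤ) : K) g v) ∧
    (∀ n : ℤ, n ≠ 0 → (∃ v, Val (Cst s) ξ ((n + 1 : ℤ) : K) g v) → ∃ v, Val (Cst s) ξ (n : K) g v) ∧
    ∀ n : ℤ, (∃ v, Val (Cst s) ξ ((n + 1 : ℤ) : K) g v) → ∃ v, Val (Cst s) ξ (n : K) (s g) v := by
  have hF : Stb s (Cst s) := by
    intro x
    constructor
    · intro hx
      exact s.injective (mem_Cst.1 hx)
    · intro hx
      rw [mem_Cst.1 hx]
      exact hx
  have hw : s ξ = 1 * ξ + 1 := by rw [h, one_mul]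
  have hπ : ∀ n : ℤ, (s ((n + 1 : ℤ) : K) - 1) / 1 = (n : K) := by
    intro n
    rw [map_intCast]
    push_cast
    ring
  have h3 : ∀ n : ℤ, (∃ v, Val (Cst s) ξ ((n + 1 : ℤ) : K) g v) →
      ∃ v, Val (Cst s) ξ (n : K) (s g) v := by
    rintro n ⟨v, hv⟩
    refine ⟨s v, ?_⟩
    have := Val.sigma hF (Cst s).one_mem (Cst s).one_mem one_ne_zero hw hv
    rwa [hπ n] at this
  refine ⟨?_, ?_, h3⟩
  · rintro n hn ⟨v, hv⟩
    obtain ⟨u, hu⟩ := hreg n hn
    have h4 := hu.sub hv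
    have h5 : R - g = s g := by rw [← hR]; ring
    rw [h5, ← hπ n] at h4
    exact Val.of_sigma hF (Cst s).one_mem (Cst s).one_mem one_ne_zero hw h4
  · intro n hn hv
    obtain ⟨u, hu⟩ := hreg n hn
    obtain ⟨v, hv⟩ := h3 n hv
    have h4 := hu.sub hv
    have h5 : R - s g = g := by rw [← hR]; ring
    rw [h5] at h4
    exact ⟨_, h4⟩

private theorem base_reg (h : s ξ = ξ + 1) {g R : K} (hg : g ∈ Fx (Cst s) ξ) (hR : s g + g = R)
    (hreg : ∀ n : ℤ, n ≠ 0 → ∃ v, Val (Cst s) ξ (n : K) R v) :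
    ∃ v, Val (Cst s) ξ 0 R v := by
  obtain ⟨hup, hdn, hs⟩ := base_step h hR hreg
  have hfin : {n : ℤ | ¬ ∃ v, Val (Cst s) ξ (n : K) g v}.Finite :=
    (finite_poles hg).preimage (f := fun n : ℤ => (n : K)) (Int.cast_injective.injOn)
  obtain ⟨B, hB⟩ := hfin.bddAbove
  obtain ⟨B', hB'⟩ := hfin.bddBelow
  have hd : ∀ t : ℕ, (∃ v, Val (Cst s) ξ (((1 + t : ℤ)) : K) g v) →
      ∃ v, Val (Cst s) ξ ((1 : ℤ) : K) g v := by
    intro t
    induction t with
    | zero => intro h1; simpa using h1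
    | succ t ih =>
      intro h1
      apply ih
      apply hdn (1 + t) (by omega)
      have e : (1 + t + 1 : ℤ) = 1 + ((t + 1 : ℕ) : ℤ) := by push_cast; ring
      rw [e]
      exact h1
  have hu : ∀ t : ℕ, (∃ v, Val (Cst s) ξ (((-t : ℤ)) : K) g v) →
      ∃ v, Val (Cst s) ξ ((0 : ℤ) : K) g v := by
    intro t
    induction t with
    | zero => intro h1; simpa using h1
    | succ t ih =>
      intro h1
      apply ih
      have h2 := hup (-((t + 1 : ℕ) : ℤ)) (by omega) h1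
      have e : (-((t + 1 : ℕ) : ℤ) + 1 : ℤ) = -(t : ℤ) := by push_cast; ring
      rw [e] at h2
      exact h2
  have h1 : ∃ v, Val (Cst s) ξ ((1 : ℤ) : K) g v := by
    apply hd B.toNat
    by_contra hc
    have := hB hc
    have h5 := Int.self_le_toNat B
    omega
  have h0 : ∃ v, Val (Cst s) ξ ((0 : ℤ) : K) g v := by
    apply hu ((-B').toNat + 1)
    by_contra hc
    have := hB' hc
    have h5 := Int.self_le_toNat (-B')
    push_cast at this
    omega
  obtain ⟨v1, hv1⟩ := hs 0 (by simpa using h1)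
  obtain ⟨v0, hv0⟩ := h0
  have h6 := hv1.add hv0
  rw [hR] at h6
  simp only [Int.cast_zero] at h6
  exact ⟨_, h6⟩

private theorem base_fb (h : s ξ = ξ + 1) (j : ℕ) {π : K} (hπ : π ≠ 0) :
    Val (Cst s) ξ π (fb ξ j) ((π ^ (j + 1))⁻¹) := by
  have h1 : Val (Cst s) ξ π (ξ ^ (j + 1)) (π ^ (j + 1)) := by
    have := val_poly (F := Cst s) (w := ξ) (π := π) (P := X ^ (j + 1))
      ((PP (Cst s)).pow_mem X_mem_PP _)
    simpa using this
  exact h1.inv (tr_xi h) (pow_ne_zero _ hπ)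

theorem ind_zero (h : s ξ = ξ + 1) (S : Sch) (x y w : ℕ → K) : IndS s ξ S x y w 0 := by
  classical
  intro T k hT hk hIm
  obtain ⟨g, hg, hR⟩ := hIm
  have hξ := base_ne h
  have hg' : g ∈ Fx (Cst s) ξ := hg
  obtain ⟨J, hJ⟩ : ∃ J : ℕ ⊕ (ℕ × ℕ) → ℕ, ∀ i ∈ T, i = Sum.inl (J i) := by
    refine ⟨Sum.elim id (fun _ => 0), ?_⟩
    intro i hi
    have := hT i hi
    rcases i with i | e
    · rfl
    · exact absurd this.2.1 (Nat.not_lt_zero _)
  have hvv : ∀ i ∈ T, vv s ξ x y i = fb ξ (J i) := by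
    intro i hi
    rw [hJ i hi]
    show fb ξ _ = _
    rw [← hJ i hi]
  have hreg : ∀ n : ℤ, n ≠ 0 → ∃ v, Val (Cst s) ξ (n : K) (∑ i ∈ T, k i * vv s ξ x y i) v := by
    intro n hn
    refine ⟨∑ i ∈ T, k i * (((n : K) ^ (J i + 1))⁻¹), ?_⟩
    apply Val.sum
    intro i hi
    rw [hvv i hi]
    exact (val_const (hk i hi)).mul (base_fb h _ (Int.cast_ne_zero.2 hn))
  obtain ⟨v, hv⟩ := base_reg h hg' hR hreg
  by_contra hcon
  push Not at hcon
  obtain ⟨i0, hi0, hki0⟩ := hcon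
  have hne : (T.filter fun i => k i ≠ 0).Nonempty := ⟨i0, Finset.mem_filter.2 ⟨hi0, hki0⟩⟩
  obtain ⟨m, hm, hmax⟩ := Finset.exists_max_image (T.filter fun i => k i ≠ 0) J hne
  have hmT := (Finset.mem_filter.1 hm).1
  have hkm := (Finset.mem_filter.1 hm).2
  obtain ⟨P, hPdef⟩ : ∃ P : K[X], P = ∑ i ∈ T.filter (fun i => k i ≠ 0),
      C (k i) * X ^ (J m - J i) := ⟨_, rfl⟩
  have hPP : P ∈ PP (Cst s) := by
    rw [hPdef]
    apply (PP (Cst s)).sum_mem
    intro i hi
    exact (PP (Cst s)).mul_mem (C_mem_PP (hk i (Finset.mem_filter.1 hi).1))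
      ((PP (Cst s)).pow_mem X_mem_PP _)
  have hPξ : (∑ i ∈ T, k i * vv s ξ x y i) * ξ ^ (J m + 1) = P.eval ξ := by
    have e1 : ∑ i ∈ T, k i * vv s ξ x y i
        = ∑ i ∈ T.filter (fun i => k i ≠ 0), k i * vv s ξ x y i := by
      rw [Finset.sum_filter]
      apply Finset.sum_congr rfl
      intro i _
      split_ifs with h1
      · rfl
      · push Not at h1
        rw [h1, zero_mul]
    rw [e1, hPdef, eval_finset_sum, Finset.sum_mul]
    apply Finset.sum_congr rfl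
    intro i hi
    rw [eval_mul, eval_C, eval_pow, eval_X, hvv i (Finset.mem_filter.1 hi).1, mul_assoc]
    congr 1
    have hle := hmax i hi
    unfold fb
    have e2 : ξ ^ (J m + 1) = ξ ^ (J i + 1) * ξ ^ (J m - J i) := by
      rw [← pow_add]; congr 1; omega
    rw [e2, inv_mul_cancel_left₀ (pow_ne_zero _ hξ)]
  have hP0 : P.eval 0 = k m := by
    rw [hPdef, eval_finset_sum, Finset.sum_eq_single m]
    · simp
    · intro i hi him
      have hle := hmax i hi
      have hlt : J i ≠ J m := by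
        intro he
        apply him
        rw [hJ i (Finset.mem_filter.1 hi).1, he, ← hJ m hmT]
      rw [eval_mul, eval_C, eval_pow, eval_X, zero_pow (by omega), mul_zero]
    · intro h1
      exact absurd hm h1
  have hv2 : Val (Cst s) ξ 0 (ξ ^ (J m + 1)) 0 := by
    have := val_poly (F := Cst s) (w := ξ) (π := 0) (P := X ^ (J m + 1))
      ((PP (Cst s)).pow_mem X_mem_PP _)
    simpa using this
  have hv3 := hv.mul hv2
  rw [hPξ] at hv3
  have hv4 := val_poly (F := Cst s) (w := ξ) (π := 0) hPP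
  have h9 := hv3.eq (tr_xi h) hv4
  rw [hP0, mul_zero] at h9
  exact hkm h9.symm

end Pool.Agent.H47.GD
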