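import Mathlib

/-!
# Twisted field planes: definitions

`K` is a field with an automorphism `s`. `PP F`: the polynomials over `K` with coefficients in the
subfield `F`. `Tr F w`: `w` is transcendental over `F`. `Fx F w`: the field `F(w)`. `Val F w π g v`:
the element `g` of `F(w)` is regular at `w = π` with value `v`. `Cst s`: the fixed field of `s`.
`Stb s F`: `F` is stable under `s` and its inverse. `Im s F c`: `c = s g + g` with `g` in `F`.
`ta s c π = c - s π`. `dl s x y a b`: the polarity form, zero exactly if the points `a`, `b` are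
adjacent.
-/

set_option autoImplicit false

namespace Pool.Agent.H47.GD

open Polynomial

section fields

variable {K : Type} [Field K]

/-- polynomials with coefficients in `F` -/
def PP (F : Subfield K) : Subring K[X] where
  carrier := {P | ∀ n, P.coeff n ∈ F}
  mul_mem' := by
    intro P Q hP hQ n
    rw [Polynomial.coeff_mul]
    exact F.sum_mem fun i _ => F.mul_mem (hP _) (hQ _)
  one_mem' := by
    intro n
    rw [Polynomial.coeff_one]
    split_ifs
    · exact F.one_mem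
    · exact F.zero_mem
  add_mem' := by
    intro P Q hP hQ n
    rw [Polynomial.coeff_add]
    exact F.add_mem (hP _) (hQ _)
  zero_mem' := by
    intro n
    rw [Polynomial.coeff_zero]
    exact F.zero_mem
  neg_mem' := by
    intro P hP n
    rw [Polynomial.coeff_neg]
    exact F.neg_mem (hP _)

theorem mem_PP {F : Subfield K} {P : K[X]} : P ∈ PP F ↔ ∀ n, P.coeff n ∈ F := Iff.rfl

theorem C_mem_PP {F : Subfield K} {a : K} (ha : a ∈ F) : (C a : K[X]) ∈ PP F := by
  intro n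
  rw [Polynomial.coeff_C]
  split_ifs
  · exact ha
  · exact F.zero_mem

theorem X_mem_PP {F : Subfield K} : (X : K[X]) ∈ PP F := by
  intro n
  rw [Polynomial.coeff_X]
  split_ifs
  · exact F.one_mem
  · exact F.zero_mem

theorem PP_mono {F G : Subfield K} (h : F ≤ G) {P : K[X]} (hP : P ∈ PP F) : P ∈ PP G :=
  fun n => h (hP n)

theorem eval_mem {F : Subfield K} {P : K[X]} (hP : P ∈ PP F) {a : K} (ha : a ∈ F) :
    P.eval a ∈ F := by
  rw [Polynomial.eval_eq_sum_range]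
  exact F.sum_mem fun i _ => F.mul_mem (hP _) (F.pow_mem ha _)

/-- `w` is transcendental over `F` -/
def Tr (F : Subfield K) (w : K) : Prop := ∀ P ∈ PP F, P.eval w = 0 → P = 0

/-- the field `F(w)` -/
def Fx (F : Subfield K) (w : K) : Subfield K where
  carrier := {g | ∃ P ∈ PP F, ∃ Q ∈ PP F, Q.eval w ≠ 0 ∧ g * Q.eval w = P.eval w}
  mul_mem' := by
    rintro g h ⟨P, hP, Q, hQ, h1, h2⟩ ⟨P', hP', Q', hQ', h1', h2'⟩
    refine ⟨P * P', (PP F).mul_mem hP hP', Q * Q', (PP F).mul_mem hQ hQ', ?_, ?_⟩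
    · rw [eval_mul]; exact mul_ne_zero h1 h1'
    · rw [eval_mul, eval_mul, ← h2, ← h2']; ring
  one_mem' := ⟨1, (PP F).one_mem, 1, (PP F).one_mem, by simp, by simp⟩
  add_mem' := by
    rintro g h ⟨P, hP, Q, hQ, h1, h2⟩ ⟨P', hP', Q', hQ', h1', h2'⟩
    refine ⟨P * Q' + P' * Q, (PP F).add_mem ((PP F).mul_mem hP hQ') ((PP F).mul_mem hP' hQ),
      Q * Q', (PP F).mul_mem hQ hQ', ?_, ?_⟩
    · rw [eval_mul]; exact mul_ne_zero h1 h1'
    · rw [eval_mul, eval_add, eval_mul, eval_mul, ← h2, ← h2']; ring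
  zero_mem' := ⟨0, (PP F).zero_mem, 1, (PP F).one_mem, by simp, by simp⟩
  neg_mem' := by
    rintro g ⟨P, hP, Q, hQ, h1, h2⟩
    exact ⟨-P, (PP F).neg_mem hP, Q, hQ, h1, by rw [eval_neg, ← h2]; ring⟩
  inv_mem' := by
    rintro g ⟨P, hP, Q, hQ, h1, h2⟩
    by_cases hg : g = 0
    · subst hg
      exact ⟨0, (PP F).zero_mem, 1, (PP F).one_mem, by simp, by simp⟩
    · refine ⟨Q, hQ, P, hP, ?_, ?_⟩
      · rw [← h2]; exact mul_ne_zero hg h1
      · rw [← h2]; field_simp

theorem le_Fx (F : Subfield K) (w : K) : F ≤ Fx F w := by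
  intro a ha
  exact ⟨C a, C_mem_PP ha, 1, (PP F).one_mem, by simp, by simp⟩

theorem self_mem_Fx (F : Subfield K) (w : K) : w ∈ Fx F w :=
  ⟨X, X_mem_PP, 1, (PP F).one_mem, by simp, by simp⟩

/-- `g` is regular at `w = π` with value `v` -/
def Val (F : Subfield K) (w π g v : K) : Prop :=
  ∃ P ∈ PP F, ∃ Q ∈ PP F, Q.eval π ≠ 0 ∧ g * Q.eval w = P.eval w ∧ v * Q.eval π = P.eval π

/-- the fixed field of `s` -/
def Cst (s : K ≃+* K) : Subfield K where
  carrier := {x | s x = x}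
  mul_mem' := by
    intro a b ha hb
    show s (a * b) = a * b
    rw [map_mul, ha, hb]
  one_mem' := map_one s
  add_mem' := by
    intro a b ha hb
    show s (a + b) = a + b
    rw [map_add, ha, hb]
  zero_mem' := map_zero s
  neg_mem' := by
    intro a ha
    show s (-a) = -a
    rw [map_neg, ha]
  inv_mem' := by
    intro a ha
    show s a⁻¹ = a⁻¹
    rw [map_inv₀, ha]

theorem mem_Cst {s : K ≃+* K} {x : K} : x ∈ Cst s ↔ s x = x := Iff.rfl

/-- `F` is stable under `s` and its inverse -/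
def Stb (s : K ≃+* K) (F : Subfield K) : Prop := ∀ x, s x ∈ F ↔ x ∈ F

/-- `c = s g + g` with `g` in `F` -/
def Im (s : K ≃+* K) (F : Subfield K) (c : K) : Prop := ∃ g ∈ F, s g + g = c

/-- the map `π ↦ c - s π` -/
def ta (s : K ≃+* K) (c π : K) : K := c - s π

end fields

/-- A construction scheme with vertices `0, ..., N - 1`: the vertices `j < M` are free, a vertex
`j` with `M ≤ j` has the two parents `p j < q j < j`. -/
structure Sch where
  M : ℕ
  N : ℕ
  p : ℕ → ℕ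
  q : ℕ → ℕ
  hpq : ∀ j, M ≤ j → j < N → p j < q j
  hqj : ∀ j, M ≤ j → j < N → q j < j

/-- adjacency in a scheme -/
def Sch.Adj (S : Sch) (a b : ℕ) : Prop :=
  (S.M ≤ b ∧ b < S.N ∧ (a = S.p b ∨ a = S.q b)) ∨ (S.M ≤ a ∧ a < S.N ∧ (b = S.p a ∨ b = S.q a))

/-- two different vertices have at most one common neighbour -/
def Sch.NC (S : Sch) : Prop :=
  ∀ a b c d, a ≠ b → c ≠ d → S.Adj a c → S.Adj b c → S.Adj a d → S.Adj b d → False

section tower

variable {K : Type} [Field K]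

/-- the free data -/
def fb (ξ : K) (j : ℕ) : K := (ξ ^ (j + 1))⁻¹

/-- the denominator of the vertex `j` -/
def dd (S : Sch) (x : ℕ → K) (j : ℕ) : K := if j < S.M then 1 else x (S.p j) - x (S.q j)

/-- the class of the pair `a`, `b` -/
def sp (s : K ≃+* K) (x y : ℕ → K) (a b : ℕ) : K :=
  (y a - y b) / ((x a - x b) * s (x a - x b))

/-- the right hand side of the vertex `j` -/
def ss (s : K ≃+* K) (ξ : K) (S : Sch) (x y : ℕ → K) (j : ℕ) : K :=
  if j < S.M then fb ξ j else sp s x y (S.p j) (S.q j)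

/-- `x`, `y`, `w` are constructed according to the scheme -/
structure Tow (s : K ≃+* K) (ξ : K) (S : Sch) (x y w : ℕ → K) : Prop where
  hxi : s ξ = ξ + 1
  hx : ∀ j, j < S.N → x j = dd S x j * w j
  hw : ∀ j, j < S.N → s (w j) + w j = ss s ξ S x y j
  hy0 : ∀ j, j < S.M → y j = fb ξ j ^ 2
  hy1 : ∀ j, S.M ≤ j → j < S.N → y j = x j * s (x (S.p j)) + s (x j) * x (S.p j) - y (S.p j)
  hMN : S.M ≤ S.N

/-- the tower of fields: `LL 0 = C(ξ)`, `LL (j + 1) = (LL j)(w j)` -/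
def LL (s : K ≃+* K) (ξ : K) (w : ℕ → K) : ℕ → Subfield K
  | 0 => Fx (Cst s) ξ
  | j + 1 => Fx (LL s ξ w j) (w j)

/-- no new right hand side before the vertex `t` is in the image -/
def NI (s : K ≃+* K) (ξ : K) (S : Sch) (x y w : ℕ → K) (t : ℕ) : Prop :=
  ∀ i, i < t → i < S.N → ¬ Im s (LL s ξ w i) (ss s ξ S x y i)

/-- the polarity form -/
def dl (s : K ≃+* K) (x y : ℕ → K) (a b : ℕ) : K := x a * s (x b) + s (x a) * x b - y a - y b

/-- the classes -/
def vv (s : K ≃+* K) (ξ : K) (x y : ℕ → K) : ℕ ⊕ (ℕ × ℕ) → K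
  | Sum.inl i => fb ξ i
  | Sum.inr e => sp s x y e.1 e.2

/-- the indices available at the stage `j` -/
def InSt (S : Sch) (j : ℕ) : ℕ ⊕ (ℕ × ℕ) → Prop
  | Sum.inl i => j ≤ i ∧ i < S.M
  | Sum.inr e => e.1 < e.2 ∧ e.2 < j ∧ ∀ c, c < j → ¬ (S.Adj c e.1 ∧ S.Adj c e.2)

/-- the classes of the stage `j` are linearly independent modulo the image -/
def IndS (s : K ≃+* K) (ξ : K) (S : Sch) (x y w : ℕ → K) (j : ℕ) : Prop :=
  ∀ (T : Finset (ℕ ⊕ (ℕ × ℕ))) (k : ℕ ⊕ (ℕ × ℕ) → K), (∀ i ∈ T, InSt S j i) →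
    (∀ i ∈ T, k i ∈ Cst s) → Im s (LL s ξ w j) (∑ i ∈ T, k i * vv s ξ x y i) → ∀ i ∈ T, k i = 0

end tower

end Pool.Agent.H47.GD
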