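import Pool.Agent.H53.GG.Main
import Pool.Agent.H47.GD.Defs

/-!
# Module Comb (200 lines): 2-degenerate graphs and schemes

`exists_order`: every nonempty set `F` of vertices has a vertex with at most two neighbours in `F`; then
there is a bijection `r : V ≃ Fin n` such that every `v` has at most two neighbours `u` with `r u < r v`
(induction on the size of a finite set `F` of vertices: the removed vertex gets the last number).
`no_four`: `H` has no 4-cycle: `a ≠ b`, `c ≠ d`, both `c`, `d` adjacent to `a` and `b`. If `a`, `b` are not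
adjacent: `CN H` (`cn_of hH`) gives `c = d`. If `c`, `d` are not adjacent: `a = b`. Otherwise
`F = {a, b, c, d}` has four different elements and everybody has three neighbours in `F`:
contradiction.
`exists_scheme`: `n = card V`, `M = 2 n`, `N = 3 n`, `f v = 2 n + r v`. Let `v` have the number `i` and the
back neighbours `B = {u | H.Adj v u, r u < r v}`, at most two. The vertex `j = 2 n + i` has the parents:
two back neighbours `u`, `u'`: `f u`, `f u'` (the smaller one is `p`); one back neighbour `u`:
`p = 2 i`, `q = f u`; none: `p = 2 i`, `q = 2 i + 1`. So a vertex `2 i`, `2 i + 1` (`i < n`) is adjacent to at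
most one vertex, namely `2 n + i`, and `f u`, `f v` are adjacent iff `u`, `v` are. `S.NC`: in a 4-cycle
`a c b d` of the scheme every vertex has two different neighbours, so all four are `≥ 2 n`, `< 3 n`, of the
form `f _`, contradiction to `no_four`.
-/

set_option autoImplicit false

namespace Pool.Agent.H47.GD

open Pool.Agent.H53.GG

open Classical in
private theorem Comb_order {V : Type} (H : SimpleGraph V)
    (h : ∀ F : Finset V, F.Nonempty → ∃ v ∈ F, dg H F v ≤ 2) :
    ∀ (n : ℕ) (F : Finset V), F.card = n → ∃ r : V → ℕ, (∀ v ∈ F, r v < n) ∧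
      Set.InjOn r (F : Set V) ∧
      ∀ v ∈ F, ∃ a b : V, ∀ u ∈ F, H.Adj v u → r u < r v → u = a ∨ u = b := by
  intro n
  induction n with
  | zero =>
    intro F hF
    have hF0 : F = ∅ := Finset.card_eq_zero.mp hF
    subst hF0
    exact ⟨fun _ => 0, by simp, by simp, by simp⟩
  | succ n ih =>
    intro F hF
    have hne : F.Nonempty := by
      rw [← Finset.card_pos]
      omega
    obtain ⟨v₀, hv₀, hd⟩ := h F hne
    have hc : (F.erase v₀).card = n := by
      rw [Finset.card_erase_of_mem hv₀, hF]
      rfl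
    obtain ⟨r, h1, h2, h3⟩ := ih (F.erase v₀) hc
    refine ⟨Function.update r v₀ n, ?_, ?_, ?_⟩
    · intro v hv
      by_cases e : v = v₀
      · subst e
        rw [Function.update_self]
        omega
      · rw [Function.update_of_ne e]
        have := h1 v (Finset.mem_erase.mpr ⟨e, hv⟩)
        omega
    · intro u hu v hv huv
      have hu' : u ∈ F := hu
      have hv' : v ∈ F := hv
      by_cases e : u = v₀
      · by_cases e' : v = v₀
        · rw [e, e']
        · exfalso
          rw [e, Function.update_self, Function.update_of_ne e'] at huv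
          have := h1 v (Finset.mem_erase.mpr ⟨e', hv'⟩)
          omega
      · by_cases e' : v = v₀
        · exfalso
          rw [e', Function.update_self, Function.update_of_ne e] at huv
          have := h1 u (Finset.mem_erase.mpr ⟨e, hu'⟩)
          omega
        · rw [Function.update_of_ne e, Function.update_of_ne e'] at huv
          exact h2 (Finset.mem_coe.mpr (Finset.mem_erase.mpr ⟨e, hu'⟩))
            (Finset.mem_coe.mpr (Finset.mem_erase.mpr ⟨e', hv'⟩)) huv
    · intro v hv
      by_cases e : v = v₀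
      · subst e
        have hd' : (F.filter fun w => H.Adj v w).card ≤ 2 := hd
        have h4 : ∃ a b : V, ∀ u ∈ F.filter (fun w => H.Adj v w), u = a ∨ u = b := by
          rcases Nat.lt_or_ge 0 (F.filter fun w => H.Adj v w).card with h5 | h5
          · obtain ⟨a, ha⟩ := Finset.card_pos.mp h5
            have h6 : ((F.filter fun w => H.Adj v w).erase a).card ≤ 1 := by
              rw [Finset.card_erase_of_mem ha]
              omega
            rcases Nat.lt_or_ge 0 ((F.filter fun w => H.Adj v w).erase a).card with h7 | h7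
            · obtain ⟨b, hb⟩ := Finset.card_pos.mp h7
              refine ⟨a, b, fun u hu => ?_⟩
              by_cases e : u = a
              · exact Or.inl e
              · exact Or.inr (Finset.card_le_one.mp h6 u (Finset.mem_erase.mpr ⟨e, hu⟩) b hb)
            · refine ⟨a, a, fun u hu => ?_⟩
              by_contra hcon
              have e : u ≠ a := fun e => hcon (Or.inl e)
              have h8 : 0 < ((F.filter fun w => H.Adj v w).erase a).card :=
                Finset.card_pos.mpr ⟨u, Finset.mem_erase.mpr ⟨e, hu⟩⟩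
              omega
          · refine ⟨v, v, fun u hu => ?_⟩
            have h8 : 0 < (F.filter fun w => H.Adj v w).card := Finset.card_pos.mpr ⟨u, hu⟩
            omega
        obtain ⟨a, b, h4⟩ := h4
        exact ⟨a, b, fun u hu hadj _ => h4 u (Finset.mem_filter.mpr ⟨hu, hadj⟩)⟩
      · obtain ⟨a, b, h4⟩ := h3 v (Finset.mem_erase.mpr ⟨e, hv⟩)
        refine ⟨a, b, fun u hu hadj hlt => ?_⟩
        have hv1 := h1 v (Finset.mem_erase.mpr ⟨e, hv⟩)
        have e' : u ≠ v₀ := by
          intro e'
          rw [e', Function.update_self, Function.update_of_ne e] at hlt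
          omega
        rw [Function.update_of_ne e, Function.update_of_ne e'] at hlt
        exact h4 u (Finset.mem_erase.mpr ⟨e', hu⟩) hadj hlt

theorem exists_order {V : Type} [Fintype V] (H : SimpleGraph V)
    (h : ∀ F : Finset V, F.Nonempty → ∃ v ∈ F, dg H F v ≤ 2) :
    ∃ r : V ≃ Fin (Fintype.card V), ∀ v, ∃ a b : V, ∀ u, H.Adj v u → r u < r v → u = a ∨ u = b := by
  classical
  obtain ⟨r, h1, h2, h3⟩ := Comb_order H h (Fintype.card V) Finset.univ rfl
  have hinj : Function.Injective (fun v : V => (⟨r v, h1 v (Finset.mem_univ v)⟩ :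
      Fin (Fintype.card V))) := by
    intro u v huv
    have e : r u = r v := congrArg Fin.val huv
    exact h2 (Finset.mem_coe.mpr (Finset.mem_univ u)) (Finset.mem_coe.mpr (Finset.mem_univ v)) e
  have hbij : Function.Bijective (fun v : V => (⟨r v, h1 v (Finset.mem_univ v)⟩ :
      Fin (Fintype.card V))) :=
    (Fintype.bijective_iff_injective_and_card _).mpr ⟨hinj, (Fintype.card_fin _).symm⟩
  refine ⟨Equiv.ofBijective _ hbij, fun v => ?_⟩
  obtain ⟨a, b, h4⟩ := h3 v (Finset.mem_univ v)
  exact ⟨a, b, fun u hadj hlt => h4 u (Finset.mem_univ u) hadj hlt⟩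

theorem no_four {V : Type} (H : SimpleGraph V) (hH : C4DFree H)
    (h : ∀ F : Finset V, F.Nonempty → ∃ v ∈ F, dg H F v ≤ 2) :
    ∀ a b c d, a ≠ b → c ≠ d → H.Adj a c → H.Adj b c → H.Adj a d → H.Adj b d → False := by
  classical
  intro a b c d hab hcd hac hbc had hbd
  have hCN := cn_of hH
  by_cases h1 : H.Adj a b
  · by_cases h2 : H.Adj c d
    · obtain ⟨v, hv, hd⟩ := h {a, b, c, d} ⟨a, by simp⟩
      have e1 := hac.ne
      have e2 := hbc.ne
      have e3 := had.ne
      have e4 := hbd.ne
      have key : ∀ x y z w : V, x ≠ y → x ≠ z → y ≠ z → H.Adj w x → H.Adj w y → H.Adj w z →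
          x ∈ ({a, b, c, d} : Finset V) → y ∈ ({a, b, c, d} : Finset V) →
          z ∈ ({a, b, c, d} : Finset V) → 3 ≤ dg H {a, b, c, d} w := by
        intro x y z w hxy hxz hyz hx hy hz mx my mz
        have hsub : ({x, y, z} : Finset V) ⊆
            ({a, b, c, d} : Finset V).filter (fun u => H.Adj w u) := by
          intro u hu
          rw [Finset.mem_insert, Finset.mem_insert, Finset.mem_singleton] at hu
          rw [Finset.mem_filter]
          rcases hu with rfl | rfl | rfl
          · exact ⟨mx, hx⟩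
          · exact ⟨my, hy⟩
          · exact ⟨mz, hz⟩
        have hc := Finset.card_le_card hsub
        rw [Finset.card_eq_three.mpr ⟨x, y, z, hxy, hxz, hyz, rfl⟩] at hc
        unfold dg
        convert hc
      rw [Finset.mem_insert, Finset.mem_insert, Finset.mem_insert, Finset.mem_singleton] at hv
      rcases hv with rfl | rfl | rfl | rfl
      · have := key b c d v e2 e4 hcd h1 hac had (by simp) (by simp) (by simp)
        omega
      · have := key a c d v e1 e3 hcd h1.symm hbc hbd (by simp) (by simp) (by simp)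
        omega
      · have := key a b d v hab e3 e4 hac.symm hbc.symm h2 (by simp) (by simp) (by simp)
        omega
      · have := key a b c v hab e1 e2 had.symm hbd.symm h2.symm (by simp) (by simp) (by simp)
        omega
    · exact hab (hCN c d a b hcd h2 hac.symm had.symm hbc.symm hbd.symm)
  · exact hcd (hCN a b c d hab h1 hac hbc had hbd)

private theorem Comb_parents {V : Type} (H : SimpleGraph V) (n : ℕ) (r : V → ℕ)
    (hinj : Function.Injective r) (hr : ∀ v, r v < n)
    (h : ∀ v, ∃ a b : V, ∀ u, H.Adj v u → r u < r v → u = a ∨ u = b) (v : V) :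
    ∃ P Q : ℕ, P < Q ∧ Q < 2 * n + r v ∧
      (∀ u, H.Adj v u → r u < r v → (2 * n + r u = P ∨ 2 * n + r u = Q)) ∧
      (∀ k, (k = P ∨ k = Q) → 2 * n ≤ k → ∃ u, 2 * n + r u = k ∧ H.Adj v u) ∧
      (∀ k, (k = P ∨ k = Q) → k < 2 * n → k = 2 * r v ∨ k = 2 * r v + 1) := by
  obtain ⟨a, b, hab⟩ := h v
  have hv := hr v
  by_cases h1 : ∃ u, H.Adj v u ∧ r u < r v
  · obtain ⟨u, hu, hu'⟩ := h1
    by_cases h2 : ∃ w, w ≠ u ∧ H.Adj v w ∧ r w < r v
    · obtain ⟨w, hwu, hw, hw'⟩ := h2
      have hall : ∀ x, H.Adj v x → r x < r v → x = u ∨ x = w := by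
        intro x hx hx'
        rcases hab u hu hu' with e1 | e1 <;> rcases hab w hw hw' with e2 | e2 <;>
          rcases hab x hx hx' with e3 | e3
        · exact Or.inl (e3.trans e1.symm)
        · exact absurd (e2.trans e1.symm) hwu
        · exact Or.inl (e3.trans e1.symm)
        · exact Or.inr (e3.trans e2.symm)
        · exact Or.inr (e3.trans e2.symm)
        · exact Or.inl (e3.trans e1.symm)
        · exact absurd (e2.trans e1.symm) hwu
        · exact Or.inl (e3.trans e1.symm)
      have hne : r u ≠ r w := fun e => hwu (hinj e).symm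
      rcases Nat.lt_or_gt_of_ne hne with hlt | hlt
      · refine ⟨2 * n + r u, 2 * n + r w, by omega, by omega, ?_, ?_, ?_⟩
        · intro x hx hx'
          rcases hall x hx hx' with rfl | rfl
          · exact Or.inl rfl
          · exact Or.inr rfl
        · intro k hk _
          rcases hk with rfl | rfl
          · exact ⟨u, rfl, hu⟩
          · exact ⟨w, rfl, hw⟩
        · intro k hk hk'
          rcases hk with rfl | rfl <;> omega
      · refine ⟨2 * n + r w, 2 * n + r u, by omega, by omega, ?_, ?_, ?_⟩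
        · intro x hx hx'
          rcases hall x hx hx' with rfl | rfl
          · exact Or.inr rfl
          · exact Or.inl rfl
        · intro k hk _
          rcases hk with rfl | rfl
          · exact ⟨w, rfl, hw⟩
          · exact ⟨u, rfl, hu⟩
        · intro k hk hk'
          rcases hk with rfl | rfl <;> omega
    · refine ⟨2 * r v, 2 * n + r u, by omega, by omega, ?_, ?_, ?_⟩
      · intro x hx hx'
        by_cases e : x = u
        · rw [e]
          exact Or.inr rfl
        · exact absurd ⟨x, e, hx, hx'⟩ h2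
      · intro k hk hk'
        rcases hk with rfl | rfl
        · omega
        · exact ⟨u, rfl, hu⟩
      · intro k hk hk'
        rcases hk with rfl | rfl
        · exact Or.inl rfl
        · omega
  · refine ⟨2 * r v, 2 * r v + 1, by omega, by omega, ?_, ?_, ?_⟩
    · intro x hx hx'
      exact absurd ⟨x, hx, hx'⟩ h1
    · intro k hk hk'
      rcases hk with rfl | rfl <;> omega
    · intro k hk _
      exact hk

theorem exists_scheme {V : Type} [Finite V] (H : SimpleGraph V) (hH : C4DFree H)
    (h : ∀ F : Finset V, F.Nonempty → ∃ v ∈ F, dg H F v ≤ 2) :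
    ∃ (S : Sch) (f : V → ℕ), S.M ≤ S.N ∧ S.NC ∧ Function.Injective f ∧ (∀ v, f v < S.N) ∧
      ∀ u v, u ≠ v → (S.Adj (f u) (f v) ↔ H.Adj u v) := by
  classical
  have : Fintype V := Fintype.ofFinite V
  obtain ⟨n, r, hr⟩ : ∃ n, ∃ r : V ≃ Fin n, ∀ v, ∃ a b : V, ∀ u, H.Adj v u → r u < r v →
      u = a ∨ u = b := ⟨_, exists_order H h⟩
  have hinj : Function.Injective (fun v => (r v : ℕ)) := fun u v e => r.injective (Fin.ext e)
  have hlt : ∀ v, (r v : ℕ) < n := fun v => (r v).isLt
  have hpar := Comb_parents H n (fun v => (r v : ℕ)) hinj hlt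
    (fun v => by
      obtain ⟨a, b, hab⟩ := hr v
      exact ⟨a, b, fun u hu hu' => hab u hu hu'⟩)
  choose P Q hPQ hQ hback hbig hsmall using hpar
  have hidx : ∀ j, 2 * n ≤ j → j < 3 * n → ∃ v, 2 * n + (r v : ℕ) = j := by
    intro j h1 h2
    refine ⟨r.symm ⟨j - 2 * n, by omega⟩, ?_⟩
    rw [Equiv.apply_symm_apply]
    show 2 * n + (j - 2 * n) = j
    omega
  let pp : ℕ → ℕ := fun j => if hj : j - 2 * n < n then P (r.symm ⟨j - 2 * n, hj⟩) else 0
  let qq : ℕ → ℕ := fun j => if hj : j - 2 * n < n then Q (r.symm ⟨j - 2 * n, hj⟩) else 0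
  have hpp : ∀ v, pp (2 * n + (r v : ℕ)) = P v := by
    intro v
    have h1 : 2 * n + (r v : ℕ) - 2 * n < n := by
      have := hlt v
      omega
    have h2 : (⟨2 * n + (r v : ℕ) - 2 * n, h1⟩ : Fin n) = r v := by
      apply Fin.ext
      show 2 * n + (r v : ℕ) - 2 * n = (r v : ℕ)
      omega
    show (if hj : 2 * n + (r v : ℕ) - 2 * n < n then P (r.symm ⟨_, hj⟩) else 0) = P v
    rw [dif_pos h1, h2, Equiv.symm_apply_apply]
  have hqq : ∀ v, qq (2 * n + (r v : ℕ)) = Q v := by
    intro v
    have h1 : 2 * n + (r v : ℕ) - 2 * n < n := by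
      have := hlt v
      omega
    have h2 : (⟨2 * n + (r v : ℕ) - 2 * n, h1⟩ : Fin n) = r v := by
      apply Fin.ext
      show 2 * n + (r v : ℕ) - 2 * n = (r v : ℕ)
      omega
    show (if hj : 2 * n + (r v : ℕ) - 2 * n < n then Q (r.symm ⟨_, hj⟩) else 0) = Q v
    rw [dif_pos h1, h2, Equiv.symm_apply_apply]
  let S : Sch := {
    M := 2 * n
    N := 3 * n
    p := pp
    q := qq
    hpq := by
      intro j h1 h2
      obtain ⟨v, rfl⟩ := hidx j h1 h2
      rw [hpp, hqq]
      exact hPQ v
    hqj := by
      intro j h1 h2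
      obtain ⟨v, rfl⟩ := hidx j h1 h2
      rw [hqq]
      exact hQ v }
  -- half adjacency
  have hhalf : ∀ k j, (S.M ≤ j ∧ j < S.N ∧ (k = S.p j ∨ k = S.q j)) ↔
      ∃ v, 2 * n + (r v : ℕ) = j ∧ (k = P v ∨ k = Q v) := by
    intro k j
    constructor
    · rintro ⟨h1, h2, h3⟩
      obtain ⟨v, rfl⟩ := hidx j h1 h2
      refine ⟨v, rfl, ?_⟩
      have h4 : k = pp (2 * n + (r v : ℕ)) ∨ k = qq (2 * n + (r v : ℕ)) := h3
      rwa [hpp, hqq] at h4
    · rintro ⟨v, rfl, h3⟩
      have := hlt v
      refine ⟨?_, ?_, ?_⟩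
      · show 2 * n ≤ _
        omega
      · show _ < 3 * n
        omega
      · show k = pp (2 * n + (r v : ℕ)) ∨ k = qq (2 * n + (r v : ℕ))
        rwa [hpp, hqq]
  have hadj : ∀ k j, S.Adj k j ↔ (∃ v, 2 * n + (r v : ℕ) = j ∧ (k = P v ∨ k = Q v)) ∨
      (∃ v, 2 * n + (r v : ℕ) = k ∧ (j = P v ∨ j = Q v)) := by
    intro k j
    show (_ ∨ _) ↔ _
    rw [hhalf k j, hhalf j k]
  have hPlt : ∀ v k, (k = P v ∨ k = Q v) → k < 2 * n + (r v : ℕ) := by
    intro v k hk
    have h1 : P v < Q v := hPQ v
    have h2 : Q v < 2 * n + (r v : ℕ) := hQ v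
    rcases hk with rfl | rfl <;> omega
  -- the form of adjacency between big vertices
  have hbb : ∀ u v, S.Adj (2 * n + (r u : ℕ)) (2 * n + (r v : ℕ)) ↔ H.Adj u v := by
    intro u v
    rw [hadj]
    constructor
    · rintro (⟨w, hw, hk⟩ | ⟨w, hw, hk⟩)
      · have e : w = v := hinj (by
          show (r w : ℕ) = (r v : ℕ)
          omega)
        subst e
        obtain ⟨x, hx, hx'⟩ := hbig w _ hk (by omega)
        have e : x = u := hinj (by
          show (r x : ℕ) = (r u : ℕ)
          have : 2 * n + (r x : ℕ) = 2 * n + (r u : ℕ) := hx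
          omega)
        subst e
        exact hx'.symm
      · have e : w = u := hinj (by
          show (r w : ℕ) = (r u : ℕ)
          omega)
        subst e
        obtain ⟨x, hx, hx'⟩ := hbig w _ hk (by omega)
        have e : x = v := hinj (by
          show (r x : ℕ) = (r v : ℕ)
          have : 2 * n + (r x : ℕ) = 2 * n + (r v : ℕ) := hx
          omega)
        subst e
        exact hx'
    · intro huv
      have hne : (r u : ℕ) ≠ (r v : ℕ) := fun e => huv.ne (hinj e)
      rcases Nat.lt_or_gt_of_ne hne with h1 | h1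
      · left
        exact ⟨v, rfl, hback v u huv.symm h1⟩
      · right
        exact ⟨u, rfl, hback u v huv h1⟩
  -- a small vertex has only one neighbour
  have hsm : ∀ k j, k < 2 * n → S.Adj k j → j = 2 * n + k / 2 := by
    intro k j hk hkj
    rw [hadj] at hkj
    rcases hkj with ⟨v, hv, h1⟩ | ⟨v, hv, h1⟩
    · have h2 := hsmall v k h1 hk
      have h3 : k = 2 * (r v : ℕ) ∨ k = 2 * (r v : ℕ) + 1 := h2
      omega
    · omega
  have hsmb : ∀ k j, k < 2 * n → S.Adj j k → j = 2 * n + k / 2 := by
    intro k j hk hkj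
    apply hsm k j hk
    rw [hadj] at hkj ⊢
    exact hkj.symm
  have hltN : ∀ k j, S.Adj k j → k < 3 * n := by
    intro k j hkj
    rw [hadj] at hkj
    rcases hkj with ⟨v, hv, h1⟩ | ⟨v, hv, h1⟩
    · have := hPlt v k h1
      have := hlt v
      omega
    · have := hlt v
      omega
  have hltN' : ∀ k j, S.Adj k j → j < 3 * n := by
    intro k j hkj
    apply hltN j k
    rw [hadj] at hkj ⊢
    exact hkj.symm
  refine ⟨S, fun v => 2 * n + (r v : ℕ), ?_, ?_, ?_, ?_, ?_⟩
  · show 2 * n ≤ 3 * n
    omega
  · intro a b c d hab hcd hac hbc had hbd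
    have ha : 2 * n ≤ a := by
      by_contra hlt
      push Not at hlt
      exact hcd ((hsm a c hlt hac).trans (hsm a d hlt had).symm)
    have hb : 2 * n ≤ b := by
      by_contra hlt
      push Not at hlt
      exact hcd ((hsm b c hlt hbc).trans (hsm b d hlt hbd).symm)
    have hc : 2 * n ≤ c := by
      by_contra hlt
      push Not at hlt
      exact hab ((hsmb c a hlt hac).trans (hsmb c b hlt hbc).symm)
    have hd : 2 * n ≤ d := by
      by_contra hlt
      push Not at hlt
      exact hab ((hsmb d a hlt had).trans (hsmb d b hlt hbd).symm)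
    obtain ⟨a', rfl⟩ := hidx a ha (hltN _ _ hac)
    obtain ⟨b', rfl⟩ := hidx b hb (hltN _ _ hbc)
    obtain ⟨c', rfl⟩ := hidx c hc (hltN' _ _ hac)
    obtain ⟨d', rfl⟩ := hidx d hd (hltN' _ _ had)
    exact no_four H hH h a' b' c' d' (fun e => hab (by rw [e])) (fun e => hcd (by rw [e]))
      ((hbb _ _).mp hac) ((hbb _ _).mp hbc) ((hbb _ _).mp had) ((hbb _ _).mp hbd)
  · intro u v huv
    have h1 : 2 * n + (r u : ℕ) = 2 * n + (r v : ℕ) := huv
    exact hinj (by
      show (r u : ℕ) = (r v : ℕ)
      omega)
  · intro v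
    show 2 * n + (r v : ℕ) < 3 * n
    have := hlt v
    omega
  · intro u v _
    exact hbb u v

end Pool.Agent.H47.GD
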