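import Pool.Agent.H47.GD.LinI

/-!
# Module Dlt (200 lines): the polarity form in the last variable

`dl a b = x a s(x b) + s(x a) x b - y a - y b`. Let `z` be a vertex, `d = dd z`, `c = ss z`, `v = w z`,
so `x z = d v`, `s (x z) = s d (c - v)`. `x0 z = 0` for `z < M`, `x0 z = x (p z)` for `z ≥ M`.
`dl_lin`: for `b < z`, `e = x b - x0 z`: `dl z b = (d s(e) - s(d) e) v + m`, `m ∈ LL z`. For `z < M`:
`m = c x b - y z - y b`, `y z = (fb z)^2`. For `z ≥ M`: `y z = x z s(x p) + s(x z) x p - y p`, so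
`dl z b = x z s(e) + s(x z) e + y p - y b`, `m = s(d) c e + y p - y b`.
`dl_par`: for the parents: `dl z p = 0` by the formula for `y z`; `dl z q = 0`: `x z s(d) + s(x z) d =
d s(d) (v + s v) = d s(d) c = y p - y q` (`c = (y p - y q)/(d s d)`, `d ≠ 0`).
`dl_nmem`: `b` not a parent of `z`: the coefficient `k = d s(e) - s(d) e` is not zero, else
`κ = e / d` satisfies `s κ = κ`, and `x b = x0 z + κ d` contradicts `x_ne_lin` (`z < M`: `x b = κ`;
`z ≥ M`: `x b = (1 + κ) x p - κ x q`, `b ≠ p, q`). If `dl z b` were in `LL z` then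
`v = (dl z b - m)/k ∈ LL z`, contradiction to `Tow.w_nmem`.
`dl_self`: `dl z z = 2 x z s(x z) - 2 y z = -2 d s(d) v^2 + (affine in v)`; if it were `a v + b`, a
polynomial of degree 2 with leading coefficient `-2 d s(d) ≠ 0` and coefficients in `LL z` would vanish
at `v`, contradiction to `Tow.tr`. `dl_ne`: symmetric in `a`, `b`; `a = b`: `dl_self` with `0, 0`;
`a ≠ b`: `dl_nmem` for the larger one.
-/

set_option autoImplicit false

namespace Pool.Agent.H47.GD

open Polynomial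

variable {K : Type} [Field K] {s : K ≃+* K} {ξ : K} {S : Sch} {x y w : ℕ → K}

/-- the shift in the vertex `z` -/
def x0 (S : Sch) (x : ℕ → K) (z : ℕ) : K := if z < S.M then 0 else x (S.p z)

theorem dl_comm (a b : ℕ) : dl s x y a b = dl s x y b a := by
  unfold dl
  ring

theorem Sch.adj_comm {a b : ℕ} : S.Adj a b ↔ S.Adj b a := by
  unfold Sch.Adj
  exact or_comm

theorem Sch.adj_irrefl (a : ℕ) : ¬ S.Adj a a := by
  intro h
  have key : S.M ≤ a ∧ a < S.N ∧ (a = S.p a ∨ a = S.q a) := by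
    rcases h with h | h
    · exact h
    · exact h
  obtain ⟨h1, h2, h3⟩ := key
  have e1 := S.hpq a h1 h2
  have e2 := S.hqj a h1 h2
  rcases h3 with h3 | h3
  · omega
  · omega

variable [CharZero K]

omit [CharZero K] in
private theorem dlt_sx (T : Tow s ξ S x y w) {z : ℕ} (hz : z < S.N) :
    s (x z) = s (dd S x z) * (ss s ξ S x y z - w z) := by
  have h1 := T.hw z hz
  rw [T.hx z hz, map_mul]
  congr 1
  rw [← h1]
  ring

private theorem dlt_sd (T : Tow s ξ S x y w) {z : ℕ} (hz : z < S.N) :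
    s (dd S x z) ∈ LL s ξ w z :=
  ((T.stb hz.le) _).2 (T.dd_mem hz)

private theorem dlt_p (S : Sch) {z : ℕ} (hz : z < S.N) (hM : ¬ z < S.M) : S.p z < z :=
  lt_trans (S.hpq z (not_lt.1 hM) hz) (S.hqj z (not_lt.1 hM) hz)

private theorem dlt_x0 (T : Tow s ξ S x y w) {z : ℕ} (hz : z < S.N) :
    x0 S x z ∈ LL s ξ w z := by
  unfold x0
  split_ifs with hM
  · exact (LL s ξ w z).zero_mem
  · exact T.x_mem hz.le (dlt_p S hz hM)

private theorem dlt_y (T : Tow s ξ S x y w) {z : ℕ} (hz : z < S.N) :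
    ∃ α ∈ LL s ξ w z, ∃ β ∈ LL s ξ w z, y z = α * w z + β := by
  by_cases hM : z < S.M
  · refine ⟨0, (LL s ξ w z).zero_mem, y z, ?_, by ring⟩
    rw [T.hy0 z hM]
    exact (LL s ξ w z).pow_mem (fb_mem_LL z z) 2
  · have hp := dlt_p S hz hM
    have hd := T.dd_mem hz
    have hsd := dlt_sd T hz
    have hc := T.ss_mem hz
    have hxp := T.x_mem hz.le hp
    have hsxp : s (x (S.p z)) ∈ LL s ξ w z := ((T.stb hz.le) _).2 hxp
    have hyp := T.y_mem hz.le hp
    refine ⟨dd S x z * s (x (S.p z)) - s (dd S x z) * x (S.p z), ?_,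
      s (dd S x z) * ss s ξ S x y z * x (S.p z) - y (S.p z), ?_, ?_⟩
    · exact (LL s ξ w z).sub_mem ((LL s ξ w z).mul_mem hd hsxp) ((LL s ξ w z).mul_mem hsd hxp)
    · exact (LL s ξ w z).sub_mem ((LL s ξ w z).mul_mem ((LL s ξ w z).mul_mem hsd hc) hxp) hyp
    · rw [T.hy1 z (not_lt.1 hM) hz, dlt_sx T hz, T.hx z hz]
      ring

theorem dl_par (T : Tow s ξ S x y w) {t : ℕ} (hNI : NI s ξ S x y w t) {z : ℕ} (hz : z ≤ t)
    (hzN : z < S.N) (hzM : S.M ≤ z) :
    dl s x y z (S.p z) = 0 ∧ dl s x y z (S.q z) = 0 := by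
  have hy := T.hy1 z hzM hzN
  have hd0 := T.dd_ne hNI hz hzN
  have hsx := dlt_sx T hzN
  have hx := T.hx z hzN
  constructor
  · unfold dl
    rw [hy]
    ring
  · have hd : dd S x z = x (S.p z) - x (S.q z) := by
      unfold dd
      rw [if_neg (not_lt.2 hzM)]
    have hss : ss s ξ S x y z = (y (S.p z) - y (S.q z)) / (dd S x z * s (dd S x z)) := by
      unfold ss
      rw [if_neg (not_lt.2 hzM), hd]
      rfl
    have hsd0 : s (dd S x z) ≠ 0 := by
      intro h
      exact hd0 ((map_eq_zero_iff s s.injective).1 h)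
    have hsd : s (dd S x z) = s (x (S.p z)) - s (x (S.q z)) := by
      rw [hd, map_sub]
    have key : dd S x z * s (dd S x z) * ss s ξ S x y z = y (S.p z) - y (S.q z) := by
      rw [hss]
      field_simp
    have e1 : x z * s (dd S x z) + s (x z) * dd S x z = y (S.p z) - y (S.q z) := by
      rw [hsx, hx, ← key]
      ring
    unfold dl
    rw [hy]
    have e2 : x z * (s (x (S.p z)) - s (x (S.q z))) + s (x z) * (x (S.p z) - x (S.q z)) =
        y (S.p z) - y (S.q z) := by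
      rw [← hsd, ← hd]
      exact e1
    linear_combination -e2

theorem dl_lin (T : Tow s ξ S x y w) {z b : ℕ} (hz : z < S.N) (hb : b < z) :
    ∃ m ∈ LL s ξ w z, dl s x y z b =
      (dd S x z * s (x b - x0 S x z) - s (dd S x z) * (x b - x0 S x z)) * w z + m := by
  have hsx := dlt_sx T hz
  have hx := T.hx z hz
  have hxb := T.x_mem hz.le hb
  have hyb := T.y_mem hz.le hb
  have hc := T.ss_mem hz
  by_cases hM : z < S.M
  · have hd : dd S x z = 1 := by
      unfold dd
      rw [if_pos hM]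
    have h0 : x0 S x z = 0 := by
      unfold x0
      rw [if_pos hM]
    have hyz : y z ∈ LL s ξ w z := by
      rw [T.hy0 z hM]
      exact (LL s ξ w z).pow_mem (fb_mem_LL z z) 2
    refine ⟨ss s ξ S x y z * x b - y z - y b, ?_, ?_⟩
    · exact (LL s ξ w z).sub_mem ((LL s ξ w z).sub_mem ((LL s ξ w z).mul_mem hc hxb) hyz) hyb
    · rw [hd, map_one, one_mul] at hsx
      rw [hd, one_mul] at hx
      unfold dl
      rw [hsx, hx, hd, h0, map_one, sub_zero]
      ring
  · have hp := dlt_p S hz hM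
    have h0 : x0 S x z = x (S.p z) := by
      unfold x0
      rw [if_neg hM]
    have hxp := T.x_mem hz.le hp
    have hyp := T.y_mem hz.le hp
    have hsd := dlt_sd T hz
    refine ⟨s (dd S x z) * ss s ξ S x y z * (x b - x (S.p z)) + y (S.p z) - y b, ?_, ?_⟩
    · exact (LL s ξ w z).sub_mem ((LL s ξ w z).add_mem ((LL s ξ w z).mul_mem
        ((LL s ξ w z).mul_mem hsd hc) ((LL s ξ w z).sub_mem hxb hxp)) hyp) hyb
    · unfold dl
      rw [T.hy1 z (not_lt.1 hM) hz, hsx, hx, h0, map_sub]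
      ring

theorem dl_coef_ne (T : Tow s ξ S x y w) {t : ℕ} (hNI : NI s ξ S x y w t) (ht : t ≤ S.N)
    {z b : ℕ} (hz : z < t) (hb : b < z) (hzb : ¬ S.Adj z b) :
    dd S x z * s (x b - x0 S x z) - s (dd S x z) * (x b - x0 S x z) ≠ 0 := by
  intro hk
  have hzN : z < S.N := lt_of_lt_of_le hz ht
  have hd0 := T.dd_ne hNI hz.le hzN
  have hsd0 : s (dd S x z) ≠ 0 := by
    intro h
    exact hd0 ((map_eq_zero_iff s s.injective).1 h)
  have hκ : (x b - x0 S x z) / dd S x z ∈ Cst s := by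
    rw [mem_Cst, map_div₀, div_eq_div_iff hsd0 hd0]
    linear_combination hk
  have hxb : x b = x0 S x z + (x b - x0 S x z) / dd S x z * dd S x z := by
    field_simp
    ring
  set κ := (x b - x0 S x z) / dd S x z with hκd
  have hbt : b < t := lt_trans hb hz
  have hbz : b ≠ z := ne_of_lt hb
  have z0 : (0 : K) ∈ Cst s := (Cst s).zero_mem
  by_cases hM : z < S.M
  · have hd : dd S x z = 1 := by
      unfold dd
      rw [if_pos hM]
    have h0 : x0 S x z = 0 := by
      unfold x0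
      rw [if_pos hM]
    refine x_ne_lin T hNI ht hbt hz hz hz hbz hbz hbz z0 z0 z0 hκ ?_
    calc x b = x0 S x z + κ * dd S x z := hxb
      _ = 0 * x z + 0 * x z + 0 * x z + κ := by
        rw [hd, h0]
        ring
  · have hp := dlt_p S hzN hM
    have hq : S.q z < z := S.hqj z (not_lt.1 hM) hzN
    have hd : dd S x z = x (S.p z) - x (S.q z) := by
      unfold dd
      rw [if_neg hM]
    have h0 : x0 S x z = x (S.p z) := by
      unfold x0
      rw [if_neg hM]
    have n1 : b ≠ S.p z := by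
      intro h
      exact hzb (Or.inr ⟨not_lt.1 hM, hzN, Or.inl h⟩)
    have n2 : b ≠ S.q z := by
      intro h
      exact hzb (Or.inr ⟨not_lt.1 hM, hzN, Or.inr h⟩)
    refine x_ne_lin T hNI ht hbt (lt_trans hp hz) (lt_trans hq hz) hz n1 n2 hbz
      ((Cst s).add_mem (Cst s).one_mem hκ) ((Cst s).neg_mem hκ) z0 z0 ?_
    calc x b = x0 S x z + κ * dd S x z := hxb
      _ = (1 + κ) * x (S.p z) + -κ * x (S.q z) + 0 * x z + 0 := by
        rw [hd, h0]
        ring

theorem dl_nmem (T : Tow s ξ S x y w) {t : ℕ} (hNI : NI s ξ S x y w t) (ht : t ≤ S.N)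
    {z b : ℕ} (hz : z < t) (hb : b < z) (hzb : ¬ S.Adj z b) : dl s x y z b ∉ LL s ξ w z := by
  intro hmem
  have hzN : z < S.N := lt_of_lt_of_le hz ht
  have hk := dl_coef_ne T hNI ht hz hb hzb
  obtain ⟨m, hm, hdl⟩ := dl_lin T hzN hb
  have he : x b - x0 S x z ∈ LL s ξ w z :=
    (LL s ξ w z).sub_mem (T.x_mem hzN.le hb) (dlt_x0 T hzN)
  have hse : s (x b - x0 S x z) ∈ LL s ξ w z := ((T.stb hzN.le) _).2 he
  have hkm : dd S x z * s (x b - x0 S x z) - s (dd S x z) * (x b - x0 S x z) ∈ LL s ξ w z :=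
    (LL s ξ w z).sub_mem ((LL s ξ w z).mul_mem (T.dd_mem hzN) hse)
      ((LL s ξ w z).mul_mem (dlt_sd T hzN) he)
  refine T.w_nmem hNI hz hzN ?_
  have hw : w z = (dd S x z * s (x b - x0 S x z) - s (dd S x z) * (x b - x0 S x z))⁻¹ *
      (dl s x y z b - m) := by
    rw [hdl, add_sub_cancel_right, ← mul_assoc, inv_mul_cancel₀ hk, one_mul]
  rw [hw]
  exact (LL s ξ w z).mul_mem ((LL s ξ w z).inv_mem hkm) ((LL s ξ w z).sub_mem hmem hm)

theorem dl_self (T : Tow s ξ S x y w) {t : ℕ} (hNI : NI s ξ S x y w t) (ht : t ≤ S.N)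
    {z : ℕ} (hz : z < t) : ∀ a ∈ LL s ξ w z, ∀ b ∈ LL s ξ w z, dl s x y z z ≠ a * w z + b := by
  intro a ha b hb hab
  have hzN : z < S.N := lt_of_lt_of_le hz ht
  have hd0 := T.dd_ne hNI hz.le hzN
  have hsd0 : s (dd S x z) ≠ 0 := by
    intro h
    exact hd0 ((map_eq_zero_iff s s.injective).1 h)
  obtain ⟨α, hα, β, hβ, hy⟩ := dlt_y T hzN
  have hd := T.dd_mem hzN
  have hsd := dlt_sd T hzN
  have hc := T.ss_mem hzN
  have h2 : (2 : K) ∈ LL s ξ w z := by
    have h11 := (LL s ξ w z).add_mem (LL s ξ w z).one_mem (LL s ξ w z).one_mem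
    rwa [one_add_one_eq_two] at h11
  have hdsd := (LL s ξ w z).mul_mem hd hsd
  set F := LL s ξ w z with hF
  have hA : -(2 * (dd S x z * s (dd S x z))) ∈ F := F.neg_mem (F.mul_mem h2 hdsd)
  have hB : 2 * (dd S x z * s (dd S x z)) * ss s ξ S x y z - 2 * α - a ∈ F :=
    F.sub_mem (F.sub_mem (F.mul_mem (F.mul_mem h2 hdsd) hc) (F.mul_mem h2 hα)) ha
  have hC : -(2 * β) - b ∈ F := F.sub_mem (F.neg_mem (F.mul_mem h2 hβ)) hb
  have hPP : (C (-(2 * (dd S x z * s (dd S x z)))) * X ^ 2 +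
      C (2 * (dd S x z * s (dd S x z)) * ss s ξ S x y z - 2 * α - a) * X +
      C (-(2 * β) - b) : K[X]) ∈ PP F :=
    (PP F).add_mem ((PP F).add_mem ((PP F).mul_mem (C_mem_PP hA) ((PP F).pow_mem X_mem_PP 2))
      ((PP F).mul_mem (C_mem_PP hB) X_mem_PP)) (C_mem_PP hC)
  have hev : (C (-(2 * (dd S x z * s (dd S x z)))) * X ^ 2 +
      C (2 * (dd S x z * s (dd S x z)) * ss s ξ S x y z - 2 * α - a) * X +
      C (-(2 * β) - b) : K[X]).eval (w z) = 0 := by
    simp only [eval_add, eval_mul, eval_C, eval_pow, eval_X]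
    have e1 : dl s x y z z = 2 * (x z * s (x z)) - 2 * y z := by
      unfold dl
      ring
    rw [e1, dlt_sx T hzN, T.hx z hzN, hy] at hab
    linear_combination hab
  have hP := T.tr hNI hz hzN _ hPP hev
  have hco := congrArg (fun P : K[X] => P.coeff 2) hP
  simp only [coeff_add, coeff_C_mul, coeff_X_pow, coeff_X, coeff_C, coeff_zero] at hco
  norm_num at hco
  exact hd0 hco

theorem dl_ne (T : Tow s ξ S x y w) {t : ℕ} (hNI : NI s ξ S x y w t) (ht : t ≤ S.N)
    {a b : ℕ} (ha : a < t) (hb : b < t) (hab : ¬ S.Adj a b) : dl s x y a b ≠ 0 := by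
  rcases lt_trichotomy a b with h | h | h
  · intro h0
    rw [dl_comm] at h0
    have hba : ¬ S.Adj b a := fun h' => hab (Sch.adj_comm.1 h')
    have := dl_nmem T hNI ht hb h hba
    rw [h0] at this
    exact this (LL s ξ w b).zero_mem
  · subst h
    have := dl_self T hNI ht ha 0 (LL s ξ w a).zero_mem 0 (LL s ξ w a).zero_mem
    rw [zero_mul, zero_add] at this
    exact this
  · intro h0
    have := dl_nmem T hNI ht ha h hab
    rw [h0] at this
    exact this (LL s ξ w a).zero_mem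

end Pool.Agent.H47.GD
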