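import Pool.Agent.H47.GD.Defs

/-!
# Module TowE (70 lines): the tower exists

Let `c a` be a chosen solution of `s (c a) + c a = a`. Define `(x, y, w) j` by strong recursion:
`j < M`: `w j = c (fb ξ j)`, `x j = w j`, `y j = (fb ξ j)^2`. `M ≤ j < N`: with `p = S.p j`, `q = S.q j`
(both `< j`): `w j = c (sp s x y p q)`, `x j = (x p - x q) * w j`,
`y j = x j * s (x p) + s (x j) * x p - y p`. `j ≥ N`: zero. (A recursive definition
`f : ℕ → K × K × K` with `termination_by j => j`, `decreasing_by` from `S.hpq`, `S.hqj`, or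
`WellFounded.fix`.)
-/

set_option autoImplicit false

namespace Pool.Agent.H47.GD

private noncomputable def TowE_f {K : Type} [Field K] (s : K ≃+* K) (ξ : K) (S : Sch)
    (c : K → K) (j : ℕ) : K × K × K :=
  if h1 : j < S.M then (c (fb ξ j), fb ξ j ^ 2, c (fb ξ j))
  else if h2 : j < S.N then
    let P := TowE_f s ξ S c (S.p j)
    let Q := TowE_f s ξ S c (S.q j)
    let w := c ((P.2.1 - Q.2.1) / ((P.1 - Q.1) * s (P.1 - Q.1)))
    ((P.1 - Q.1) * w, ((P.1 - Q.1) * w) * s P.1 + s ((P.1 - Q.1) * w) * P.1 - P.2.1, w)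
  else (0, 0, 0)
  termination_by j
  decreasing_by
    · exact lt_trans (S.hpq j (not_lt.1 h1) h2) (S.hqj j (not_lt.1 h1) h2)
    · exact S.hqj j (not_lt.1 h1) h2

theorem exists_tow {K : Type} [Field K] {s : K ≃+* K} {ξ : K} (hs : ∀ c : K, ∃ g, s g + g = c)
    (hxi : s ξ = ξ + 1) (S : Sch) (hMN : S.M ≤ S.N) :
    ∃ x y w : ℕ → K, Tow s ξ S x y w := by
  choose c hc using hs
  refine ⟨fun j => (TowE_f s ξ S c j).1, fun j => (TowE_f s ξ S c j).2.1,
    fun j => (TowE_f s ξ S c j).2.2, hxi, ?_, ?_, ?_, ?_, hMN⟩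
  · intro j hj
    by_cases h1 : j < S.M
    · simp only [dd, if_pos h1, one_mul]
      rw [TowE_f, dif_pos h1]
    · simp only [dd, if_neg h1]
      rw [TowE_f, dif_neg h1, dif_pos hj]
  · intro j hj
    by_cases h1 : j < S.M
    · simp only [ss, if_pos h1]
      rw [TowE_f, dif_pos h1]
      exact hc _
    · simp only [ss, if_neg h1, sp]
      rw [TowE_f, dif_neg h1, dif_pos hj]
      exact hc _
  · intro j hj
    show (TowE_f s ξ S c j).2.1 = _
    rw [TowE_f, dif_pos hj]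
  · intro j h1 hj
    show (TowE_f s ξ S c j).2.1 = (TowE_f s ξ S c j).1 * s (TowE_f s ξ S c (S.p j)).1
      + s (TowE_f s ξ S c j).1 * (TowE_f s ξ S c (S.p j)).1 - (TowE_f s ξ S c (S.p j)).2.1
    rw [TowE_f, dif_neg (not_lt.2 h1), dif_pos hj]

end Pool.Agent.H47.GD
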