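import Pool.Agent.H47.GD.Step
import Pool.Agent.H47.GD.TowE

/-!
# The scheme is represented faithfully
-/

set_option autoImplicit false

namespace Pool.Agent.H47.GD

variable {K : Type} [Field K] [CharZero K] {s : K ≃+* K} {ξ : K} {S : Sch} {x y w : ℕ → K}

theorem all_ind (T : Tow s ξ S x y w) (hNC : S.NC) :
    ∀ j, j ≤ S.N → IndS s ξ S x y w j := by
  intro j
  induction j using Nat.strong_induction_on with
  | _ j ih =>
    intro hj
    rcases Nat.eq_zero_or_pos j with rfl | hj0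
    · exact ind_zero T.hxi S x y w
    · obtain ⟨t, rfl⟩ : ∃ t, j = t + 1 := ⟨j - 1, by omega⟩
      exact ind_step T hNC (by omega) fun i hi => ih i (by omega) (by omega)

theorem pattern (T : Tow s ξ S x y w) (hNC : S.NC) {a b : ℕ} (ha : a < S.N) (hb : b < S.N)
    (hab : a ≠ b) : (dl s x y a b = 0 ↔ S.Adj a b) ∧ x a ≠ x b := by
  have hNI : NI s ξ S x y w S.N :=
    ni_of_ind T hNC fun i hi => all_ind T hNC i hi.le
  refine ⟨⟨fun h => ?_, fun h => ?_⟩, T.x_ne hNI ha hb ha hb hab⟩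
  · by_contra h1
    exact dl_ne T hNI le_rfl ha hb h1 h
  · rcases h with ⟨hM, hN, h | h⟩ | ⟨hM, hN, h | h⟩
    · rw [dl_comm, h]
      exact (dl_par T hNI hN.le hN hM).1
    · rw [dl_comm, h]
      exact (dl_par T hNI hN.le hN hM).2
    · rw [h]
      exact (dl_par T hNI hN.le hN hM).1
    · rw [h]
      exact (dl_par T hNI hN.le hN hM).2

theorem exists_pattern {K : Type} [Field K] [CharZero K] {s : K ≃+* K} {ξ : K}
    (hs : ∀ c : K, ∃ g, s g + g = c) (hxi : s ξ = ξ + 1) (S : Sch) (hMN : S.M ≤ S.N)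
    (hNC : S.NC) : ∃ x y : ℕ → K, ∀ a b, a < S.N → b < S.N → a ≠ b →
      (x a * s (x b) + s (x a) * x b = y a + y b ↔ S.Adj a b) ∧ x a ≠ x b := by
  obtain ⟨x, y, w, T⟩ := exists_tow hs hxi S hMN
  refine ⟨x, y, fun a b ha hb hab => ?_⟩
  obtain ⟨h1, h2⟩ := pattern T hNC ha hb hab
  refine ⟨?_, h2⟩
  rw [← h1, dl, sub_sub, sub_eq_zero]

end Pool.Agent.H47.GD
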