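import Mathlib

/-!
# Module FinF (110 lines): the finite fields

For an odd prime `p` a finite field `K` with an automorphism `s`, an element `ξ` with `s ξ = ξ + 1`, and
`g ↦ s g + g` bijective on `K`; `n ≠ 0` in `K` for `0 < n < p`.

PROOF. Let `A = AlgebraicClosure (ZMod p)`, `f = frobenius A p` (bijective: `A` is perfect, or
`frobeniusEquiv A p`), and `K` the subfield of the `x` with `x^(p^p) = x`, i.e. `f^[p] x = x`
(`iterate_frobenius`). It is finite (roots of `X^(p^p) - X ≠ 0`). `s` = restriction of `f` to `K`, with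
`s^[p] = id`, so `s` is bijective. `ξ`: a root of `X^p - X - 1` in `A` (`IsAlgClosed.exists_root`), so
`f ξ = ξ + 1`, `f^[n] ξ = ξ + n`, `f^[p] ξ = ξ + p = ξ`: `ξ ∈ K`. Solvability of `s g + g = c`: let
`g = (∑_{j < p} (-1)^j s^[j] c) / 2` (`2 ≠ 0` in `K` as `p` is odd): `s g + g = (c + (-1)^(p-1) s^[p] c)/2 = c`
(telescoping). Uniqueness: `s g = -g` gives `s^[p] g = (-1)^p g = -g`, and `s^[p] g = g`, so `2 g = 0`.
-/

set_option autoImplicit false

namespace Pool.Agent.H47.GD

private lemma FinF_field (p : ℕ) (hp : p.Prime) :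
    ∃ (K : Type) (_ : Field K) (_ : Finite K) (_ : CharP K p) (ξ : K),
      (∀ x : K, x ^ (p ^ p) = x) ∧ ξ ^ p = ξ + 1 := by
  have hF : Fact p.Prime := ⟨hp⟩
  have hcA : CharP (AlgebraicClosure (ZMod p)) p :=
    charP_of_injective_algebraMap (FaithfulSMul.algebraMap_injective (ZMod p) (AlgebraicClosure (ZMod p))) p
  obtain ⟨x0, hx0⟩ : ∃ x : AlgebraicClosure (ZMod p), x ^ p = x + 1 := by
    obtain ⟨x, hx⟩ := IsAlgClosed.exists_root
      ((Polynomial.X ^ p - Polynomial.X - 1 : Polynomial (AlgebraicClosure (ZMod p)))) (by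
        have h1 : (Polynomial.X ^ p - Polynomial.X - 1 : Polynomial (AlgebraicClosure (ZMod p))).degree = p := by
          have h2 : (Polynomial.X ^ p - Polynomial.X - 1 : Polynomial (AlgebraicClosure (ZMod p)))
            = Polynomial.X ^ p - (Polynomial.X + 1) := by ring
          rw [h2]
          rw [Polynomial.degree_sub_eq_left_of_degree_lt]
          · simp
          · rw [Polynomial.degree_X_pow]
            refine lt_of_le_of_lt (Polynomial.degree_X_add_C (1 : AlgebraicClosure (ZMod p))).le ?_
            exact_mod_cast hp.one_lt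
        rw [h1]
        exact_mod_cast hp.ne_zero)
    refine ⟨x, ?_⟩
    have := hx
    simp only [Polynomial.IsRoot.def, Polynomial.eval_sub, Polynomial.eval_pow, Polynomial.eval_X,
      Polynomial.eval_one] at this
    linear_combination this
  let K : Subfield (AlgebraicClosure (ZMod p)) :=
    RingHom.eqLocusField (iterateFrobenius (AlgebraicClosure (ZMod p)) p p) (RingHom.id _)
  have hK : ∀ x : AlgebraicClosure (ZMod p), x ∈ K ↔ x ^ (p ^ p) = x := by
    intro x
    constructor
    · intro h
      have h2 : iterateFrobenius (AlgebraicClosure (ZMod p)) p p x = RingHom.id _ x := h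
      rwa [iterateFrobenius_def] at h2
    · intro h
      show iterateFrobenius (AlgebraicClosure (ZMod p)) p p x = RingHom.id _ x
      rw [iterateFrobenius_def]; exact h
  have hfin : Finite K := by
    have hne : (Polynomial.X ^ (p ^ p) - Polynomial.X : Polynomial (AlgebraicClosure (ZMod p))) ≠ 0 := by
      apply FiniteField.X_pow_card_sub_X_ne_zero
      exact Nat.one_lt_pow hp.ne_zero hp.one_lt
    have hsub : (K : Set (AlgebraicClosure (ZMod p))) ⊆
        {x | x ∈ (Polynomial.X ^ (p ^ p) - Polynomial.X : Polynomial (AlgebraicClosure (ZMod p))).roots} := by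
      intro x hx
      have := (hK x).1 hx
      show x ∈ (Polynomial.X ^ (p ^ p) - Polynomial.X : Polynomial (AlgebraicClosure (ZMod p))).roots
      rw [Polynomial.mem_roots hne, Polynomial.IsRoot.def, Polynomial.eval_sub,
        Polynomial.eval_pow, Polynomial.eval_X, this, sub_self]
    have hfs : (K : Set (AlgebraicClosure (ZMod p))).Finite := by
      classical
      refine Set.Finite.subset ?_ hsub
      exact (Polynomial.X ^ (p ^ p) - Polynomial.X : Polynomial (AlgebraicClosure (ZMod p))).roots.toFinset.finite_toSet.subset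
        (by intro x hx; simpa using hx)
    exact hfs.to_subtype
  have hcK : CharP K p := by
    refine ⟨fun n => ?_⟩
    rw [← CharP.cast_eq_zero_iff (AlgebraicClosure (ZMod p)) p n]
    constructor
    · intro h
      have := congrArg (Subtype.val) h
      simpa using this
    · intro h
      apply Subtype.ext
      simpa using h
  have hpw : ∀ n : ℕ, x0 ^ (p ^ n) = x0 + n := by
    intro n
    induction n with
    | zero => simp
    | succ k ih =>
      rw [pow_succ, pow_mul, ih, add_pow_char, hx0]
      have : ((k : AlgebraicClosure (ZMod p))) ^ p = k := by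
        have := map_natCast (frobenius (AlgebraicClosure (ZMod p)) p) k
        rwa [frobenius_def] at this
      rw [this]; push_cast; ring
  have hx0K : x0 ∈ K := by
    rw [hK, hpw p]
    rw [CharP.cast_eq_zero, add_zero]
  refine ⟨K, inferInstance, hfin, hcK, ⟨x0, hx0K⟩, ?_, ?_⟩
  · rintro ⟨x, hx⟩
    apply Subtype.ext
    simpa using (hK x).1 hx
  · apply Subtype.ext
    simpa using hx0

private lemma FinF_iter {K : Type} [Field K] (s : K →+* K) (c : K) (n : ℕ) :
    s (∑ j ∈ Finset.range n, (-1) ^ j * (s^[j] c)) + (∑ j ∈ Finset.range n, (-1) ^ j * (s^[j] c))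
      = c - (-1) ^ n * (s^[n] c) := by
  induction n with
  | zero => simp
  | succ k ih =>
    rw [Finset.sum_range_succ, map_add]
    have h1 : s ((-1) ^ k * s^[k] c) = (-1) ^ k * (s^[k+1] c) := by
      rw [map_mul, map_pow, map_neg, map_one, Function.iterate_succ_apply']
    rw [h1, pow_succ]
    linear_combination ih

theorem fin_field (p : ℕ) (hp : p.Prime) (hp2 : p ≠ 2) :
    ∃ (K : Type) (_ : Field K) (_ : Finite K) (s : K ≃+* K) (ξ : K), s ξ = ξ + 1 ∧
      (∀ c : K, ∃ g, s g + g = c) ∧ (∀ g : K, s g + g = 0 → g = 0) ∧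
      ∀ n : ℕ, 0 < n → n < p → (n : K) ≠ 0 := by
  obtain ⟨K, iF, iN, iC, ξ, hpp, hξ⟩ := FinF_field p hp
  have hF : Fact p.Prime := ⟨hp⟩
  have hodd : Odd p := hp.odd_of_ne_two hp2
  have hperf : PerfectRing K p := inferInstance
  have hs : ∀ x : K, frobeniusEquiv K p x = x ^ p := fun x => by
    have h : frobeniusEquiv K p x = frobenius K p x := rfl
    rw [h, frobenius_def]
  have hit : ∀ (n : ℕ) (x : K), (frobenius K p)^[n] x = x ^ (p ^ n) := by
    intro n x
    exact iterate_frobenius p n x
  have h2 : (2 : K) ≠ 0 := by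
    intro h
    have h3 : ((2 : ℕ) : K) = 0 := by exact_mod_cast h
    rw [CharP.cast_eq_zero_iff K p] at h3
    have := Nat.le_of_dvd (by norm_num) h3
    have h5 := hp.two_le
    exact hp2 (by omega)
  refine ⟨K, iF, iN, frobeniusEquiv K p, ξ, ?_, ?_, ?_, ?_⟩
  · rw [hs, hξ]
  · intro c
    refine ⟨(∑ j ∈ Finset.range p, (-1) ^ j * ((frobenius K p)^[j] c)) / 2, ?_⟩
    have h := FinF_iter (frobenius K p) c p
    rw [hit p c, hpp, hodd.neg_one_pow] at h
    have h3 : frobeniusEquiv K p ((∑ j ∈ Finset.range p, (-1) ^ j * ((frobenius K p)^[j] c)) / 2)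
      = frobenius K p (∑ j ∈ Finset.range p, (-1) ^ j * ((frobenius K p)^[j] c)) / 2 := by
      rw [map_div₀]
      have : frobeniusEquiv K p (2 : K) = 2 := map_ofNat _ 2
      rw [this]
      congr 1
    rw [h3, ← add_div, h]
    field_simp
    ring
  · intro g hg
    have h1 : frobenius K p g = -g := by
      have : frobeniusEquiv K p g = frobenius K p g := rfl
      rw [← this]; linear_combination hg
    have h3 : ∀ n : ℕ, (frobenius K p)^[n] g = (-1) ^ n * g := by
      intro n
      induction n with
      | zero => simp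
      | succ k ih =>
        rw [Function.iterate_succ_apply', ih, map_mul, map_pow, map_neg, map_one, h1, pow_succ]
        ring
    have h4 := h3 p
    rw [hit p g, hpp, hodd.neg_one_pow] at h4
    have h5 : 2 * g = 0 := by linear_combination h4
    exact (mul_eq_zero.mp h5).resolve_left h2
  · intro n hn hnp h
    rw [CharP.cast_eq_zero_iff K p] at h
    exact absurd (Nat.le_of_dvd hn h) (not_le.mpr hnp)

end Pool.Agent.H47.GD
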