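import Pool.Agent.H53.GG.Pol

/-!
# Module Geo (110 lines): the polarity graph of the twisted field plane

`K` a finite field, `s` an automorphism, `g ↦ s g + g` bijective. `W = (K × K) ⊕ Option K`; adjacency:
`inl P`, `inl Q`: `P ≠ Q` and `P.1 * s Q.1 + s P.1 * Q.1 = P.2 + Q.2`; `inl P`, `inr (some c)`: `P.1 = c`;
`inr none`, `inr (some c)`: always; no other adjacencies (define `Adj` by `match`, symmetric, irreflexive).
`geo_of_unique` (in `H53/GG/Pol.lean`): it is enough that two different nonadjacent vertices have exactly one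
common neighbour. (1) `inl P`, `inl Q`, `d = P.1 - Q.1 ≠ 0`: common neighbour `inl (X, Y)` with
`X s(d) + s(X) d = P.2 - Q.2`, `Y = X s(P.1) + s(X) P.1 - P.2`; `X = d g`, `s g + g = (P.2 - Q.2)/(d s d)`,
exactly one solution; it is different from `P`, `Q` because `P`, `Q` are not adjacent
(if `(X, Y) = P`, then `Q ~ P`); no common neighbour among `inr` as `P.1 ≠ Q.1`.
(2) `P.1 = Q.1`, `P.2 ≠ Q.2`: only `inr (some P.1)` (`inl (X, Y)` would give `P.2 = Q.2`).
(3) `inl P`, `inr (some c)`, `P.1 ≠ c`: only `inl (c, c s(P.1) + s(c) P.1 - P.2)`.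
(4) `inl P`, `inr none`: only `inr (some P.1)`. (5) `inr (some c)`, `inr (some c')`: only `inr none`.
(6) `inr none`, `inr (some c)` are adjacent. The embedding is `v ↦ inl (x v, y v)`, injective as `x` is.
-/

set_option autoImplicit false

namespace Pool.Agent.H47.GD

open Pool.Agent.H53.GG

/-- adjacency of the polarity graph -/
private def Geo_adj {K : Type} [Field K] (s : K ≃+* K) :
    (K × K) ⊕ Option K → (K × K) ⊕ Option K → Prop
  | .inl P, .inl Q => P ≠ Q ∧ P.1 * s Q.1 + s P.1 * Q.1 = P.2 + Q.2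
  | .inl P, .inr (some c) => P.1 = c
  | .inr (some c), .inl P => P.1 = c
  | .inl _, .inr none => False
  | .inr none, .inl _ => False
  | .inr none, .inr (some _) => True
  | .inr (some _), .inr none => True
  | .inr none, .inr none => False
  | .inr (some _), .inr (some _) => False

private theorem Geo_symm {K : Type} [Field K] (s : K ≃+* K) :
    ∀ u v, Geo_adj s u v → Geo_adj s v u
  | .inl P, .inl Q, h => ⟨h.1.symm, by
      have h2 : P.1 * s Q.1 + s P.1 * Q.1 = P.2 + Q.2 := h.2
      linear_combination h2⟩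
  | .inl _, .inr (some _), h => h
  | .inr (some _), .inl _, h => h
  | .inl _, .inr none, h => h
  | .inr none, .inl _, h => h
  | .inr none, .inr (some _), h => h
  | .inr (some _), .inr none, h => h
  | .inr none, .inr none, h => h
  | .inr (some _), .inr (some _), h => h

private theorem Geo_irrefl {K : Type} [Field K] (s : K ≃+* K) : ∀ u, ¬ Geo_adj s u u
  | .inl _, h => h.1 rfl
  | .inr none, h => h
  | .inr (some _), h => h

/-- exactly one common neighbour -/
private def Geo_U {K : Type} [Field K] (s : K ≃+* K) (u v : (K × K) ⊕ Option K) : Prop :=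
  ∃ w, Geo_adj s u w ∧ Geo_adj s w v ∧ ∀ w', Geo_adj s u w' → Geo_adj s w' v → w' = w

private theorem Geo_U_symm {K : Type} [Field K] {s : K ≃+* K} {u v : (K × K) ⊕ Option K}
    (h : Geo_U s u v) : Geo_U s v u := by
  obtain ⟨w, h1, h2, h3⟩ := h
  exact ⟨w, Geo_symm s _ _ h2, Geo_symm s _ _ h1,
    fun w' h4 h5 => h3 w' (Geo_symm s _ _ h5) (Geo_symm s _ _ h4)⟩

private theorem Geo_pp {K : Type} [Field K] {s : K ≃+* K}
    (h1 : ∀ c : K, ∃ g, s g + g = c) (h2 : ∀ g : K, s g + g = 0 → g = 0)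
    {P Q : K × K} (hPQ : P ≠ Q) (hn : ¬ Geo_adj s (.inl P) (.inl Q)) :
    Geo_U s (.inl P) (.inl Q) := by
  by_cases hd : P.1 = Q.1
  · have h3 : P.2 ≠ Q.2 := fun h => hPQ (Prod.ext hd h)
    refine ⟨.inr (some P.1), rfl, hd.symm, ?_⟩
    rintro (R | _ | c) h4 h5
    · exfalso
      have h6 : P.1 * s R.1 + s P.1 * R.1 = P.2 + R.2 := h4.2
      have h7 : R.1 * s Q.1 + s R.1 * Q.1 = R.2 + Q.2 := h5.2
      apply h3
      rw [← hd] at h7
      linear_combination h7 - h6
    · exact absurd h4 (fun h => h)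
    · have h6 : P.1 = c := h4
      rw [h6]
  · have hd0 : P.1 - Q.1 ≠ 0 := sub_ne_zero.2 hd
    have hs0 : s (P.1 - Q.1) ≠ 0 := fun h => hd0 (by
      rw [← map_zero s] at h
      exact s.injective h)
    obtain ⟨g, hg⟩ := h1 ((P.2 - Q.2) / ((P.1 - Q.1) * s (P.1 - Q.1)))
    obtain ⟨X, hX⟩ : ∃ X : K, X = (P.1 - Q.1) * g := ⟨_, rfl⟩
    obtain ⟨Y, hY⟩ : ∃ Y : K, Y = X * s P.1 + s X * P.1 - P.2 := ⟨_, rfl⟩
    have h3 : X * s (P.1 - Q.1) + s X * (P.1 - Q.1) = P.2 - Q.2 := by
      have h4 : s X = s (P.1 - Q.1) * s g := by rw [hX, map_mul]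
      rw [h4]
      have h5 : (s g + g) * ((P.1 - Q.1) * s (P.1 - Q.1)) = P.2 - Q.2 := by
        rw [hg, div_mul_cancel₀ _ (mul_ne_zero hd0 hs0)]
      rw [hX]
      linear_combination h5
    rw [map_sub] at h3
    have e1 : P.1 * s X + s P.1 * X = P.2 + Y := by
      rw [hY]
      ring
    have e2 : X * s Q.1 + s X * Q.1 = Y + Q.2 := by
      linear_combination e1 - h3
    refine ⟨.inl (X, Y), ⟨?_, e1⟩, ⟨?_, e2⟩, ?_⟩
    · intro h4
      apply hn
      rw [h4]
      refine ⟨?_, e2⟩
      rw [← h4]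
      exact hPQ
    · intro h4
      apply hn
      rw [← h4]
      refine ⟨?_, e1⟩
      rw [h4]
      exact hPQ
    · rintro (R | _ | c) h4 h5
      · have h6 : P.1 * s R.1 + s P.1 * R.1 = P.2 + R.2 := h4.2
        have h7 : R.1 * s Q.1 + s R.1 * Q.1 = R.2 + Q.2 := h5.2
        have h8 : s ((R.1 - X) / (P.1 - Q.1)) + (R.1 - X) / (P.1 - Q.1) = 0 := by
          rw [map_div₀]
          have h9 : s (R.1 - X) * (P.1 - Q.1) + (R.1 - X) * s (P.1 - Q.1) = 0 := by
            rw [map_sub, map_sub]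
            linear_combination h6 - h7 - e1 + e2
          rw [div_add_div _ _ hs0 hd0, div_eq_zero_iff]
          left
          linear_combination h9
        have h9 := h2 _ h8
        rw [div_eq_zero_iff] at h9
        have h10 : R.1 = X := sub_eq_zero.1 (h9.resolve_right hd0)
        have h11 : R.2 = Y := by
          rw [h10] at h6
          linear_combination e1 - h6
        have h12 : R = (X, Y) := Prod.ext h10 h11
        rw [h12]
      · exact absurd h4 (fun h => h)
      · exfalso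
        have h6 : P.1 = c := h4
        have h7 : Q.1 = c := h5
        exact hd (h6.trans h7.symm)

private theorem Geo_pl {K : Type} [Field K] {s : K ≃+* K} {P : K × K} {c : K} (hn : P.1 ≠ c) :
    Geo_U s (.inl P) (.inr (some c)) := by
  have e1 : P.1 * s c + s P.1 * c = P.2 + (c * s P.1 + s c * P.1 - P.2) := by ring
  refine ⟨.inl (c, c * s P.1 + s c * P.1 - P.2), ⟨?_, e1⟩, rfl, ?_⟩
  · intro h
    exact hn (congrArg Prod.fst h)
  · rintro (R | _ | c') h4 h5
    · have h6 : P.1 * s R.1 + s P.1 * R.1 = P.2 + R.2 := h4.2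
      have h7 : R.1 = c := h5
      have h8 : R.2 = c * s P.1 + s c * P.1 - P.2 := by
        rw [h7] at h6
        linear_combination e1 - h6
      have h9 : R = (c, c * s P.1 + s c * P.1 - P.2) := Prod.ext h7 h8
      rw [h9]
    · exact absurd h4 (fun h => h)
    · exact absurd h5 (fun h => h)

private theorem Geo_pn {K : Type} [Field K] {s : K ≃+* K} (P : K × K) :
    Geo_U s (.inl P) (.inr none) := by
  refine ⟨.inr (some P.1), rfl, trivial, ?_⟩
  rintro (R | _ | c') h4 h5
  · exact absurd h5 (fun h => h)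
  · exact absurd h5 (fun h => h)
  · have h6 : P.1 = c' := h4
    rw [h6]

private theorem Geo_ll {K : Type} [Field K] {s : K ≃+* K} {c c' : K} (h : c ≠ c') :
    Geo_U s (.inr (some c)) (.inr (some c')) := by
  refine ⟨.inr none, trivial, trivial, ?_⟩
  rintro (R | _ | c'') h4 h5
  · exfalso
    have h6 : R.1 = c := h4
    have h7 : R.1 = c' := h5
    exact h (h6.symm.trans h7)
  · rfl
  · exact absurd h5 (fun h => h)

private theorem Geo_all {K : Type} [Field K] {s : K ≃+* K}
    (h1 : ∀ c : K, ∃ g, s g + g = c) (h2 : ∀ g : K, s g + g = 0 → g = 0) :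
    ∀ u v, u ≠ v → ¬ Geo_adj s u v → Geo_U s u v
  | .inl P, .inl Q, h, hn => Geo_pp h1 h2 (fun h' => h (congrArg Sum.inl h')) hn
  | .inl P, .inr (some c), _, hn => Geo_pl (fun h' => hn h')
  | .inr (some c), .inl P, _, hn => Geo_U_symm (Geo_pl (fun h' => hn h'))
  | .inl P, .inr none, _, _ => Geo_pn P
  | .inr none, .inl P, _, _ => Geo_U_symm (Geo_pn P)
  | .inr none, .inr (some _), _, hn => absurd trivial hn
  | .inr (some _), .inr none, _, hn => absurd trivial hn
  | .inr none, .inr none, h, _ => absurd rfl h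
  | .inr (some c), .inr (some c'), h, _ => Geo_ll (fun h' => h (by rw [h']))

/-- the polarity graph -/
private def Geo_G {K : Type} [Field K] (s : K ≃+* K) : SimpleGraph ((K × K) ⊕ Option K) where
  Adj := Geo_adj s
  symm := ⟨fun u v h => Geo_symm s u v h⟩
  loopless := ⟨fun u h => Geo_irrefl s u h⟩

theorem geo_embed {K : Type} [Field K] [Finite K] (s : K ≃+* K)
    (h1 : ∀ c : K, ∃ g, s g + g = c) (h2 : ∀ g : K, s g + g = 0 → g = 0)
    {V : Type} (H : SimpleGraph V) (x y : V → K)
    (h : ∀ a b, a ≠ b → ((x a * s (x b) + s (x a) * x b = y a + y b ↔ H.Adj a b) ∧ x a ≠ x b)) :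
    ∃ (W : Type) (_ : Finite W) (G : SimpleGraph W),
      Geodetic G ∧ (∀ u v, G.dist u v ≤ 2) ∧ Nonempty (H ↪g G) := by
  have hne : Nonempty ((K × K) ⊕ Option K) := ⟨.inr none⟩
  obtain ⟨h3, h4⟩ := geo_of_unique (Geo_G s) (fun u v huv hadj => Geo_all h1 h2 u v huv hadj)
  have hinj : ∀ a b, x a = x b → a = b := by
    intro a b hab
    by_contra hne
    exact (h a b hne).2 hab
  refine ⟨_, inferInstance, Geo_G s, h3, h4, ⟨⟨⟨fun v => .inl (x v, y v), fun a b hab => ?_⟩, ?_⟩⟩⟩
  · have h5 : (x a, y a) = (x b, y b) := Sum.inl.inj hab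
    exact hinj a b (congrArg Prod.fst h5)
  · intro a b
    show ((x a, y a) ≠ (x b, y b) ∧ x a * s (x b) + s (x a) * x b = y a + y b) ↔ H.Adj a b
    by_cases hab : a = b
    · subst hab
      exact ⟨fun h' => absurd rfl h'.1, fun h' => absurd rfl h'.ne⟩
    · refine ⟨fun h' => (h a b hab).1.1 h'.2, fun h' => ⟨fun h5 => ?_, (h a b hab).1.2 h'⟩⟩
      exact hab (hinj a b (congrArg Prod.fst h5))

end Pool.Agent.H47.GD
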