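import Pool.Agent.H47.GD.TrA

/-!
# Module LemB (180 lines): the image does not grow

Let `s w + w = c`, `c ∈ F` not in the image of `F`, `h ∈ F` and `h = s g + g` with `g ∈ F(w)`. Then
`h - κ c` is in the image of `F` for some `κ ∈ Cst s`.

PROOF. `w` is transcendental over `F` (`tr_of_not_im`). For a polynomial `P` with coefficients in `F`
let `φ P = (P.map s).comp (C c - X)`; then `(φ P)(w) = s (P(w))`, `φ` is a ring homomorphism, keeps the
degree, and multiplies the leading coefficient by `(-1)^n` after applying `s`.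
(1) Denominators. Let `Q` be a monic polynomial in `PP F` of least degree `r` with `g Q(w) = P(w)` for
some `P ∈ PP F` (exists as `g ∈ F(w)`). From `s g = h - g`: `g · (φ Q)(w) = (h - s g) · s (Q(w)) =
h (φ Q)(w) - s (P (w)) = (h φ Q - φ P)(w)`. So `φ Q` is also a denominator of `g`, of the same degree
`r`, with leading coefficient `(-1)^r`; `Q - (-1)^r φ Q` is a denominator of smaller degree, hence `0`
(normalise it to be monic otherwise). So `Q = (-1)^r φ Q`; if `r ≥ 1` the coefficient `a` of `X^(r-1)`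
gives `a = -(r c + s a)`, so `c` is in the image: contradiction. So `r = 0`, `Q = 1`: `g = P(w)`.
(2) `P` has degree `n`. The polynomial identity (by `Tr`) is `φ P + P = C h`. If `n ≥ 2`: coefficient of
`X^n`: `(-1)^n s(a_n) + a_n = 0`; coefficient of `X^(n-1)`:
`(-1)^(n-1) (n c s(a_n) + s(a_(n-1))) + a_(n-1) = 0`. With `b = a_(n-1)/a_n`:
`n c + s b + b = 0`, so `c` is in the image (`g = -b/n`): contradiction. So `P = a_0 + a_1 X` and
`s(a_1) = a_1`, `s(a_0) + s(a_1) c + a_0 = h`: `κ = a_1`.
-/

set_option autoImplicit false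

namespace Pool.Agent.H47.GD

open Polynomial

variable {K : Type} [Field K] {F : Subfield K} {s : K ≃+* K} {c w h : K}

/-- The reflected polynomial. -/
private noncomputable def LemB_refl (s : K ≃+* K) (c : K) (P : K[X]) : K[X] :=
  (P.map (s : K →+* K)).comp (C c - X)

private theorem LemB_refl_mem (hF : Stb s F) (hc : c ∈ F) {P : K[X]} (hP : P ∈ PP F) :
    LemB_refl s c P ∈ PP F :=
  comp_mem_PP (map_mem_PP hF hP) ((PP F).sub_mem (C_mem_PP hc) X_mem_PP)

private theorem LemB_refl_eval (hw : s w + w = c) (P : K[X]) :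
    (LemB_refl s c P).eval w = s (P.eval w) := by
  unfold LemB_refl
  have h1 : c - w = s w := by rw [← hw]; ring
  rw [eval_comp, eval_sub, eval_C, eval_X, h1]
  have := Polynomial.eval_map_apply (s : K →+* K) (p := P) w
  simpa using this

private theorem LemB_pow_coeff (c : K) (i k : ℕ) :
    ((C c - X) ^ i : K[X]).coeff k = (-1) ^ i * ((-c) ^ (i - k) * (i.choose k : K)) := by
  have h1 : (C c - X : K[X]) = C (-1) * (X + C (-c)) := by
    rw [C_neg, C_neg, C_1]; ring
  rw [h1, mul_pow, ← C_pow, coeff_C_mul, coeff_X_add_C_pow]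

private theorem LemB_comp_coeff (c : K) {p : K[X]} {m : ℕ} (hp : p.natDegree ≤ m + 1) (k : ℕ) :
    (p.comp (C c - X)).coeff k =
      ∑ i ∈ Finset.range (m + 2), p.coeff i * ((-1) ^ i * ((-c) ^ (i - k) * (i.choose k : K))) := by
  unfold Polynomial.comp
  rw [Polynomial.eval₂_eq_sum_range' C (show p.natDegree < m + 2 by omega) (C c - X),
    finsetSum_coeff]
  refine Finset.sum_congr rfl fun i _ => ?_
  rw [coeff_C_mul, LemB_pow_coeff]

private theorem LemB_coeff_high (c : K) {p : K[X]} {m : ℕ} (hp : p.natDegree ≤ m + 1) {k : ℕ}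
    (hk : m + 1 < k) : (p.comp (C c - X)).coeff k = 0 := by
  rw [LemB_comp_coeff c hp]
  refine Finset.sum_eq_zero fun i hi => ?_
  rw [Finset.mem_range] at hi
  rw [Nat.choose_eq_zero_of_lt (show i < k by omega)]
  simp

private theorem LemB_coeff_top (c : K) {p : K[X]} {m : ℕ} (hp : p.natDegree ≤ m + 1) :
    (p.comp (C c - X)).coeff (m + 1) = (-1) ^ (m + 1) * p.coeff (m + 1) := by
  rw [LemB_comp_coeff c hp, Finset.sum_range_succ]
  rw [Finset.sum_eq_zero]
  · simp [mul_comm]
  · intro i hi
    rw [Finset.mem_range] at hi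
    rw [Nat.choose_eq_zero_of_lt (show i < m + 1 by omega)]
    simp

private theorem LemB_coeff_next (c : K) {p : K[X]} {m : ℕ} (hp : p.natDegree ≤ m + 1) :
    (p.comp (C c - X)).coeff m = (-1) ^ m * (p.coeff m + ((m : K) + 1) * c * p.coeff (m + 1)) := by
  rw [LemB_comp_coeff c hp, Finset.sum_range_succ, Finset.sum_range_succ]
  rw [Finset.sum_eq_zero]
  · rw [Nat.choose_self, Nat.choose_succ_self_right, Nat.sub_self, Nat.add_sub_cancel_left]
    push_cast
    ring
  · intro i hi
    rw [Finset.mem_range] at hi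
    rw [Nat.choose_eq_zero_of_lt (show i < m by omega)]
    simp

/-- An element of `F(w)` with `s g + g` in `F` has no denominator. -/
private theorem LemB_den [CharZero K] (hF : Stb s F) (hc : c ∈ F) (hw : s w + w = c)
    (hn : ¬ Im s F c) (hh : h ∈ F) {g : K} (hg : s g + g = h) (n : ℕ) :
    ∀ Q ∈ PP F, ∀ P ∈ PP F, Q ≠ 0 → Q.natDegree ≤ n → g * Q.eval w = P.eval w →
      ∃ R ∈ PP F, g = R.eval w := by
  induction n with
  | zero =>
    intro Q hQ P hP hQ0 hd he
    have hQe := Polynomial.eq_C_of_natDegree_le_zero hd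
    have hq0 : Q.coeff 0 ≠ 0 := by
      intro h0
      apply hQ0
      rw [hQe, h0, C_0]
    rw [hQe, eval_C] at he
    refine ⟨C (Q.coeff 0)⁻¹ * P, (PP F).mul_mem (C_mem_PP (F.inv_mem (hQ 0))) hP, ?_⟩
    rw [eval_mul, eval_C, ← he]
    field_simp
  | succ m ih =>
    intro Q hQ P hP hQ0 hd he
    by_cases ha : Q.coeff (m + 1) = 0
    · refine ih Q hQ P hP hQ0 ?_ he
      rw [Polynomial.natDegree_le_iff_coeff_eq_zero]
      intro k hk
      by_cases hk1 : k = m + 1
      · rw [hk1, ha]
      · exact Polynomial.coeff_eq_zero_of_natDegree_lt (by omega)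
    · obtain ⟨Q1, hQ1e⟩ : ∃ Q1, Q1 = C (Q.coeff (m + 1))⁻¹ * Q := ⟨_, rfl⟩
      obtain ⟨P1, hP1e⟩ : ∃ P1, P1 = C (Q.coeff (m + 1))⁻¹ * P := ⟨_, rfl⟩
      have hQ1 : Q1 ∈ PP F := by
        rw [hQ1e]
        exact (PP F).mul_mem (C_mem_PP (F.inv_mem (hQ _))) hQ
      have hP1 : P1 ∈ PP F := by
        rw [hP1e]
        exact (PP F).mul_mem (C_mem_PP (F.inv_mem (hQ _))) hP
      have hd1 : Q1.natDegree ≤ m + 1 := by
        rw [hQ1e]
        exact (Polynomial.natDegree_C_mul_le _ _).trans hd
      have he1 : g * Q1.eval w = P1.eval w := by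
        rw [hQ1e, hP1e, eval_mul, eval_mul, ← he]
        ring
      have hl1 : Q1.coeff (m + 1) = 1 := by
        rw [hQ1e, coeff_C_mul, inv_mul_cancel₀ ha]
      have hdm : (Q1.map (s : K →+* K)).natDegree ≤ m + 1 :=
        (Polynomial.natDegree_map_le).trans hd1
      have hQR := LemB_refl_mem hF hc hQ1
      have hPR := LemB_refl_mem hF hc hP1
      have he2 : s g * s (Q1.eval w) = s (P1.eval w) := by rw [← map_mul, he1]
      have hsg : s g = h - g := by rw [← hg]; ring
      have hone : ((-1 : K) ^ (m + 1)) ∈ F := F.pow_mem (F.neg_mem F.one_mem) _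
      by_cases hD : Q1 - C ((-1) ^ (m + 1)) * LemB_refl s c Q1 = 0
      · exfalso
        apply hn
        have hm0 : ((m : K) + 1) ≠ 0 := by exact_mod_cast Nat.succ_ne_zero m
        have hco := congrArg (fun Q => Polynomial.coeff Q m) hD
        simp only [coeff_sub, coeff_C_mul, coeff_zero] at hco
        unfold LemB_refl at hco
        rw [LemB_coeff_next c hdm, coeff_map, coeff_map, hl1, RingHom.map_one, mul_one] at hco
        have hs2 : ((-1 : K) ^ (m + 1)) * (-1) ^ m = -1 := by
          rw [pow_succ, mul_comm ((-1 : K) ^ m) (-1), mul_assoc, ← mul_pow]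
          norm_num
        have hco2 : Q1.coeff m + (s (Q1.coeff m) + ((m : K) + 1) * c) = 0 := by
          rw [← mul_assoc, hs2] at hco
          have : (s : K →+* K) (Q1.coeff m) = s (Q1.coeff m) := rfl
          rw [this] at hco
          linear_combination hco
        refine ⟨-(Q1.coeff m) / ((m : K) + 1), ?_, ?_⟩
        · refine F.div_mem (F.neg_mem (hQ1 m)) (F.add_mem ?_ F.one_mem)
          exact natCast_mem F m
        · rw [map_div₀, map_neg, map_add, map_natCast, map_one, ← add_div, div_eq_iff hm0]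
          linear_combination -hco2
      · refine ih _ ((PP F).sub_mem hQ1 ((PP F).mul_mem (C_mem_PP hone) hQR))
          (P1 - C ((-1) ^ (m + 1)) * (C h * LemB_refl s c Q1 - LemB_refl s c P1)) ?_ hD ?_ ?_
        · exact (PP F).sub_mem hP1 ((PP F).mul_mem (C_mem_PP hone)
            ((PP F).sub_mem ((PP F).mul_mem (C_mem_PP hh) hQR) hPR))
        · rw [Polynomial.natDegree_le_iff_coeff_eq_zero]
          intro k hk
          rw [coeff_sub, coeff_C_mul]
          unfold LemB_refl
          by_cases hk1 : k = m + 1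
          · rw [hk1, LemB_coeff_top c hdm, hl1, coeff_map, hl1, map_one, mul_one, ← mul_pow]
            norm_num
          · rw [LemB_coeff_high c hdm (by omega), mul_zero, sub_zero]
            exact Polynomial.coeff_eq_zero_of_natDegree_lt (by omega)
        · rw [eval_sub, eval_sub, eval_mul, eval_mul, eval_sub, eval_mul, eval_C, eval_C,
            LemB_refl_eval hw, LemB_refl_eval hw, ← he2, ← he1, hsg]
          ring

/-- The polynomial case. -/
private theorem LemB_poly [CharZero K] (hF : Stb s F) (hc : c ∈ F) (hw : s w + w = c)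
    (hn : ¬ Im s F c) (hh : h ∈ F) {P : K[X]} (hP : P ∈ PP F)
    (he : s (P.eval w) + P.eval w = h) : ∃ κ ∈ Cst s, κ ∈ F ∧ Im s F (h - κ * c) := by
  have ht := tr_of_not_im hF hc hw hn
  have hid : LemB_refl s c P + P - C h = 0 := by
    refine ht _ ((PP F).sub_mem ((PP F).add_mem (LemB_refl_mem hF hc hP) hP) (C_mem_PP hh)) ?_
    rw [eval_sub, eval_add, eval_C, LemB_refl_eval hw, he, sub_self]
  have hcast : ∀ x, (s : K →+* K) x = s x := fun _ => rfl
  by_cases hd : P.natDegree ≤ 1
  · have hdm : (P.map (s : K →+* K)).natDegree ≤ 0 + 1 := (Polynomial.natDegree_map_le).trans hd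
    have h1 := congrArg (fun Q => Polynomial.coeff Q (0 + 1)) hid
    have h0 := congrArg (fun Q => Polynomial.coeff Q 0) hid
    simp only [coeff_sub, coeff_add, coeff_zero] at h1 h0
    unfold LemB_refl at h1 h0
    rw [LemB_coeff_top c hdm, coeff_map, hcast] at h1
    rw [LemB_coeff_next c hdm, coeff_map, coeff_map, hcast, hcast] at h0
    rw [coeff_C, if_neg (by norm_num)] at h1
    rw [coeff_C, if_pos rfl] at h0
    have h2 : s (P.coeff (0 + 1)) = P.coeff (0 + 1) := by linear_combination -h1
    refine ⟨P.coeff (0 + 1), h2, hP _, P.coeff 0, hP _, ?_⟩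
    rw [h2] at h0
    simp only [Nat.cast_zero, pow_zero] at h0
    linear_combination h0
  · exfalso
    apply hn
    obtain ⟨m, hm⟩ : ∃ m, P.natDegree = m + 1 := ⟨P.natDegree - 1, by omega⟩
    have hm1 : m ≠ 0 := by omega
    have hdm : (P.map (s : K →+* K)).natDegree ≤ m + 1 :=
      (Polynomial.natDegree_map_le).trans hm.le
    have ha : P.coeff (m + 1) ≠ 0 := by
      rw [← hm]
      intro h0
      have h1 : P.leadingCoeff = 0 := h0
      rw [Polynomial.leadingCoeff_eq_zero] at h1
      rw [h1, natDegree_zero] at hm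
      omega
    have h1 := congrArg (fun Q => Polynomial.coeff Q (m + 1)) hid
    have h0 := congrArg (fun Q => Polynomial.coeff Q m) hid
    simp only [coeff_sub, coeff_add, coeff_zero] at h1 h0
    unfold LemB_refl at h1 h0
    rw [LemB_coeff_top c hdm, coeff_map, hcast, coeff_C, if_neg (by omega), sub_zero] at h1
    rw [LemB_coeff_next c hdm, coeff_map, coeff_map, hcast, hcast, coeff_C, if_neg hm1,
      sub_zero] at h0
    have hm0 : ((m : K) + 1) ≠ 0 := by exact_mod_cast Nat.succ_ne_zero m
    have hs2 : ((-1 : K) ^ m) * (-1) ^ m = 1 := by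
      rw [← mul_pow]
      norm_num
    have h2 : s (P.coeff (m + 1)) = (-1) ^ m * P.coeff (m + 1) := by
      rw [pow_succ] at h1
      have h3 : (-1 : K) ^ m * s (P.coeff (m + 1)) = P.coeff (m + 1) := by
        linear_combination -h1
      calc s (P.coeff (m + 1)) = ((-1 : K) ^ m * (-1) ^ m) * s (P.coeff (m + 1)) := by
            rw [hs2, one_mul]
        _ = _ := by rw [mul_assoc, h3]
    have hsne : s (P.coeff (m + 1)) ≠ 0 := (map_ne_zero_iff s s.injective).2 ha
    have h4 : (-1 : K) ^ m * s (P.coeff m) + ((m : K) + 1) * c * P.coeff (m + 1)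
        + P.coeff m = 0 := by
      rw [h2] at h0
      linear_combination h0 - ((m : K) + 1) * c * P.coeff (m + 1) * hs2
    refine ⟨-(P.coeff m / P.coeff (m + 1)) / ((m : K) + 1), ?_, ?_⟩
    · refine F.div_mem (F.neg_mem (F.div_mem (hP m) (hP _))) (F.add_mem ?_ F.one_mem)
      exact natCast_mem F m
    · rw [map_div₀, map_neg, map_add, map_natCast, map_one, ← add_div, div_eq_iff hm0,
        map_div₀, h2]
      have h5 : (-1 : K) ^ m ≠ 0 := pow_ne_zero _ (by norm_num)
      have h6 : s (P.coeff m) / ((-1) ^ m * P.coeff (m + 1)) =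
          (-1) ^ m * s (P.coeff m) / P.coeff (m + 1) := by
        rw [div_eq_div_iff (mul_ne_zero h5 ha) ha]
        linear_combination -(s (P.coeff m) * P.coeff (m + 1)) * hs2
      rw [h6]
      have h7 : (-1 : K) ^ m * s (P.coeff m) / P.coeff (m + 1) + P.coeff m / P.coeff (m + 1) =
          -(((m : K) + 1) * c) := by
        rw [← add_div, div_eq_iff ha]
        linear_combination h4
      linear_combination -h7

theorem im_of_im_Fx [CharZero K] (hF : Stb s F) (hc : c ∈ F) (hw : s w + w = c)
    (hn : ¬ Im s F c) (hh : h ∈ F) (him : Im s (Fx F w) h) :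
    ∃ κ ∈ Cst s, κ ∈ F ∧ Im s F (h - κ * c) := by
  obtain ⟨g, ⟨P, hP, Q, hQ, h1, h2⟩, hg⟩ := him
  have hQ0 : Q ≠ 0 := fun h0 => h1 (by rw [h0, eval_zero])
  obtain ⟨R, hR, hgR⟩ := LemB_den hF hc hw hn hh hg Q.natDegree Q hQ P hP hQ0 le_rfl h2
  refine LemB_poly hF hc hw hn hh hR ?_
  rw [← hgR]
  exact hg

end Pool.Agent.H47.GD
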