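import Pool.Agent.H47.GD.TowB

/-!
# Module LinI (80 lines): the `x i` and `1` are linearly independent over the constants

`lin_indep`: `∑_{i<n} c i * x i ∈ LL 0` with constant `c i` implies `c i = 0` for `i < n`. Induction on
`n`: if `c n ≠ 0` then `x n = (c n)⁻¹ (element of LL 0 - ∑_{i<n} c i x i) ∈ LL n`, contradiction to
`Tow.x_nmem` (`Tow.x_mem`, `cst_le_LL`, `LL_mono`).
`x_ne_lin`: apply it with
`c i = [i = q] - c1 [i = a1] - c2 [i = a2] - c3 [i = a3]` (indicator functions, `Finset.sum_ite_eq`);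
`c q = 1` as `q ≠ a1, a2, a3`.
-/

set_option autoImplicit false

namespace Pool.Agent.H47.GD

variable {K : Type} [Field K] [CharZero K] {s : K ≃+* K} {ξ : K} {S : Sch} {x y w : ℕ → K}

theorem lin_indep (T : Tow s ξ S x y w) {t : ℕ} (hNI : NI s ξ S x y w t) (ht : t ≤ S.N)
    {n : ℕ} (hn : n ≤ t) (c : ℕ → K) (hc : ∀ i, i < n → c i ∈ Cst s)
    (h : ∑ i ∈ Finset.range n, c i * x i ∈ LL s ξ w 0) : ∀ i, i < n → c i = 0 := by
  induction n with
  | zero =>
    intro i hi
    exact absurd hi (Nat.not_lt_zero i)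
  | succ n ih =>
    have h0 : c n = 0 := by
      by_contra hne
      refine T.x_nmem hNI (i := n) (by omega) (by omega) ?_
      have h1 : ∑ i ∈ Finset.range n, c i * x i ∈ LL s ξ w n := by
        refine (LL s ξ w n).sum_mem fun i hi => ?_
        have hi' : i < n := Finset.mem_range.1 hi
        exact (LL s ξ w n).mul_mem (cst_le_LL n (hc i (by omega))) (T.x_mem (by omega) hi')
      have h2 : ∑ i ∈ Finset.range (n + 1), c i * x i ∈ LL s ξ w n :=
        LL_mono (Nat.zero_le n) h
      rw [Finset.sum_range_succ] at h2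
      have h3 : c n * x n ∈ LL s ξ w n := by
        have h4 := (LL s ξ w n).sub_mem h2 h1
        rwa [add_sub_cancel_left] at h4
      have h5 : x n = (c n)⁻¹ * (c n * x n) := by
        rw [inv_mul_cancel_left₀ hne]
      rw [h5]
      exact (LL s ξ w n).mul_mem ((LL s ξ w n).inv_mem (cst_le_LL n (hc n (by omega)))) h3
    have h1 : ∀ i, i < n → c i = 0 := by
      refine ih (by omega) (fun i hi => hc i (by omega)) ?_
      rw [Finset.sum_range_succ, h0, zero_mul, add_zero] at h
      exact h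
    intro i hi
    rcases Nat.lt_succ_iff_lt_or_eq.1 hi with h2 | h2
    · exact h1 i h2
    · rw [h2]
      exact h0

theorem x_ne_lin (T : Tow s ξ S x y w) {t : ℕ} (hNI : NI s ξ S x y w t) (ht : t ≤ S.N)
    {q a1 a2 a3 : ℕ} (hq : q < t) (h1 : a1 < t) (h2 : a2 < t) (h3 : a3 < t)
    (n1 : q ≠ a1) (n2 : q ≠ a2) (n3 : q ≠ a3) {c1 c2 c3 c4 : K} (m1 : c1 ∈ Cst s)
    (m2 : c2 ∈ Cst s) (m3 : c3 ∈ Cst s) (m4 : c4 ∈ Cst s) :
    x q ≠ c1 * x a1 + c2 * x a2 + c3 * x a3 + c4 := by
  intro h
  have hind : ∀ (a : ℕ) (z : K), z ∈ Cst s → ∀ i, (if i = a then z else 0) ∈ Cst s := by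
    intro a z hz i
    split_ifs
    · exact hz
    · exact (Cst s).zero_mem
  have hsum : ∀ (a : ℕ) (z : K), a < t →
      ∑ i ∈ Finset.range t, (if i = a then z else 0) * x i = z * x a := by
    intro a z ha
    rw [Finset.sum_eq_single a]
    · rw [if_pos rfl]
    · intro b _ hb
      rw [if_neg hb, zero_mul]
    · intro hna
      exact absurd (Finset.mem_range.2 ha) hna
  have key := lin_indep T hNI ht (le_refl t)
    (fun i => (if i = q then (1 : K) else 0) - (if i = a1 then c1 else 0) -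
      (if i = a2 then c2 else 0) - (if i = a3 then c3 else 0))
    (fun i _ => (Cst s).sub_mem ((Cst s).sub_mem ((Cst s).sub_mem
      (hind q 1 (Cst s).one_mem i) (hind a1 c1 m1 i)) (hind a2 c2 m2 i)) (hind a3 c3 m3 i))
    (by
      have e : ∑ i ∈ Finset.range t, ((if i = q then (1 : K) else 0) - (if i = a1 then c1 else 0) -
          (if i = a2 then c2 else 0) - (if i = a3 then c3 else 0)) * x i = c4 := by
        simp only [sub_mul, Finset.sum_sub_distrib]
        rw [hsum q 1 hq, hsum a1 c1 h1, hsum a2 c2 h2, hsum a3 c3 h3, h]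
        ring
      rw [e]
      exact cst_le_LL 0 m4) q hq
  simp only [if_true, if_neg n1, if_neg n2, if_neg n3, sub_zero] at key
  exact one_ne_zero key

end Pool.Agent.H47.GD
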