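import Pool.Agent.H47.GD.FinF

/-!
# Module Ult (160 lines): the ultraproduct

PROOF. `I = {p : ℕ // p.Prime ∧ p ≠ 2}` (infinite), `K i`, `s i`, `ξ i` from `fin_field i.1`
(`Classical.choose`, make a structure of the data first). `R = ∀ i, K i` (commutative ring),
`U = Filter.hyperfilter I`, `m` the ideal of the `f` with `∀ᶠ i in U, f i = 0`. `m` is maximal: for
`f ∉ m` let `g i = (f i)⁻¹`; `∀ᶠ i in U, f i ≠ 0` (ultrafilter), so `f g - 1 ∈ m`. `K = R ⧸ m` with
`Ideal.Quotient.field m`. `s` on `R` is `fun f i => s i (f i)` (a ring automorphism, `RingEquiv.piCongrRight`);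
it maps `m` onto `m` (`s i` injective), so it induces `s : K ≃+* K` (`Ideal.quotientEquiv`).
`ξ = mk (fun i => ξ i)`. `s g + g = c`: choose componentwise. `CharZero`: `(n : K) = 0`, `n > 0`, means
`∀ᶠ i in U, (n : K i) = 0`; but `(n : K i) ≠ 0` for `i.1 > n`, all but finitely many `i`
(`Filter.hyperfilter` contains the cofinite sets), contradiction.
Transfer: lift `x a`, `y a` to representatives `x' a`, `y' a : ∀ i, K i` (`Ideal.Quotient.mk_surjective`). For
`a, b < N`, `a ≠ b`: the equation holds in `K` iff `∀ᶠ i in U` it holds for the `i`-th components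
(`Ideal.Quotient.eq`; negation of eventually = eventually of the negation for an ultrafilter), and
`x a ≠ x b` iff `∀ᶠ i in U, x' a i ≠ x' b i`. Finitely many pairs: there is one `i` for which everything
holds (`Filter.eventually_all_finite` or `Finset.eventually_all`, then `.exists`). Take `K' = K i`.
-/

set_option autoImplicit false

namespace Pool.Agent.H47.GD

private abbrev UltI : Type := {p : ℕ // p.Prime ∧ p ≠ 2}

private theorem Ult_inf : Infinite UltI := by
  have h : {p : ℕ | p.Prime ∧ p ≠ 2}.Infinite := by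
    have := Nat.infinite_setOf_prime.diff (Set.finite_singleton 2)
    refine this.mono ?_
    rintro p ⟨hp, hp2⟩
    exact ⟨hp, hp2⟩
  exact h.to_subtype

/-- the data of `fin_field` -/
private structure UltD (p : ℕ) where
  K : Type
  fld : Field K
  fin : Finite K
  s : K ≃+* K
  ξ : K
  hξ : s ξ = ξ + 1
  surj : ∀ c : K, ∃ g, s g + g = c
  inj : ∀ g : K, s g + g = 0 → g = 0
  ne : ∀ n : ℕ, 0 < n → n < p → (n : K) ≠ 0

private theorem Ult_data (i : UltI) : Nonempty (UltD i.1) := by
  obtain ⟨K, h1, h2, s, ξ, h3, h4, h5, h6⟩ := fin_field i.1 i.2.1 i.2.2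
  exact ⟨⟨K, h1, h2, s, ξ, h3, h4, h5, h6⟩⟩

private theorem Ult_main (D : ∀ i : UltI, UltD i.1) (U : Ultrafilter UltI)
    (hU : ∀ n : ℕ, ∀ᶠ i : UltI in (U : Filter UltI), n < i.1) :
    ∃ (K : Type) (_ : Field K) (_ : CharZero K) (s : K ≃+* K) (ξ : K), s ξ = ξ + 1 ∧
    (∀ c : K, ∃ g, s g + g = c) ∧
    ∀ (N : ℕ) (x y : ℕ → K) (R : ℕ → ℕ → Prop),
      (∀ a b, a < N → b < N → a ≠ b →
        (x a * s (x b) + s (x a) * x b = y a + y b ↔ R a b) ∧ x a ≠ x b) →
      ∃ (K' : Type) (_ : Field K') (_ : Finite K') (s' : K' ≃+* K') (x' y' : ℕ → K'),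
        (∀ c : K', ∃ g, s' g + g = c) ∧ (∀ g : K', s' g + g = 0 → g = 0) ∧
        ∀ a b, a < N → b < N → a ≠ b →
          (x' a * s' (x' b) + s' (x' a) * x' b = y' a + y' b ↔ R a b) ∧ x' a ≠ x' b := by
  letI hF : ∀ i, Field (D i).K := fun i => (D i).fld
  let Rg : Type := ∀ i, (D i).K
  letI : CommRing Rg := inferInstanceAs (CommRing (∀ i, (D i).K))
  let m : Ideal Rg :=
    { carrier := {f | ∀ᶠ i in (U : Filter UltI), f i = 0}
      add_mem' := by
        intro f g hf hg
        filter_upwards [hf, hg] with i h1 h2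
        show f i + g i = 0
        rw [h1, h2, add_zero]
      zero_mem' := Filter.Eventually.of_forall fun i => rfl
      smul_mem' := by
        intro c f hf
        filter_upwards [hf] with i h1
        show c i * f i = 0
        rw [h1, mul_zero] }
  have hm : ∀ f : Rg, f ∈ m ↔ ∀ᶠ i in (U : Filter UltI), f i = 0 := fun f => Iff.rfl
  have hmax : m.IsMaximal := by
    rw [Ideal.isMaximal_iff]
    constructor
    · intro h1
      rw [hm] at h1
      obtain ⟨i, hi⟩ := h1.exists
      exact one_ne_zero (α := (D i).K) hi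
    · intro J f hJ hf hfJ
      have h1 : ∀ᶠ i in (U : Filter UltI), f i ≠ 0 := by
        rw [hm] at hf
        exact Ultrafilter.eventually_not.2 hf
      let g : Rg := fun i => (f i)⁻¹
      have h2 : f * g - 1 ∈ m := by
        rw [hm]
        filter_upwards [h1] with i hi
        show f i * (f i)⁻¹ - 1 = 0
        rw [mul_inv_cancel₀ hi, sub_self]
      have h3 : f * g ∈ J := J.mul_mem_right g hfJ
      have h4 : (1 : Rg) = f * g - (f * g - 1) := by ring
      rw [h4]
      exact J.sub_mem h3 (hJ h2)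
  letI : Field (Rg ⧸ m) := Ideal.Quotient.field m
  let σ : Rg ≃+* Rg := RingEquiv.piCongrRight (fun i => (D i).s)
  have hσ : ∀ (f : Rg) (i : UltI), σ f i = (D i).s (f i) := fun f i => rfl
  have hmσ : m = m.map (σ : Rg →+* Rg) := by
    ext f
    constructor
    · intro hf
      have h1 : σ (σ.symm f) = f := σ.apply_symm_apply f
      rw [← h1]
      refine Ideal.mem_map_of_mem (σ : Rg →+* Rg) ?_
      rw [hm]
      rw [hm] at hf
      filter_upwards [hf] with i hi
      have h2 : (D i).s ((σ.symm f) i) = 0 := by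
        rw [← hσ, h1]
        exact hi
      exact (map_eq_zero_iff (D i).s (D i).s.injective).1 h2
    · intro hf
      have h1 : m.map (σ : Rg →+* Rg) ≤ m := by
        rw [Ideal.map_le_iff_le_comap]
        intro g hg
        rw [Ideal.mem_comap]
        show σ g ∈ m
        rw [hm]
        rw [hm] at hg
        filter_upwards [hg] with i hi
        rw [hσ, hi, map_zero]
      exact h1 hf
  let s : (Rg ⧸ m) ≃+* (Rg ⧸ m) := Ideal.quotientEquiv m m σ hmσ
  have hs : ∀ f : Rg, s (Ideal.Quotient.mk m f) = Ideal.Quotient.mk m (σ f) := fun f => rfl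
  have hmk : ∀ f g : Rg, Ideal.Quotient.mk m f = Ideal.Quotient.mk m g ↔
      ∀ᶠ i in (U : Filter UltI), f i = g i := by
    intro f g
    rw [Ideal.Quotient.eq, hm]
    constructor
    · intro h
      filter_upwards [h] with i hi
      exact sub_eq_zero.1 hi
    · intro h
      filter_upwards [h] with i hi
      exact sub_eq_zero.2 hi
  have hchar : CharZero (Rg ⧸ m) := by
    refine charZero_of_inj_zero fun n hn => ?_
    by_contra hn0
    have h1 : Ideal.Quotient.mk m (n : Rg) = Ideal.Quotient.mk m 0 := by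
      rw [map_natCast, map_zero]
      exact hn
    rw [hmk] at h1
    obtain ⟨i, hi1, hi2⟩ := (h1.and (hU n)).exists
    refine (D i).ne n (Nat.pos_of_ne_zero hn0) hi2 ?_
    exact hi1
  refine ⟨Rg ⧸ m, inferInstance, hchar, s, Ideal.Quotient.mk m (fun i => (D i).ξ), ?_, ?_, ?_⟩
  · rw [hs, ← map_one (Ideal.Quotient.mk m), ← map_add, hmk]
    exact Filter.Eventually.of_forall fun i => (D i).hξ
  · intro c
    obtain ⟨c', rfl⟩ := Ideal.Quotient.mk_surjective c
    choose g hg using fun i => (D i).surj (c' i)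
    refine ⟨Ideal.Quotient.mk m g, ?_⟩
    rw [hs, ← map_add, hmk]
    exact Filter.Eventually.of_forall hg
  · intro N x y R h
    choose x' hx' using fun a => Ideal.Quotient.mk_surjective (x a)
    choose y' hy' using fun a => Ideal.Quotient.mk_surjective (y a)
    have key : ∀ a b, a < N → b < N → a ≠ b → ∀ᶠ i in (U : Filter UltI),
        (x' a i * (D i).s (x' b i) + (D i).s (x' a i) * x' b i = y' a i + y' b i ↔ R a b) ∧
          x' a i ≠ x' b i := by
      intro a b ha hb hab
      obtain ⟨h1, h2⟩ := h a b ha hb hab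
      rw [← hx' a, ← hx' b] at h2
      have h3 : ∀ᶠ i in (U : Filter UltI), x' a i ≠ x' b i := by
        rw [ne_eq, hmk] at h2
        exact Ultrafilter.eventually_not.2 h2
      rw [← hx' a, ← hx' b, ← hy' a, ← hy' b, hs, hs, ← map_mul, ← map_mul, ← map_add, ← map_add,
        hmk] at h1
      by_cases hR : R a b
      · filter_upwards [h1.2 hR, h3] with i hi1 hi2
        exact ⟨⟨fun _ => hR, fun _ => hi1⟩, hi2⟩
      · have h4 := Ultrafilter.eventually_not.2 fun hh => hR (h1.1 hh)
        filter_upwards [h4, h3] with i hi1 hi2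
        exact ⟨⟨fun hh => absurd hh hi1, fun hh => absurd hh hR⟩, hi2⟩
    have hall : ∀ᶠ i in (U : Filter UltI), ∀ a ∈ Finset.range N, ∀ b ∈ Finset.range N, a ≠ b →
        (x' a i * (D i).s (x' b i) + (D i).s (x' a i) * x' b i = y' a i + y' b i ↔ R a b) ∧
          x' a i ≠ x' b i := by
      rw [Filter.eventually_all_finset]
      intro a ha
      rw [Filter.eventually_all_finset]
      intro b hb
      rw [Finset.mem_range] at ha hb
      by_cases hab : a = b
      · exact Filter.Eventually.of_forall fun i hne => absurd hab hne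
      · filter_upwards [key a b ha hb hab] with i hi _
        exact hi
    obtain ⟨i, hi⟩ := hall.exists
    refine ⟨(D i).K, (D i).fld, (D i).fin, (D i).s, fun a => x' a i, fun a => y' a i, (D i).surj,
      (D i).inj, ?_⟩
    intro a b ha hb hab
    exact hi a (Finset.mem_range.2 ha) b (Finset.mem_range.2 hb) hab

theorem ultra : ∃ (K : Type) (_ : Field K) (_ : CharZero K) (s : K ≃+* K) (ξ : K), s ξ = ξ + 1 ∧
    (∀ c : K, ∃ g, s g + g = c) ∧
    ∀ (N : ℕ) (x y : ℕ → K) (R : ℕ → ℕ → Prop),
      (∀ a b, a < N → b < N → a ≠ b →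
        (x a * s (x b) + s (x a) * x b = y a + y b ↔ R a b) ∧ x a ≠ x b) →
      ∃ (K' : Type) (_ : Field K') (_ : Finite K') (s' : K' ≃+* K') (x' y' : ℕ → K'),
        (∀ c : K', ∃ g, s' g + g = c) ∧ (∀ g : K', s' g + g = 0 → g = 0) ∧
        ∀ a b, a < N → b < N → a ≠ b →
          (x' a * s' (x' b) + s' (x' a) * x' b = y' a + y' b ↔ R a b) ∧ x' a ≠ x' b := by
  have hinf := Ult_inf
  refine Ult_main (fun i => (Ult_data i).some) (Filter.hyperfilter UltI) ?_
  intro n
  have h1 : ∀ᶠ i : UltI in Filter.cofinite, n < i.1 := by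
    rw [Filter.eventually_cofinite]
    have h2 : {i : UltI | ¬ n < i.1} = (fun i : UltI => i.1) ⁻¹' (Set.Iic n) := by
      ext i
      simp
    rw [h2]
    exact (Set.finite_Iic n).preimage Subtype.val_injective.injOn
  exact Filter.hyperfilter_le_cofinite h1

end Pool.Agent.H47.GD
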