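import Pool.Agent.H47.GD.Fin
import Pool.Agent.H47.GD.Ult
import Pool.Agent.H47.GD.Geo
import Pool.Agent.H47.GD.Comb

/-!
# 2-degenerate graphs without induced 4-cycles and diamonds are induced subgraphs of geodetic graphs
-/

set_option autoImplicit false

namespace Pool.Agent.H47.GD

open Pool.Agent.H53.GG

theorem main2 {V : Type} [Finite V] (H : SimpleGraph V) (hH : C4DFree H)
    (h : ∀ F : Finset V, F.Nonempty → ∃ v ∈ F, dg H F v ≤ 2) :
    ∃ (W : Type) (_ : Finite W) (G : SimpleGraph W),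
      Geodetic G ∧ (∀ u v, G.dist u v ≤ 2) ∧ Nonempty (H ↪g G) := by
  obtain ⟨S, f, hMN, hNC, hf, hfN, hadj⟩ := exists_scheme H hH h
  obtain ⟨K, hK, hC, s, ξ, hxi, hs, htr⟩ := ultra
  obtain ⟨x, y, hxy⟩ := exists_pattern hs hxi S hMN hNC
  obtain ⟨K', hK', hfin, s', x', y', h1, h2, h3⟩ := htr S.N x y S.Adj hxy
  refine geo_embed s' h1 h2 H (fun v => x' (f v)) (fun v => y' (f v)) fun a b hab => ?_
  obtain ⟨h4, h5⟩ := h3 (f a) (f b) (hfN a) (hfN b) (hf.ne hab)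
  exact ⟨h4.trans (hadj a b hab), h5⟩

end Pool.Agent.H47.GD
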