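import Pool.Agent.H47.GD.Orb3a

/-!
# Module Orb3b (110 lines): orbits, one of the two vertices is the parent `q`

`t ≥ M` has the parents `p < q`. `F = LL q`, `v = w q`, `c = ss q`, `e0 = dd q ≠ 0`: `x q = e0 v`,
`s (x q) = s e0 (c - v)`, `dd t = x p - e0 v`; `x p ∈ F`; `v` satisfies `s v + v = c`,
`¬ Im s F c` (from `NI`).
`y_form`: `y q = Y0 + Y1 v` with `Y0, Y1 ∈ F` (`q < M`: `Y1 = 0`, `Y0 = (fb q)^2`; `q ≥ M` with parents
`r`, `u`: `Y1 = e0 s(x r) - s e0 x r`, `Y0 = s e0 c x r - y r`).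
For `a < q`: `ee t a = A0 + A1 v` with `A0 = x a (s (x p) - s e0 c) + s (x a) x p - y p + Y0`,
`A1 = x a s e0 - s (x a) e0 + Y1` in `F`. For `a = q`:
`ee t q = x q s(x p) + s(x q) x p - 2 x q s(x q) - y p + y q = B0 + B1 v + 2 e0 s(e0) v^2`.
If `b = q` use `ee_rel` and `orb_deg1` (with `a < q`), if `a = q` use `orb_deg2` (with `b < q`).
-/

set_option autoImplicit false

namespace Pool.Agent.H47.GD

variable {K : Type} [Field K] [CharZero K] {s : K ≃+* K} {ξ : K} {S : Sch} {x y w : ℕ → K}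

private theorem orb3b_y (T : Tow s ξ S x y w) {q : ℕ} (hqN : q < S.N) :
    ∃ Y0 ∈ LL s ξ w q, ∃ Y1 ∈ LL s ξ w q, y q = Y0 + Y1 * w q := by
  by_cases hqM : q < S.M
  · exact ⟨fb ξ q ^ 2, pow_mem (fb_mem_LL _ _) 2, 0, zero_mem _, by rw [T.hy0 _ hqM]; ring⟩
  · have hqM' : S.M ≤ q := not_lt.mp hqM
    have hru : S.p q < S.q q := S.hpq _ hqM' hqN
    have huq : S.q q < q := S.hqj _ hqM' hqN
    have hF : Stb s (LL s ξ w q) := T.stb hqN.le
    have hxr : x (S.p q) ∈ LL s ξ w q := T.x_mem hqN.le (hru.trans huq)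
    have hyr : y (S.p q) ∈ LL s ξ w q := T.y_mem hqN.le (hru.trans huq)
    have he := T.dd_mem hqN
    have hc := T.ss_mem hqN
    have hxq : x q = dd S x q * w q := T.hx _ hqN
    have hv : s (w q) + w q = ss s ξ S x y q := T.hw _ hqN
    have hsv : s (w q) = ss s ξ S x y q - w q := by rw [← hv]; ring
    refine ⟨s (dd S x q) * ss s ξ S x y q * x (S.p q) - y (S.p q),
      sub_mem (mul_mem (mul_mem ((hF _).mpr he) hc) hxr) hyr,
      dd S x q * s (x (S.p q)) - s (dd S x q) * x (S.p q),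
      sub_mem (mul_mem he ((hF _).mpr hxr)) (mul_mem ((hF _).mpr he) hxr), ?_⟩
    rw [T.hy1 _ hqM' hqN, hxq, map_mul, hsv]
    ring

theorem orb_q (T : Tow s ξ S x y w) {t : ℕ} (hNI : NI s ξ S x y w (t + 1)) (htN : t < S.N)
    (htM : S.M ≤ t) {a b : ℕ} (ha : a ≤ S.q t) (hb : b ≤ S.q t) (hab : a ≠ b)
    (h : a = S.q t ∨ b = S.q t) (n : ℕ) :
    (ta s (ss s ξ S x y t))^[n] (x a / dd S x t) ≠ x b / dd S x t := by
  intro h0
  have hpq : S.p t < S.q t := S.hpq t htM htN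
  have hqt : S.q t < t := S.hqj t htM htN
  have hqN : S.q t < S.N := lt_trans hqt htN
  have hF : Stb s (LL s ξ w (S.q t)) := T.stb hqN.le
  have hc := T.ss_mem hqN
  have hv : s (w (S.q t)) + w (S.q t) = ss s ξ S x y (S.q t) := T.hw _ hqN
  have hni : ¬ Im s (LL s ξ w (S.q t)) (ss s ξ S x y (S.q t)) := hNI _ (by omega) hqN
  have he := T.dd_mem hqN
  have he0 : dd S x (S.q t) ≠ 0 := T.dd_ne hNI (by omega) hqN
  have hse0 : s (dd S x (S.q t)) ≠ 0 := (map_ne_zero s).mpr he0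
  have hxp : x (S.p t) ∈ LL s ξ w (S.q t) := T.x_mem hqN.le hpq
  have hyp : y (S.p t) ∈ LL s ξ w (S.q t) := T.y_mem hqN.le hpq
  have hxq : x (S.q t) = dd S x (S.q t) * w (S.q t) := T.hx _ hqN
  have hsv : s (w (S.q t)) = ss s ξ S x y (S.q t) - w (S.q t) := by rw [← hv]; ring
  obtain ⟨Y0, hY0, Y1, hY1, hY⟩ := orb3b_y T hqN
  have hdt : dd S x t = x (S.p t) - dd S x (S.q t) * w (S.q t) := by
    rw [← hxq]
    show (if t < S.M then (1 : K) else x (S.p t) - x (S.q t)) = _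
    rw [if_neg (not_lt.mpr htM)]
  have hFs : ∀ {k : K}, k ∈ LL s ξ w (S.q t) → s k ∈ LL s ξ w (S.q t) := fun {k} hk => (hF k).mpr hk
  have hee : ∀ k, ee s S x y t k =
      (x k * (s (x (S.p t)) - s (dd S x (S.q t)) * ss s ξ S x y (S.q t)) + s (x k) * x (S.p t) -
        y (S.p t) + Y0) +
      (x k * s (dd S x (S.q t)) - s (x k) * dd S x (S.q t) + Y1) * w (S.q t) := by
    intro k
    show x k * s (dd S x t) + s (x k) * dd S x t - (y (S.p t) - y (S.q t)) = _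
    rw [hdt, hY, map_sub, map_mul, hsv]
    ring
  have hA0 : ∀ {k : K}, k ∈ LL s ξ w (S.q t) →
      (k * (s (x (S.p t)) - s (dd S x (S.q t)) * ss s ξ S x y (S.q t)) + s k * x (S.p t) -
        y (S.p t) + Y0) ∈ LL s ξ w (S.q t) := by
    intro k hk
    exact add_mem (sub_mem (add_mem (mul_mem hk (sub_mem (hFs hxp) (mul_mem (hFs he) hc)))
      (mul_mem (hFs hk) hxp)) hyp) hY0
  have hA1 : ∀ {k : K}, k ∈ LL s ξ w (S.q t) →
      (k * s (dd S x (S.q t)) - s k * dd S x (S.q t) + Y1) ∈ LL s ξ w (S.q t) := by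
    intro k hk
    exact add_mem (sub_mem (mul_mem hk (hFs he)) (mul_mem (hFs hk) he)) hY1
  -- the defect of the parent
  have hq2 : ∃ B0 ∈ LL s ξ w (S.q t), ∃ B1 ∈ LL s ξ w (S.q t), ee s S x y t (S.q t) =
      B0 + B1 * w (S.q t) +
        (2 * (dd S x (S.q t) * s (dd S x (S.q t)))) * w (S.q t) ^ 2 := by
    refine ⟨s (dd S x (S.q t)) * ss s ξ S x y (S.q t) * x (S.p t) - y (S.p t) + Y0, ?_,
      dd S x (S.q t) * s (x (S.p t)) - 2 * (dd S x (S.q t) * s (dd S x (S.q t)) *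
        ss s ξ S x y (S.q t)) - s (dd S x (S.q t)) * x (S.p t) + Y1, ?_, ?_⟩
    · exact add_mem (sub_mem (mul_mem (mul_mem (hFs he) hc) hxp) hyp) hY0
    · refine add_mem (sub_mem (sub_mem (mul_mem he (hFs hxp)) ?_) (mul_mem (hFs he) hxp)) hY1
      have h2 : (2 : K) ∈ LL s ξ w (S.q t) := by
        have := add_mem (one_mem (LL s ξ w (S.q t))) (one_mem (LL s ξ w (S.q t)))
        rwa [one_add_one_eq_two] at this
      exact mul_mem h2 (mul_mem (mul_mem he (hFs he)) hc)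
    · show x (S.q t) * s (dd S x t) + s (x (S.q t)) * dd S x t - (y (S.p t) - y (S.q t)) = _
      rw [hdt, hY, hxq, map_sub, map_mul, hsv]
      ring
  have h2 : (2 : K) ∈ LL s ξ w (S.q t) := by
    have := add_mem (one_mem (LL s ξ w (S.q t))) (one_mem (LL s ξ w (S.q t)))
    rwa [one_add_one_eq_two] at this
  have hlead : 2 * (dd S x (S.q t) * s (dd S x (S.q t))) ∈ LL s ξ w (S.q t) :=
    mul_mem h2 (mul_mem he (hFs he))
  have hlead0 : 2 * (dd S x (S.q t) * s (dd S x (S.q t))) ≠ 0 :=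
    mul_ne_zero two_ne_zero (mul_ne_zero he0 hse0)
  obtain ⟨B0, hB0, B1, hB1, hBq⟩ := hq2
  have hrel := ee_rel T hNI htN htM (a := a) (b := b) (n := n) (by omega) (by omega) h0
  rcases h with rfl | rfl
  · have hbq : b < S.q t := lt_of_le_of_ne hb (Ne.symm hab)
    have hxb : x b ∈ LL s ξ w (S.q t) := T.x_mem hqN.le hbq
    rw [hBq, hee b, hdt] at hrel
    exact orb_deg2 hF hc hv hni he he0 hxp hB0 hB1 hlead (hA0 hxb) (hA1 hxb) hlead0 n hrel
  · have haq : a < S.q t := lt_of_le_of_ne ha hab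
    have hxa : x a ∈ LL s ξ w (S.q t) := T.x_mem hqN.le haq
    rw [hBq, hee a, hdt] at hrel
    exact orb_deg1 hF hc hv hni he he0 hxp (hA0 hxa) (hA1 hxa) hB0 hB1 hlead hlead0 n hrel

end Pool.Agent.H47.GD
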