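import Pool.Agent.H47.GD.Orb3a

/-!
# Module Orb3c (180 lines): orbits, both vertices are smaller than the parent `q`

`t ≥ M` has the parents `p < q`, `a, b < q`, `a ≠ b`, `n ≥ 1`, `τ^n (x a/d) = x b/d`, `d = dd t`.
`F = LL q`, `v = w q`, `c = ss q`, `e0 = dd q`, `θ = x p / e0`; `x q = e0 v`, `s (x q) = s e0 (c - v)`,
`d = x p - e0 v`. `ee t a = A0 + A1 v`, `A0 = x a (s (x p) - s e0 c) + s (x a) x p - y p + Y0`,
`A1 = x a s e0 - s (x a) e0 + Y1`, where `y q = Y0 + Y1 v` (`q < M`: `Y1 = 0`, `Y0 = (fb q)^2`; `q ≥ M` with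
the parents `r < u`: `Y1 = e0 s(x r) - s e0 x r`, `Y0 = s e0 c x r - y r`). By `ee_rel`, `ee_ne` and
`orb_rel`: `n = 1` and (1) `ee t b` vanishes at `v = θ`, (2) `ee t a` vanishes at `v = τ_q θ = c - s θ`.
Values: at `v = θ`: `x q -> x p`, `s (x q) -> Q = s e0 (c - θ)`; with `E = s (x p) - Q`:
(1) reads `x b E - y p + (Y0 + Y1 θ) = 0`. At `v = τ_q θ`: `x q -> X = e0 (c - s θ)`,
`s (x q) -> s (x p)`; with `E' = x p - X`: (2) reads `s (x a) E' - y p + (Y0 + Y1 (c - s θ)) = 0`.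
CASE `q < M`: then `p < M`, `e0 = 1`, `c = fb q`, `θ = x p = w p`, `s (x p) + x p = fb p`, `y p = (fb p)^2`,
`E = fb p - fb q`, so (1) is `(fb p - fb q) (x b - fb p - fb q) = 0`; `fb p ≠ fb q` (`fb_ne`), so
`x b = fb p + fb q ∈ LL b`, contradiction to `Tow.x_nmem`.
CASE `q ≥ M`, parents `r < u`: `e0 = x r - x u`, `c = (y r - y u)/(e0 s e0)`. `Y0 + Y1 θ = x p s(x r) + Q x r - y r`,
and also `= x p s(x u) + Q x u - y u` because `x p s(e0) + Q e0 = s e0 e0 c = y r - y u`. So (1) gives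
`E (x b - x r) = -dl p r`, `E (x b - x u) = -dl p u`. In the same way (2) gives
`E' s(x a - x r) = -dl p r`, `E' s(x a - x u) = -dl p u` (`X s(e0) + s(x p) e0 = e0 s(e0) c`).
`dl p r, dl p u ≠ 0` by `dl_ne`: `p` is not adjacent to `r`, `u`, since otherwise `r` (or `u`) and `t` would
be two common neighbours of `p` and `q` (`S.NC`; `r, u < q < t`; if `p = r` then `S.Adj p r` is false by
`Sch.adj_irrefl`). Multiply crosswise and cancel `E, E' ≠ 0`. Moreover `a, b ≠ r, u` as all four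
left sides are not zero.
-/

set_option autoImplicit false

namespace Pool.Agent.H47.GD

variable {K : Type} [Field K] [CharZero K] {s : K ≃+* K} {ξ : K} {S : Sch} {x y w : ℕ → K}

private theorem orb_lt_aux (T : Tow s ξ S x y w) {t : ℕ} (hNI : NI s ξ S x y w (t + 1))
    (htN : t < S.N) (htM : S.M ≤ t) {a b : ℕ} (ha : a < S.q t) (hb : b < S.q t)
    {n : ℕ} (hn : 0 < n)
    (h : (ta s (ss s ξ S x y t))^[n] (x a / dd S x t) = x b / dd S x t)
    {Y0 Y1 : K} (hY0 : Y0 ∈ LL s ξ w (S.q t)) (hY1 : Y1 ∈ LL s ξ w (S.q t))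
    (hY : y (S.q t) = Y0 + Y1 * w (S.q t)) :
    (x b * (s (x (S.p t)) - s (dd S x (S.q t)) * ss s ξ S x y (S.q t)) + s (x b) * x (S.p t) -
        y (S.p t) + Y0) +
      (x b * s (dd S x (S.q t)) - s (x b) * dd S x (S.q t) + Y1) *
        (x (S.p t) / dd S x (S.q t)) = 0 ∧
    (x a * (s (x (S.p t)) - s (dd S x (S.q t)) * ss s ξ S x y (S.q t)) + s (x a) * x (S.p t) -
        y (S.p t) + Y0) +
      (x a * s (dd S x (S.q t)) - s (x a) * dd S x (S.q t) + Y1) *
        ta s (ss s ξ S x y (S.q t)) (x (S.p t) / dd S x (S.q t)) = 0 := by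
  have hpq : S.p t < S.q t := S.hpq t htM htN
  have hqt : S.q t < t := S.hqj t htM htN
  have hqN : S.q t < S.N := lt_trans hqt htN
  have hF : Stb s (LL s ξ w (S.q t)) := T.stb hqN.le
  have hc := T.ss_mem hqN
  have hv : s (w (S.q t)) + w (S.q t) = ss s ξ S x y (S.q t) := T.hw _ hqN
  have hni : ¬ Im s (LL s ξ w (S.q t)) (ss s ξ S x y (S.q t)) := hNI _ (by omega) hqN
  have he := T.dd_mem hqN
  have he0 : dd S x (S.q t) ≠ 0 := T.dd_ne hNI (by omega) hqN
  have hxp : x (S.p t) ∈ LL s ξ w (S.q t) := T.x_mem hqN.le hpq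
  have hyp : y (S.p t) ∈ LL s ξ w (S.q t) := T.y_mem hqN.le hpq
  have hxa : x a ∈ LL s ξ w (S.q t) := T.x_mem hqN.le ha
  have hxb : x b ∈ LL s ξ w (S.q t) := T.x_mem hqN.le hb
  have hxq : x (S.q t) = dd S x (S.q t) * w (S.q t) := T.hx _ hqN
  have hsv : s (w (S.q t)) = ss s ξ S x y (S.q t) - w (S.q t) := by rw [← hv]; ring
  have hsxq : s (x (S.q t)) = s (dd S x (S.q t)) * (ss s ξ S x y (S.q t) - w (S.q t)) := by
    rw [hxq, map_mul, hsv]
  have hdt : dd S x t = x (S.p t) - dd S x (S.q t) * w (S.q t) := by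
    rw [← hxq]
    show (if t < S.M then (1 : K) else x (S.p t) - x (S.q t)) = _
    rw [if_neg (not_lt.mpr htM)]
  have hee : ∀ k, ee s S x y t k =
      (x k * (s (x (S.p t)) - s (dd S x (S.q t)) * ss s ξ S x y (S.q t)) + s (x k) * x (S.p t) -
        y (S.p t) + Y0) +
      (x k * s (dd S x (S.q t)) - s (x k) * dd S x (S.q t) + Y1) * w (S.q t) := by
    intro k
    show x k * s (dd S x t) + s (x k) * dd S x t - (y (S.p t) - y (S.q t)) = _
    rw [hdt, hY, map_sub, map_mul, hsv]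
    ring
  have hb0 : ee s S x y t b ≠ 0 := ee_ne T hNI htN htM (by omega)
  have hrel := ee_rel T hNI htN htM (a := a) (b := b) (n := n) (by omega) (by omega) h
  rw [hee] at hb0
  rw [hee, hee, hdt] at hrel
  have hFs : ∀ {k : K}, k ∈ LL s ξ w (S.q t) → s k ∈ LL s ξ w (S.q t) := fun {k} hk => (hF k).mpr hk
  have hA0 : ∀ {k : K}, k ∈ LL s ξ w (S.q t) →
      (k * (s (x (S.p t)) - s (dd S x (S.q t)) * ss s ξ S x y (S.q t)) + s k * x (S.p t) -
        y (S.p t) + Y0) ∈ LL s ξ w (S.q t) := by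
    intro k hk
    exact add_mem (sub_mem (add_mem (mul_mem hk (sub_mem (hFs hxp) (mul_mem (hFs he) hc)))
      (mul_mem (hFs hk) hxp)) hyp) hY0
  have hA1 : ∀ {k : K}, k ∈ LL s ξ w (S.q t) →
      (k * s (dd S x (S.q t)) - s k * dd S x (S.q t) + Y1) ∈ LL s ξ w (S.q t) := by
    intro k hk
    exact add_mem (sub_mem (mul_mem hk (hFs he)) (mul_mem (hFs hk) he)) hY1
  obtain ⟨-, h1, h2⟩ := orb_rel hF hc hv hni he he0 hxp (hA0 hxa) (hA1 hxa) (hA0 hxb) (hA1 hxb)
    hb0 hn hrel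
  exact ⟨h1, h2⟩

theorem orb_lt (T : Tow s ξ S x y w) (hNC : S.NC) {t : ℕ} (hNI : NI s ξ S x y w (t + 1))
    (htN : t < S.N) (htM : S.M ≤ t) {a b : ℕ} (ha : a < S.q t) (hb : b < S.q t) (hab : a ≠ b)
    {n : ℕ} (hn : 0 < n)
    (h : (ta s (ss s ξ S x y t))^[n] (x a / dd S x t) = x b / dd S x t) :
    S.M ≤ S.q t ∧ a ≠ S.p (S.q t) ∧ a ≠ S.q (S.q t) ∧ b ≠ S.p (S.q t) ∧ b ≠ S.q (S.q t) ∧
      (x b - x (S.p (S.q t))) * s (x a - x (S.q (S.q t))) =
        (x b - x (S.q (S.q t))) * s (x a - x (S.p (S.q t))) := by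
  have hpq : S.p t < S.q t := S.hpq t htM htN
  have hqt : S.q t < t := S.hqj t htM htN
  have hqN : S.q t < S.N := lt_trans hqt htN
  have he0 : dd S x (S.q t) ≠ 0 := T.dd_ne hNI (by omega) hqN
  have hxq : x (S.q t) = dd S x (S.q t) * w (S.q t) := T.hx _ hqN
  have hv : s (w (S.q t)) + w (S.q t) = ss s ξ S x y (S.q t) := T.hw _ hqN
  have hsv : s (w (S.q t)) = ss s ξ S x y (S.q t) - w (S.q t) := by rw [← hv]; ring
  by_cases hqM : S.q t < S.M
  · exfalso
    have hdq : dd S x (S.q t) = 1 := if_pos hqM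
    have hcq : ss s ξ S x y (S.q t) = fb ξ (S.q t) := if_pos hqM
    have hpM : S.p t < S.M := lt_trans hpq hqM
    have hpN : S.p t < S.N := lt_trans hpq hqN
    have hdp : dd S x (S.p t) = 1 := if_pos hpM
    have hcp : ss s ξ S x y (S.p t) = fb ξ (S.p t) := if_pos hpM
    obtain ⟨h1, -⟩ := orb_lt_aux T hNI htN htM ha hb hn h (Y0 := fb ξ (S.q t) ^ 2) (Y1 := 0)
      (pow_mem (fb_mem_LL _ _) 2) (zero_mem _) (by rw [T.hy0 _ hqM]; ring)
    rw [hdq, hcq, map_one, T.hy0 _ hpM] at h1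
    have hxp : x (S.p t) = w (S.p t) := by rw [T.hx _ hpN, hdp, one_mul]
    have hsp : s (x (S.p t)) + x (S.p t) = fb ξ (S.p t) := by rw [hxp, T.hw _ hpN, hcp]
    have hne : fb ξ (S.p t) ≠ fb ξ (S.q t) := fb_ne T.hxi hpq.ne
    have hprod : (fb ξ (S.p t) - fb ξ (S.q t)) * (x b - (fb ξ (S.p t) + fb ξ (S.q t))) = 0 := by
      rw [div_one] at h1
      have hsp' : s (x (S.p t)) = fb ξ (S.p t) - x (S.p t) := by rw [← hsp]; ring
      rw [hsp'] at h1
      linear_combination h1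
    rcases mul_eq_zero.mp hprod with h3 | h3
    · exact hne (sub_eq_zero.mp h3)
    · have hbN : b < S.N := lt_trans hb hqN
      refine T.x_nmem hNI (i := b) (by omega) hbN ?_
      rw [sub_eq_zero.mp h3]
      exact add_mem (fb_mem_LL _ _) (fb_mem_LL _ _)
  · have hqM' : S.M ≤ S.q t := not_lt.mp hqM
    refine ⟨hqM', ?_⟩
    have hru : S.p (S.q t) < S.q (S.q t) := S.hpq _ hqM' hqN
    have huq : S.q (S.q t) < S.q t := S.hqj _ hqM' hqN
    obtain ⟨r, hr⟩ : ∃ r, r = S.p (S.q t) := ⟨_, rfl⟩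
    obtain ⟨u, hu⟩ : ∃ u, u = S.q (S.q t) := ⟨_, rfl⟩
    have hdq : dd S x (S.q t) = x r - x u := by
      rw [hr, hu]
      exact if_neg hqM
    have hcq : ss s ξ S x y (S.q t) = (y r - y u) / ((x r - x u) * s (x r - x u)) := by
      rw [hr, hu]
      exact if_neg hqM
    have hyq : y (S.q t) = x (S.q t) * s (x r) + s (x (S.q t)) * x r - y r := by
      rw [hr]
      exact T.hy1 _ hqM' hqN
    rw [← hr, ← hu] at hru
    rw [← hu] at huq
    rw [← hr, ← hu]
    -- non-adjacency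
    have hprA : ¬ S.Adj (S.p t) r := by
      intro hA
      refine hNC (S.p t) (S.q t) r t hpq.ne (by omega) hA ?_ ?_ ?_
      · exact Or.inr ⟨hqM', hqN, Or.inl hr⟩
      · exact Or.inl ⟨htM, htN, Or.inl rfl⟩
      · exact Or.inl ⟨htM, htN, Or.inr rfl⟩
    have hpuA : ¬ S.Adj (S.p t) u := by
      intro hA
      refine hNC (S.p t) (S.q t) u t hpq.ne (by omega) hA ?_ ?_ ?_
      · exact Or.inr ⟨hqM', hqN, Or.inr hu⟩
      · exact Or.inl ⟨htM, htN, Or.inl rfl⟩
      · exact Or.inl ⟨htM, htN, Or.inr rfl⟩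
    have hDr : dl s x y (S.p t) r ≠ 0 := dl_ne T hNI (by omega) (by omega) (by omega) hprA
    have hDu : dl s x y (S.p t) u ≠ 0 := dl_ne T hNI (by omega) (by omega) (by omega) hpuA
    have hF : Stb s (LL s ξ w (S.q t)) := T.stb hqN.le
    have hFs : ∀ {k : K}, k ∈ LL s ξ w (S.q t) → s k ∈ LL s ξ w (S.q t) :=
      fun {k} hk => (hF k).mpr hk
    have hxr : x r ∈ LL s ξ w (S.q t) := T.x_mem hqN.le (by omega)
    have hyr : y r ∈ LL s ξ w (S.q t) := T.y_mem hqN.le (by omega)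
    have he := T.dd_mem hqN
    have hc := T.ss_mem hqN
    obtain ⟨h1, h2⟩ := orb_lt_aux T hNI htN htM ha hb hn h
      (Y0 := s (dd S x (S.q t)) * ss s ξ S x y (S.q t) * x r - y r)
      (Y1 := dd S x (S.q t) * s (x r) - s (dd S x (S.q t)) * x r)
      (sub_mem (mul_mem (mul_mem (hFs he) hc) hxr) hyr)
      (sub_mem (mul_mem he (hFs hxr)) (mul_mem (hFs he) hxr))
      (by rw [hyq, hxq, map_mul, hsv]; ring)
    -- abbreviations
    generalize hE0 : dd S x (S.q t) = e0 at *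
    generalize hCC : ss s ξ S x y (S.q t) = c at *
    have hse0 : s e0 ≠ 0 := by
      intro h0
      exact he0 ((map_eq_zero s).mp h0)
    have hcc : c * (e0 * s e0) = y r - y u := by
      rw [hcq, ← hdq]
      field_simp
    obtain ⟨θ, hθ⟩ : ∃ θ, θ = x (S.p t) / e0 := ⟨_, rfl⟩
    rw [← hθ] at h1 h2
    have hθ1 : e0 * θ = x (S.p t) := by rw [hθ]; field_simp
    have hθ2 : s e0 * s θ = s (x (S.p t)) := by rw [← map_mul, hθ1]
    have h2' : (x a * (s (x (S.p t)) - s e0 * c) + s (x a) * x (S.p t) - y (S.p t) +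
        (s e0 * c * x r - y r)) + (x a * s e0 - s (x a) * e0 + (e0 * s (x r) - s e0 * x r)) *
        (c - s θ) = 0 := h2
    have hsd : s e0 = s (x r) - s (x u) := by rw [hdq, map_sub]
    have hDre : dl s x y (S.p t) r = x (S.p t) * s (x r) + s (x (S.p t)) * x r - y (S.p t) - y r :=
      rfl
    have hDue : dl s x y (S.p t) u = x (S.p t) * s (x u) + s (x (S.p t)) * x u - y (S.p t) - y u :=
      rfl
    have hE1 : (s (x (S.p t)) - s e0 * (c - θ)) * (x b - x r) = - dl s x y (S.p t) r := by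
      rw [hDre]
      linear_combination h1 + (s (x b) - s (x r)) * hθ1
    have hE2 : (s (x (S.p t)) - s e0 * (c - θ)) * e0 =
        dl s x y (S.p t) r - dl s x y (S.p t) u := by
      rw [hDre, hDue]
      have e1 : e0 = x r - x u := hdq
      have : x (S.p t) * s (x r) + s (x (S.p t)) * x r - y (S.p t) - y r -
          (x (S.p t) * s (x u) + s (x (S.p t)) * x u - y (S.p t) - y u) =
          x (S.p t) * s e0 + s (x (S.p t)) * e0 - (y r - y u) := by
        rw [hsd, e1]; ring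
      rw [this, ← hcc]
      linear_combination s e0 * hθ1
    have hE3 : (s (x (S.p t)) - s e0 * (c - θ)) * (x b - x u) = - dl s x y (S.p t) u := by
      have e1 : x b - x u = (x b - x r) + e0 := by rw [hdq]; ring
      rw [e1]
      linear_combination hE1 + hE2
    have hE1' : (x (S.p t) - e0 * (c - s θ)) * s (x a - x r) = - dl s x y (S.p t) r := by
      rw [hDre, map_sub]
      linear_combination h2' + (x a - x r) * hθ2
    have hE2' : (x (S.p t) - e0 * (c - s θ)) * s e0 =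
        dl s x y (S.p t) r - dl s x y (S.p t) u := by
      rw [hDre, hDue]
      have e1 : e0 = x r - x u := hdq
      have : x (S.p t) * s (x r) + s (x (S.p t)) * x r - y (S.p t) - y r -
          (x (S.p t) * s (x u) + s (x (S.p t)) * x u - y (S.p t) - y u) =
          x (S.p t) * s e0 + s (x (S.p t)) * e0 - (y r - y u) := by
        rw [hsd, e1]; ring
      rw [this, ← hcc]
      linear_combination e0 * hθ2
    have hE3' : (x (S.p t) - e0 * (c - s θ)) * s (x a - x u) = - dl s x y (S.p t) u := by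
      have e1 : s (x a - x u) = s (x a - x r) + s e0 := by rw [hdq, ← map_add]; congr 1; ring
      rw [e1]
      linear_combination hE1' + hE2'
    have hEn : s (x (S.p t)) - s e0 * (c - θ) ≠ 0 := by
      intro h0
      rw [h0, zero_mul] at hE1
      exact hDr (neg_eq_zero.mp hE1.symm)
    have hEn' : x (S.p t) - e0 * (c - s θ) ≠ 0 := by
      intro h0
      rw [h0, zero_mul] at hE1'
      exact hDr (neg_eq_zero.mp hE1'.symm)
    refine ⟨?_, ?_, ?_, ?_, ?_⟩
    · intro h0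
      rw [h0, sub_self, map_zero, mul_zero] at hE1'
      exact hDr (neg_eq_zero.mp hE1'.symm)
    · intro h0
      rw [h0, sub_self, map_zero, mul_zero] at hE3'
      exact hDu (neg_eq_zero.mp hE3'.symm)
    · intro h0
      rw [h0, sub_self, mul_zero] at hE1
      exact hDr (neg_eq_zero.mp hE1.symm)
    · intro h0
      rw [h0, sub_self, mul_zero] at hE3
      exact hDu (neg_eq_zero.mp hE3.symm)
    · apply mul_left_cancel₀ (mul_ne_zero hEn hEn')
      calc (s (x (S.p t)) - s e0 * (c - θ)) * (x (S.p t) - e0 * (c - s θ)) *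
            ((x b - x r) * s (x a - x u))
          = ((s (x (S.p t)) - s e0 * (c - θ)) * (x b - x r)) *
            ((x (S.p t) - e0 * (c - s θ)) * s (x a - x u)) := by ring
        _ = ((s (x (S.p t)) - s e0 * (c - θ)) * (x b - x u)) *
            ((x (S.p t) - e0 * (c - s θ)) * s (x a - x r)) := by
            rw [hE1, hE3', hE3, hE1']; ring
        _ = (s (x (S.p t)) - s e0 * (c - θ)) * (x (S.p t) - e0 * (c - s θ)) *
            ((x b - x u) * s (x a - x r)) := by ring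

end Pool.Agent.H47.GD
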