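import Pool.Agent.H47.GD.TowB

/-!
# Module Orb4 (90 lines): the cross ratio relation

`(x b - x r) s(x a - x u) = (x b - x u) s(x a - x r)`, `r < u`, `a ≠ b`, `a, b ≠ r, u`.
If `a` is the largest of `a, b, r, u`: `s (x a) (x u - x r) = (x b - x r) s (x u) - (x b - x u) s (x r)`, so
`s (x a) ∈ LL a` (the right side and `x u - x r ≠ 0` are in `LL a`), so `x a ∈ LL a` (`Tow.stb`):
contradiction to `Tow.x_nmem`. If `b` is the largest: `x b s(x r - x u) = x r s(x a - x u) - x u s(x a - x r)`
gives `x b ∈ LL b`: contradiction. So `a, b < u`. With `d = dd u ≠ 0`, `c = ss u`, `v = w u`: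
`x u = d v`, `s (x u) = s d (c - v)`; everything else is in `LL u` and `v ∉ LL u` (`Tow.w_nmem`), so the
coefficients of `v` and the constant terms agree:
`(x b - x r) s d = -d s(x a - x r)` and `(x b - x r)(s (x a) - s d c) = x b s(x a - x r)`. Insert the first
into the second and cancel `x b - x r ≠ 0`: `s (x a) - s d c = -x b s d / d`, that is
`c - s (x a / d) = x b / d`.
-/

set_option autoImplicit false

namespace Pool.Agent.H47.GD

variable {K : Type} [Field K] [CharZero K] {s : K ≃+* K} {ξ : K} {S : Sch} {x y w : ℕ → K}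

theorem orb_cross (T : Tow s ξ S x y w) {t : ℕ} (hNI : NI s ξ S x y w t) (ht : t ≤ S.N)
    {a b r u : ℕ} (ha : a < t) (hb : b < t) (hu : u < t) (hru : r < u) (hab : a ≠ b)
    (har : a ≠ r) (hau : a ≠ u) (hbr : b ≠ r) (hbu : b ≠ u)
    (h : (x b - x r) * s (x a - x u) = (x b - x u) * s (x a - x r)) :
    a < u ∧ b < u ∧ ta s (ss s ξ S x y u) (x a / dd S x u) = x b / dd S x u := by
  have haN : a < S.N := by omega
  have hbN : b < S.N := by omega
  have huN : u < S.N := by omega
  have hrN : r < S.N := by omega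
  have hrt : r < t := by omega
  have hrx : x u - x r ≠ 0 := sub_ne_zero.2 (T.x_ne hNI hu hrt huN hrN (by omega))
  have hbx : x b - x r ≠ 0 := sub_ne_zero.2 (T.x_ne hNI hb hrt hbN hrN hbr)
  -- membership in the field before the vertex k
  have key : ∀ k, k < t → ∀ j, j < k → x j ∈ LL s ξ w k ∧ s (x j) ∈ LL s ξ w k := by
    intro k hk j hj
    have h1 : x j ∈ LL s ξ w k := T.x_mem (by omega) hj
    exact ⟨h1, (T.stb (by omega : k ≤ S.N) (x j)).2 h1⟩
  rw [map_sub, map_sub] at h
  -- `a` is not the largest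
  have c1 : ¬ (u < a ∧ b < a) := by
    rintro ⟨h1, h2⟩
    have e : s (x a) = ((x b - x r) * s (x u) - (x b - x u) * s (x r)) / (x u - x r) := by
      rw [eq_div_iff hrx]
      linear_combination h
    have hm : s (x a) ∈ LL s ξ w a := by
      rw [e]
      have kb := key a ha b h2
      have ku := key a ha u h1
      have kr := key a ha r (by omega)
      exact div_mem (sub_mem (mul_mem (sub_mem kb.1 kr.1) ku.2) (mul_mem (sub_mem kb.1 ku.1) kr.2))
        (sub_mem ku.1 kr.1)
    exact T.x_nmem hNI ha haN ((T.stb (by omega : a ≤ S.N) (x a)).1 hm)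
  -- `b` is not the largest
  have c2 : ¬ (u < b ∧ a < b) := by
    rintro ⟨h1, h2⟩
    have hs : s (x r) - s (x u) ≠ 0 := by
      rw [← map_sub]
      exact (map_ne_zero s).2 (by rw [← neg_sub]; exact neg_ne_zero.2 hrx)
    have e : x b = (x r * (s (x a) - s (x u)) - x u * (s (x a) - s (x r))) /
        (s (x r) - s (x u)) := by
      rw [eq_div_iff hs]
      linear_combination h
    have hm : x b ∈ LL s ξ w b := by
      rw [e]
      have ka := key b hb a h2
      have ku := key b hb u h1
      have kr := key b hb r (by omega)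
      exact div_mem (sub_mem (mul_mem kr.1 (sub_mem ka.2 ku.2)) (mul_mem ku.1 (sub_mem ka.2 kr.2)))
        (sub_mem kr.2 ku.2)
    exact T.x_nmem hNI hb hbN hm
  have h1 : a < u := by omega
  have h2 : b < u := by omega
  refine ⟨h1, h2, ?_⟩
  have hd : dd S x u ≠ 0 := T.dd_ne hNI hu.le huN
  have hsd : s (dd S x u) ≠ 0 := (map_ne_zero s).2 hd
  have hdm : dd S x u ∈ LL s ξ w u := T.dd_mem huN
  have hdm' : s (dd S x u) ∈ LL s ξ w u := (T.stb huN.le _).2 hdm
  have hcm : ss s ξ S x y u ∈ LL s ξ w u := T.ss_mem huN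
  have ka := key u hu a h1
  have kb := key u hu b h2
  have kr := key u hu r hru
  have hxu : x u = dd S x u * w u := T.hx u huN
  have hwu : s (w u) = ss s ξ S x y u - w u := by
    rw [← T.hw u huN]; ring
  have hsx : s (x u) = s (dd S x u) * (ss s ξ S x y u - w u) := by
    rw [hxu, map_mul, hwu]
  rw [hsx] at h
  generalize hD : dd S x u = D at *
  generalize hC : ss s ξ S x y u = C at *
  rw [hxu] at h
  have hv : w u * ((x b - x r) * s D + D * (s (x a) - s (x r))) =
      x b * (s (x a) - s (x r)) - (x b - x r) * (s (x a) - s D * C) := by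
    linear_combination h
  have hA : (x b - x r) * s D + D * (s (x a) - s (x r)) = 0 := by
    by_contra hA
    refine T.w_nmem hNI hu huN ?_
    rw [← eq_div_iff hA] at hv
    rw [hv]
    exact div_mem
      (sub_mem (mul_mem kb.1 (sub_mem ka.2 kr.2))
        (mul_mem (sub_mem kb.1 kr.1) (sub_mem ka.2 (mul_mem hdm' hcm))))
      (add_mem (mul_mem (sub_mem kb.1 kr.1) hdm') (mul_mem hdm (sub_mem ka.2 kr.2)))
  rw [hA, mul_zero] at hv
  have hf : D * (s (x a) - s D * C) + x b * s D = 0 := by
    have h3 : (x b - x r) * (D * (s (x a) - s D * C) + x b * s D) = 0 := by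
      linear_combination D * hv + x b * hA
    rcases mul_eq_zero.1 h3 with h4 | h4
    · exact absurd h4 hbx
    · exact h4
  unfold ta
  rw [map_div₀, sub_eq_iff_eq_add]
  field_simp
  linear_combination (-1 : K) * hf

end Pool.Agent.H47.GD
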