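import Pool.Agent.H47.GD.Orb1
import Pool.Agent.H47.GD.Orb3b
import Pool.Agent.H47.GD.Orb3c
import Pool.Agent.H47.GD.Orb4

/-!
# Module Orb (80 lines): different vertices are in different orbits

Strong induction on `t`. `t < M`: `dd t = 1`, `ss t = fb t ∈ LL m`: `orb_mem`. `t ≥ M`, parents `p < q`:
if `max a b > q`: `ss t`, `dd t` are in `LL (q+1) ≤ LL (max a b)` (`x p, x q, y p, y q` are, and their
images under `s`): `orb_mem`. If `a, b ≤ q` and one of them is `q`: `orb_q`. If `a, b < q`: suppose
equality; `orb_lt` and `orb_cross` (for `r = p q`, `u = q q < q`) give `a, b < u` and equality for `u`,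
`n = 1`: contradiction to the induction hypothesis for `u < t` (`NI (u+1)` follows from `NI (t+1)`).
-/

set_option autoImplicit false

namespace Pool.Agent.H47.GD

variable {K : Type} [Field K] [CharZero K] {s : K ≃+* K} {ξ : K} {S : Sch} {x y w : ℕ → K}

theorem orb (T : Tow s ξ S x y w) (hNC : S.NC) {t : ℕ} (hNI : NI s ξ S x y w (t + 1))
    (htN : t < S.N) {a b : ℕ} (ha : a < t) (hb : b < t) (hab : a ≠ b) {n : ℕ} (hn : 0 < n) :
    (ta s (ss s ξ S x y t))^[n] (x a / dd S x t) ≠ x b / dd S x t := by
  induction t using Nat.strong_induction_on generalizing a b n with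
  | _ t ih =>
    have hNI' : NI s ξ S x y w t := fun i hi hiN => hNI i (by omega) hiN
    have hd0 : dd S x t ≠ 0 := T.dd_ne hNI (Nat.le_succ t) htN
    rcases lt_or_ge t S.M with htM | htM
    · refine orb_mem T hNI' htN.le ha hb hab ?_ ?_ hd0 n
      · unfold ss
        rw [if_pos htM]
        exact fb_mem_LL _ _
      · unfold dd
        rw [if_pos htM]
        exact one_mem _
    · have hpq := S.hpq t htM htN
      have hqt := S.hqj t htM htN
      rcases lt_or_ge (S.q t) (max a b) with hq | hq
      · have hle : LL s ξ w (S.q t + 1) ≤ LL s ξ w (max a b) := LL_mono hq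
        have hN1 : S.q t + 1 ≤ S.N := by omega
        have hst := T.stb hN1
        have xp : x (S.p t) ∈ LL s ξ w (S.q t + 1) := T.x_mem hN1 (by omega)
        have xq : x (S.q t) ∈ LL s ξ w (S.q t + 1) := T.x_mem hN1 (by omega)
        have yp : y (S.p t) ∈ LL s ξ w (S.q t + 1) := T.y_mem hN1 (by omega)
        have yq : y (S.q t) ∈ LL s ξ w (S.q t + 1) := T.y_mem hN1 (by omega)
        have xs : x (S.p t) - x (S.q t) ∈ LL s ξ w (S.q t + 1) := sub_mem xp xq
        have sxs : s (x (S.p t) - x (S.q t)) ∈ LL s ξ w (S.q t + 1) := (hst _).2 xs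
        refine orb_mem T hNI' htN.le ha hb hab (hle ?_) (hle ?_) hd0 n
        · unfold ss
          rw [if_neg (by omega)]
          unfold sp
          exact div_mem (sub_mem yp yq) (mul_mem xs sxs)
        · unfold dd
          rw [if_neg (by omega)]
          exact xs
      · have haq : a ≤ S.q t := (le_max_left a b).trans hq
        have hbq : b ≤ S.q t := (le_max_right a b).trans hq
        by_cases h1 : a = S.q t ∨ b = S.q t
        · exact orb_q T hNI htN htM haq hbq hab h1 n
        · push Not at h1
          intro h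
          obtain ⟨hMq, har, hau, hbr, hbu, hx⟩ := orb_lt T hNC hNI htN htM
            (lt_of_le_of_ne haq h1.1) (lt_of_le_of_ne hbq h1.2) hab hn h
          have hqN : S.q t < S.N := by omega
          have hru := S.hpq (S.q t) hMq hqN
          have huq := S.hqj (S.q t) hMq hqN
          obtain ⟨hau', hbu', hta⟩ := orb_cross T hNI' htN.le ha hb (by omega) hru hab har hau
            hbr hbu hx
          exact ih (S.q (S.q t)) (by omega) (fun i hi hiN => hNI i (by omega) hiN) (by omega)
            hau' hbu' hab one_pos (by simpa using hta)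

end Pool.Agent.H47.GD
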