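import Pool.Agent.H47.GD.TowB

/-!
# Module Orb1 (60 lines): orbits, the easy case

`m = max a b`. Suppose `τ^n (x a / d) = x b / d`, `τ = ta s c`, `c, d ∈ LL m`. If `a > b`, `m = a`:
`x b / d ∈ LL a`, so `x a / d ∈ LL a` by `ta_iter_mem` (`LL a` is stable, `Tow.stb`), so `x a ∈ LL a`:
contradiction to `Tow.x_nmem`. If `b > a`, `m = b`: `x a / d ∈ LL b`, so `x b / d ∈ LL b`, the same.
-/

set_option autoImplicit false

namespace Pool.Agent.H47.GD

variable {K : Type} [Field K] [CharZero K] {s : K ≃+* K} {ξ : K} {S : Sch} {x y w : ℕ → K}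

theorem orb_mem (T : Tow s ξ S x y w) {t : ℕ} (hNI : NI s ξ S x y w t) (ht : t ≤ S.N)
    {a b : ℕ} (ha : a < t) (hb : b < t) (hab : a ≠ b) {c d : K} (hc : c ∈ LL s ξ w (max a b))
    (hd : d ∈ LL s ξ w (max a b)) (hd0 : d ≠ 0) (n : ℕ) : (ta s c)^[n] (x a / d) ≠ x b / d := by
  intro h
  have haN : a < S.N := lt_of_lt_of_le ha ht
  have hbN : b < S.N := lt_of_lt_of_le hb ht
  rcases lt_or_gt_of_ne hab with hlt | hgt
  · rw [max_eq_right hlt.le] at hc hd
    have h1 : x a / d ∈ LL s ξ w b := (LL s ξ w b).div_mem (T.x_mem hbN.le hlt) hd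
    have h2 := (ta_iter_mem (T.stb hbN.le) hc n).2 h1
    rw [h] at h2
    have h3 := (LL s ξ w b).mul_mem h2 hd
    rw [div_mul_cancel₀ _ hd0] at h3
    exact T.x_nmem hNI hb hbN h3
  · rw [max_eq_left hgt.le] at hc hd
    have h1 : x b / d ∈ LL s ξ w a := (LL s ξ w a).div_mem (T.x_mem haN.le hgt) hd
    rw [← h] at h1
    have h2 := (ta_iter_mem (T.stb haN.le) hc n).1 h1
    have h3 := (LL s ξ w a).mul_mem h2 hd
    rw [div_mul_cancel₀ _ hd0] at h3
    exact T.x_nmem hNI ha haN h3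

end Pool.Agent.H47.GD
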