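import Pool.Agent.H47.GD.TrA

/-!
# Module Orb2 (180 lines): orbits, the polynomial identities

`s v + v = c`, `c ∈ F` not in the image of `F` (so `v` is transcendental over `F`), `e0 ∈ F`,
`e0 ≠ 0`, `xp ∈ F`, `θ = xp / e0`, `d = xp - e0 v = -e0 (v - θ)`.
`iter_sub`: `s^[l] (v - π) = (-1)^l (v - τ^l π)` (as `s (v - π) = c - v - s π = -(v - τ π)`); with `π = 0`:
`s^[l] v = (-1)^l (v - τ^l 0)`. `iter_rel`: with `ε g = s g + g - c`: `ε (τ g) = -s (ε g)`, so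
`ε (τ^n g) = (-1)^n s^[n] (ε g)` (induction, `ta` with `Function.iterate_succ_apply'`).
`orb_rel`: `d = -e0 (v - θ)`, `s^[l] d = -(s^[l] e0) (-1)^l (v - θ_l)`, `θ_l = τ^l θ`, all `θ_l` different
(`ta_iter_inj`). The relation is an identity between polynomials in `v` with coefficients in `F`, so it
may be evaluated at every point (use `Tr` or `Val.eq`). At `θ_0`: the right side vanishes, the factors
`v - θ_n`, `v - θ_(n+1)` do not, so `b0 + b1 θ_0 = 0`. If `n ≥ 2`, at `θ_1` the same: `b0 + b1 θ_1 = 0`, so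
`b1 = 0`, `b0 = 0`: contradiction to `hb`. So `n = 1`; cancel the factor `s d ≠ 0`
(`(b0 + b1 v) s^[2] d = -s (a0 + a1 v) d`) and evaluate at `θ_2`: `s a0 + s a1 (c - θ_2) = 0`,
`c - θ_2 = s θ_1`, so `a0 + a1 θ_1 = 0`.
`orb_deg1`, `orb_deg2`: compare degrees: `s^[l]` of a polynomial of degree `m` in `v` with coefficients
in `F` is a polynomial of the same degree (leading coefficient `± s^[l]` of the leading coefficient).
Degree 4 on one side, at most 3 on the other. (Here only `Tr F v` is used.)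
-/

set_option autoImplicit false

namespace Pool.Agent.H47.GD

open Polynomial

variable {K : Type} [Field K] [CharZero K] {F : Subfield K} {s : K ≃+* K} {c v : K}

omit [CharZero K] in
private theorem orb2_smem (hF : Stb s F) {x : K} (hx : x ∈ F) (l : ℕ) : s^[l] x ∈ F := by
  induction l with
  | zero => exact hx
  | succ l ih =>
    rw [Function.iterate_succ_apply']
    exact (hF _).2 ih

omit [CharZero K] in
private theorem orb2_smul (x y : K) (l : ℕ) : s^[l] (x * y) = s^[l] x * s^[l] y := by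
  induction l with
  | zero => rfl
  | succ l ih => rw [Function.iterate_succ_apply', Function.iterate_succ_apply',
      Function.iterate_succ_apply', ih, map_mul]

private theorem orb2_sadd (x y : K) (l : ℕ) : s^[l] (x + y) = s^[l] x + s^[l] y := by
  induction l with
  | zero => rfl
  | succ l ih => rw [Function.iterate_succ_apply', Function.iterate_succ_apply',
      Function.iterate_succ_apply', ih, map_add]

private theorem orb2_sneg (x : K) (l : ℕ) : s^[l] (-x) = -s^[l] x := by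
  induction l with
  | zero => rfl
  | succ l ih => rw [Function.iterate_succ_apply', Function.iterate_succ_apply', ih, map_neg]

omit [CharZero K] in
private theorem orb2_sne {x : K} (hx : x ≠ 0) (l : ℕ) : s^[l] x ≠ 0 := by
  induction l with
  | zero => exact hx
  | succ l ih =>
    rw [Function.iterate_succ_apply']
    intro h
    exact ih ((map_eq_zero_iff s s.injective).1 h)

omit [CharZero K] in
private theorem orb2_id (hT : Tr F v) {p0 p1 p2 q0 q1 r0 r1 P0 P1 P2 Q0 Q1 R0 R1 : K}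
    (hp0 : p0 ∈ F) (hp1 : p1 ∈ F) (hp2 : p2 ∈ F) (hq0 : q0 ∈ F) (hq1 : q1 ∈ F) (hr0 : r0 ∈ F)
    (hr1 : r1 ∈ F) (hP0 : P0 ∈ F) (hP1 : P1 ∈ F) (hP2 : P2 ∈ F) (hQ0 : Q0 ∈ F) (hQ1 : Q1 ∈ F)
    (hR0 : R0 ∈ F) (hR1 : R1 ∈ F)
    (h : (p0 + p1 * v + p2 * v ^ 2) * (q0 + q1 * v) * (r0 + r1 * v) =
      (P0 + P1 * v + P2 * v ^ 2) * (Q0 + Q1 * v) * (R0 + R1 * v)) :
    p2 * q1 * r1 = P2 * Q1 * R1 ∧
    ∀ x : K, (p0 + p1 * x + p2 * x ^ 2) * (q0 + q1 * x) * (r0 + r1 * x) =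
      (P0 + P1 * x + P2 * x ^ 2) * (Q0 + Q1 * x) * (R0 + R1 * x) := by
  have hC : ∀ {a : K}, a ∈ F → (C a : K[X]) ∈ PP F := fun h => C_mem_PP h
  have hquad : ∀ {a b d : K}, a ∈ F → b ∈ F → d ∈ F →
      (C a + C b * X + C d * X ^ 2 : K[X]) ∈ PP F := by
    intro a b d ha hb hd
    exact (PP F).add_mem ((PP F).add_mem (hC ha) ((PP F).mul_mem (hC hb) X_mem_PP))
      ((PP F).mul_mem (hC hd) ((PP F).pow_mem X_mem_PP 2))
  have hlin : ∀ {a b : K}, a ∈ F → b ∈ F → (C a + C b * X : K[X]) ∈ PP F := by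
    intro a b ha hb
    exact (PP F).add_mem (hC ha) ((PP F).mul_mem (hC hb) X_mem_PP)
  have h0 := hT ((C p0 + C p1 * X + C p2 * X ^ 2) * (C q0 + C q1 * X) * (C r0 + C r1 * X) -
      (C P0 + C P1 * X + C P2 * X ^ 2) * (C Q0 + C Q1 * X) * (C R0 + C R1 * X))
    ((PP F).sub_mem ((PP F).mul_mem ((PP F).mul_mem (hquad hp0 hp1 hp2) (hlin hq0 hq1))
        (hlin hr0 hr1))
      ((PP F).mul_mem ((PP F).mul_mem (hquad hP0 hP1 hP2) (hlin hQ0 hQ1)) (hlin hR0 hR1)))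
    (by
      simp only [eval_sub, eval_mul, eval_add, eval_C, eval_X, eval_pow]
      rw [h, sub_self])
  have hc4 : ∀ a b d e f g k : K,
      ((C a + C b * X + C d * X ^ 2) * (C e + C f * X) * (C g + C k * X) : K[X]).coeff 4 =
        d * f * k := by
    intro a b d e f g k
    have h1 : ((C a + C b * X + C d * X ^ 2) * (C e + C f * X) * (C g + C k * X) : K[X]) =
        C (d * f * k) * X ^ 4 + C (b * f * k + d * (e * k + f * g)) * X ^ 3 +
        C (a * f * k + b * (e * k + f * g) + d * e * g) * X ^ 2 +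
        C (a * (e * k + f * g) + b * e * g) * X + C (a * e * g) := by
      simp only [map_mul, map_add]
      ring
    rw [h1]
    simp only [coeff_add, coeff_C_mul, coeff_X_pow, coeff_X, coeff_C]
    norm_num
  constructor
  · have h4 := congrArg (fun P : K[X] => P.coeff 4) h0
    simp only [coeff_sub, coeff_zero, hc4] at h4
    exact sub_eq_zero.1 h4
  · intro x
    have hx := congrArg (fun P : K[X] => P.eval x) h0
    simp only [eval_sub, eval_mul, eval_add, eval_C, eval_X, eval_pow, eval_zero] at hx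
    exact sub_eq_zero.1 hx

theorem iter_sub (hv : s v + v = c) (π : K) (l : ℕ) :
    s^[l] (v - π) = (-1) ^ l * (v - (ta s c)^[l] π) := by
  induction l with
  | zero => simp
  | succ l ih =>
    rw [Function.iterate_succ_apply', ih, map_mul, map_pow, map_neg, map_one, map_sub,
      Function.iterate_succ_apply']
    have h1 : s v = c - v := by rw [← hv]; ring
    rw [h1]
    unfold ta
    rw [pow_succ]
    ring

theorem iter_rel (g : K) (n : ℕ) :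
    s ((ta s c)^[n] g) + (ta s c)^[n] g - c = (-1) ^ n * s^[n] (s g + g - c) := by
  induction n with
  | zero => simp
  | succ n ih =>
    have h1 : s ((ta s c)^[n + 1] g) + (ta s c)^[n + 1] g - c =
        -s (s ((ta s c)^[n] g) + (ta s c)^[n] g - c) := by
      rw [Function.iterate_succ_apply']
      simp only [ta, map_sub, map_add]
      ring
    rw [h1, ih, map_mul, map_pow, map_neg, map_one, Function.iterate_succ_apply', pow_succ]
    ring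

private theorem orb2_d (hv : s v + v = c) {e0 xp : K} (he0 : e0 ≠ 0) (l : ℕ) :
    s^[l] (xp - e0 * v) = s^[l] e0 * (-1) ^ l * (ta s c)^[l] (xp / e0) +
      -(s^[l] e0 * (-1) ^ l) * v := by
  have h1 : xp - e0 * v = -e0 * (v - xp / e0) := by
    field_simp
    ring
  rw [h1, orb2_smul, iter_sub hv, orb2_sneg]
  ring

private theorem orb2_a (hv : s v + v = c) (a0 a1 : K) (l : ℕ) :
    s^[l] (a0 + a1 * v) = (s^[l] a0 - s^[l] a1 * (-1) ^ l * (ta s c)^[l] 0) +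
      s^[l] a1 * (-1) ^ l * v := by
  have h1 : s^[l] v = (-1) ^ l * (v - (ta s c)^[l] 0) := by
    have := iter_sub hv 0 l
    rwa [sub_zero] at this
  rw [orb2_sadd, orb2_smul, h1]
  ring

omit [CharZero K] in
private theorem orb2_dne (hT : Tr F v) {e0 xp : K} (he : e0 ∈ F) (he0 : e0 ≠ 0) (hxp : xp ∈ F) :
    xp - e0 * v ≠ 0 := by
  intro h
  have h1 := hT (C xp - C e0 * X)
    ((PP F).sub_mem (C_mem_PP hxp) ((PP F).mul_mem (C_mem_PP he) X_mem_PP))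
    (by simp only [eval_sub, eval_mul, eval_C, eval_X]; exact h)
  have h2 := congrArg (fun P : K[X] => P.coeff 1) h1
  simp only [coeff_sub, coeff_C_mul, coeff_X_one, coeff_zero, mul_one] at h2
  rw [coeff_C_of_ne_zero (by norm_num), zero_sub, neg_eq_zero] at h2
  exact he0 h2

omit [CharZero K] in
private theorem orb2_tm (hF : Stb s F) (hc : c ∈ F) {x : K} (hx : x ∈ F) (l : ℕ) :
    (ta s c)^[l] x ∈ F := (ta_iter_mem hF hc l).2 hx

omit [CharZero K] in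
private theorem orb2_sg (l : ℕ) : ((-1 : K) ^ l) ∈ F := F.pow_mem (F.neg_mem F.one_mem) l

omit [CharZero K] in
private theorem orb2_m1 (hF : Stb s F) {e0 : K} (he : e0 ∈ F) (l : ℕ) :
    s^[l] e0 * (-1) ^ l ∈ F := F.mul_mem (orb2_smem hF he l) (orb2_sg l)

omit [CharZero K] in
private theorem orb2_m2 (hF : Stb s F) (hc : c ∈ F) {e0 xp : K} (he : e0 ∈ F) (hxp : xp ∈ F)
    (l : ℕ) : s^[l] e0 * (-1) ^ l * (ta s c)^[l] (xp / e0) ∈ F :=
  F.mul_mem (orb2_m1 hF he l) (orb2_tm hF hc (F.div_mem hxp he) l)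

omit [CharZero K] in
private theorem orb2_m3 (hF : Stb s F) (hc : c ∈ F) {a0 a1 : K} (ha0 : a0 ∈ F) (ha1 : a1 ∈ F)
    (l : ℕ) : s^[l] a0 - s^[l] a1 * (-1) ^ l * (ta s c)^[l] 0 ∈ F :=
  F.sub_mem (orb2_smem hF ha0 l) (F.mul_mem (orb2_m1 hF ha1 l) (orb2_tm hF hc F.zero_mem l))

theorem orb_rel (hF : Stb s F) (hc : c ∈ F) (hv : s v + v = c) (hn : ¬ Im s F c) {e0 xp : K}
    (he : e0 ∈ F) (he0 : e0 ≠ 0) (hxp : xp ∈ F) {a0 a1 b0 b1 : K} (ha0 : a0 ∈ F) (ha1 : a1 ∈ F)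
    (hb0 : b0 ∈ F) (hb1 : b1 ∈ F) (hb : b0 + b1 * v ≠ 0) {n : ℕ} (h0 : 0 < n)
    (hrel : (b0 + b1 * v) * s^[n] (xp - e0 * v) * s^[n + 1] (xp - e0 * v) =
      (-1) ^ n * s^[n] (a0 + a1 * v) * (xp - e0 * v) * s (xp - e0 * v)) :
    n = 1 ∧ b0 + b1 * (xp / e0) = 0 ∧ a0 + a1 * ta s c (xp / e0) = 0 := by
  have hT : Tr F v := tr_of_not_im hF hc hv hn
  have hθ : xp / e0 ∈ F := F.div_mem hxp he
  obtain ⟨θ, hθe⟩ : ∃ θ, θ = xp / e0 := ⟨_, rfl⟩
  have hd := fun l => orb2_d (xp := xp) hv he0 l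
  have hm1 := fun l => orb2_m1 hF he l
  have hm2 := fun l => orb2_m2 hF hc he hxp l
  rw [← hθe] at hθ hd hm2 ⊢
  have hinj : ∀ m n, (ta s c)^[m] θ = (ta s c)^[n] θ → m = n := fun m n h =>
    ta_iter_inj hF hc hn hθ h
  have hsg : ∀ l : ℕ, ((-1 : K) ^ l) ≠ 0 := fun l => pow_ne_zero _ (by norm_num)
  have hse : ∀ l : ℕ, s^[l] e0 ≠ 0 := fun l => orb2_sne he0 l
  have hfac : ∀ l m : ℕ, l ≠ m → s^[l] e0 * (-1) ^ l * (ta s c)^[l] θ +
      -(s^[l] e0 * (-1) ^ l) * (ta s c)^[m] θ ≠ 0 := by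
    intro l m hlm h
    have h1 : s^[l] e0 * (-1) ^ l * ((ta s c)^[l] θ - (ta s c)^[m] θ) = 0 := by
      linear_combination h
    rcases mul_eq_zero.1 h1 with h2 | h2
    · exact (mul_ne_zero (hse l) (hsg l)) h2
    · exact hlm (hinj l m (sub_eq_zero.1 h2))
  have hd0 : xp - e0 * v = s^[0] e0 * (-1) ^ 0 * (ta s c)^[0] θ + -(s^[0] e0 * (-1) ^ 0) * v := by
    rw [← hd 0]; rfl
  have hd1 : s (xp - e0 * v) = s^[1] e0 * (-1) ^ 1 * (ta s c)^[1] θ +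
      -(s^[1] e0 * (-1) ^ 1) * v := by
    rw [← hd 1]; rfl
  have hpoly : ∀ x : K, (b0 + b1 * x) * (s^[n] e0 * (-1) ^ n * (ta s c)^[n] θ +
      -(s^[n] e0 * (-1) ^ n) * x) * (s^[n + 1] e0 * (-1) ^ (n + 1) * (ta s c)^[n + 1] θ +
      -(s^[n + 1] e0 * (-1) ^ (n + 1)) * x) =
      ((-1) ^ n * (s^[n] a0 - s^[n] a1 * (-1) ^ n * (ta s c)^[n] 0) +
        (-1) ^ n * (s^[n] a1 * (-1) ^ n) * x) *
      (s^[0] e0 * (-1) ^ 0 * (ta s c)^[0] θ + -(s^[0] e0 * (-1) ^ 0) * x) *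
      (s^[1] e0 * (-1) ^ 1 * (ta s c)^[1] θ + -(s^[1] e0 * (-1) ^ 1) * x) := by
    have h1 := (orb2_id hT (p0 := b0) (p1 := b1) (p2 := 0)
      (q0 := s^[n] e0 * (-1) ^ n * (ta s c)^[n] θ) (q1 := -(s^[n] e0 * (-1) ^ n))
      (r0 := s^[n + 1] e0 * (-1) ^ (n + 1) * (ta s c)^[n + 1] θ)
      (r1 := -(s^[n + 1] e0 * (-1) ^ (n + 1)))
      (P0 := (-1) ^ n * (s^[n] a0 - s^[n] a1 * (-1) ^ n * (ta s c)^[n] 0))
      (P1 := (-1) ^ n * (s^[n] a1 * (-1) ^ n)) (P2 := 0)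
      (Q0 := s^[0] e0 * (-1) ^ 0 * (ta s c)^[0] θ) (Q1 := -(s^[0] e0 * (-1) ^ 0))
      (R0 := s^[1] e0 * (-1) ^ 1 * (ta s c)^[1] θ) (R1 := -(s^[1] e0 * (-1) ^ 1))
      hb0 hb1 F.zero_mem (hm2 n) (F.neg_mem (hm1 n)) (hm2 (n + 1)) (F.neg_mem (hm1 (n + 1)))
      (F.mul_mem (orb2_sg n) (orb2_m3 hF hc ha0 ha1 n))
      (F.mul_mem (orb2_sg n) (orb2_m1 hF ha1 n)) F.zero_mem (hm2 0) (F.neg_mem (hm1 0)) (hm2 1)
      (F.neg_mem (hm1 1)) ?_).2
    · intro x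
      have h2 := h1 x
      simp only [zero_mul, add_zero] at h2
      exact h2
    · rw [zero_mul, add_zero, add_zero, ← hd n, ← hd (n + 1), ← hd0, ← hd1, hrel,
        orb2_a hv a0 a1 n]
      ring
  have hb00 : b0 + b1 * θ = 0 := by
    have h1 := hpoly ((ta s c)^[0] θ)
    have h2 : s^[0] e0 * (-1) ^ 0 * (ta s c)^[0] θ + -(s^[0] e0 * (-1) ^ 0) * (ta s c)^[0] θ = 0 := by
      ring
    rw [h2, mul_zero, zero_mul] at h1
    rcases mul_eq_zero.1 h1 with h3 | h3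
    · rcases mul_eq_zero.1 h3 with h4 | h4
      · exact h4
      · exact absurd h4 (hfac n 0 (by omega))
    · exact absurd h3 (hfac (n + 1) 0 (by omega))
  have hn1 : n = 1 := by
    by_contra hne
    have h1 := hpoly ((ta s c)^[1] θ)
    have h2 : s^[1] e0 * (-1) ^ 1 * (ta s c)^[1] θ + -(s^[1] e0 * (-1) ^ 1) * (ta s c)^[1] θ = 0 := by
      ring
    rw [h2, mul_zero] at h1
    have hb01 : b0 + b1 * (ta s c)^[1] θ = 0 := by
      rcases mul_eq_zero.1 h1 with h3 | h3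
      · rcases mul_eq_zero.1 h3 with h4 | h4
        · exact h4
        · exact absurd h4 (hfac n 1 hne)
      · exact absurd h3 (hfac (n + 1) 1 (by omega))
    have h5 : b1 * (θ - (ta s c)^[1] θ) = 0 := by linear_combination hb00 - hb01
    rcases mul_eq_zero.1 h5 with h6 | h6
    · apply hb
      rw [h6, zero_mul, add_zero] at hb00 ⊢
      exact hb00
    · have := hinj 0 1 (sub_eq_zero.1 h6)
      omega
  refine ⟨hn1, hb00, ?_⟩
  subst hn1
  have hdne := orb2_dne hT he he0 hxp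
  have hsd : s (xp - e0 * v) ≠ 0 := by
    intro h
    exact hdne ((map_eq_zero_iff s s.injective).1 h)
  have hrel2 : (b0 + b1 * v) * s^[2] (xp - e0 * v) =
      (-1) * s^[1] (a0 + a1 * v) * (xp - e0 * v) := by
    apply mul_right_cancel₀ hsd
    have h1 : s^[1] (xp - e0 * v) = s (xp - e0 * v) := rfl
    rw [h1] at hrel
    linear_combination hrel
  have h1 := (orb2_id hT (p0 := b0) (p1 := b1) (p2 := 0)
      (q0 := s^[2] e0 * (-1) ^ 2 * (ta s c)^[2] θ) (q1 := -(s^[2] e0 * (-1) ^ 2))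
      (r0 := 1) (r1 := 0)
      (P0 := -(s^[1] a0 - s^[1] a1 * (-1) ^ 1 * (ta s c)^[1] 0))
      (P1 := -(s^[1] a1 * (-1) ^ 1)) (P2 := 0)
      (Q0 := s^[0] e0 * (-1) ^ 0 * (ta s c)^[0] θ) (Q1 := -(s^[0] e0 * (-1) ^ 0))
      (R0 := 1) (R1 := 0)
      hb0 hb1 F.zero_mem (hm2 2) (F.neg_mem (hm1 2)) F.one_mem F.zero_mem
      (F.neg_mem (orb2_m3 hF hc ha0 ha1 1))
      (F.neg_mem (orb2_m1 hF ha1 1)) F.zero_mem (hm2 0) (F.neg_mem (hm1 0)) F.one_mem F.zero_mem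
      (by
        rw [← hd 2, ← hd0]
        have h2 := hrel2
        rw [orb2_a hv a0 a1 1] at h2
        linear_combination h2)).2 ((ta s c)^[2] θ)
  have h2 : s^[2] e0 * (-1) ^ 2 * (ta s c)^[2] θ + -(s^[2] e0 * (-1) ^ 2) * (ta s c)^[2] θ = 0 := by
    ring
  have h3 : (-(s^[1] a0 - s^[1] a1 * (-1) ^ 1 * (ta s c)^[1] 0) +
      -(s^[1] a1 * (-1) ^ 1) * (ta s c)^[2] θ) *
      (s^[0] e0 * (-1) ^ 0 * (ta s c)^[0] θ + -(s^[0] e0 * (-1) ^ 0) * (ta s c)^[2] θ) = 0 := by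
    rw [h2] at h1
    linear_combination -h1
  rcases mul_eq_zero.1 h3 with h4 | h4
  · have h5 : s (a0 + a1 * ta s c θ) = 0 := by
      have e1 : s^[1] a0 = s a0 := rfl
      have e2 : s^[1] a1 = s a1 := rfl
      have e3 : (ta s c)^[1] 0 = c := by
        show ta s c 0 = c
        unfold ta
        rw [map_zero, sub_zero]
      have e4 : (ta s c)^[2] θ = c - s (ta s c θ) := rfl
      rw [e1, e2, e3, e4] at h4
      rw [map_add, map_mul]
      linear_combination -h4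
    exact (map_eq_zero_iff s s.injective).1 h5
  · exact absurd h4 (hfac 0 2 (by omega))

theorem orb_deg1 (hF : Stb s F) (hc : c ∈ F) (hv : s v + v = c) (hn : ¬ Im s F c) {e0 xp : K}
    (he : e0 ∈ F) (he0 : e0 ≠ 0) (hxp : xp ∈ F) {a0 a1 b0 b1 b2 : K} (ha0 : a0 ∈ F) (ha1 : a1 ∈ F)
    (hb0 : b0 ∈ F) (hb1 : b1 ∈ F) (hb2 : b2 ∈ F) (hb : b2 ≠ 0) (n : ℕ) :
    (b0 + b1 * v + b2 * v ^ 2) * s^[n] (xp - e0 * v) * s^[n + 1] (xp - e0 * v) ≠
      (-1) ^ n * s^[n] (a0 + a1 * v) * (xp - e0 * v) * s (xp - e0 * v) := by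
  intro hrel
  have hT : Tr F v := tr_of_not_im hF hc hv hn
  have hd := fun l => orb2_d (xp := xp) hv he0 l
  have hm1 := fun l => orb2_m1 hF he l
  have hm2 := fun l => orb2_m2 hF hc he hxp l
  have hsg : ∀ l : ℕ, ((-1 : K) ^ l) ≠ 0 := fun l => pow_ne_zero _ (by norm_num)
  have hse : ∀ l : ℕ, s^[l] e0 ≠ 0 := fun l => orb2_sne he0 l
  have hd0 : xp - e0 * v = s^[0] e0 * (-1) ^ 0 * (ta s c)^[0] (xp / e0) +
      -(s^[0] e0 * (-1) ^ 0) * v := by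
    rw [← hd 0]; rfl
  have hd1 : s (xp - e0 * v) = s^[1] e0 * (-1) ^ 1 * (ta s c)^[1] (xp / e0) +
      -(s^[1] e0 * (-1) ^ 1) * v := by
    rw [← hd 1]; rfl
  have h1 := (orb2_id hT (p0 := b0) (p1 := b1) (p2 := b2)
      (q0 := s^[n] e0 * (-1) ^ n * (ta s c)^[n] (xp / e0)) (q1 := -(s^[n] e0 * (-1) ^ n))
      (r0 := s^[n + 1] e0 * (-1) ^ (n + 1) * (ta s c)^[n + 1] (xp / e0))
      (r1 := -(s^[n + 1] e0 * (-1) ^ (n + 1)))
      (P0 := (-1) ^ n * (s^[n] a0 - s^[n] a1 * (-1) ^ n * (ta s c)^[n] 0))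
      (P1 := (-1) ^ n * (s^[n] a1 * (-1) ^ n)) (P2 := 0)
      (Q0 := s^[0] e0 * (-1) ^ 0 * (ta s c)^[0] (xp / e0)) (Q1 := -(s^[0] e0 * (-1) ^ 0))
      (R0 := s^[1] e0 * (-1) ^ 1 * (ta s c)^[1] (xp / e0)) (R1 := -(s^[1] e0 * (-1) ^ 1))
      hb0 hb1 hb2 (hm2 n) (F.neg_mem (hm1 n)) (hm2 (n + 1)) (F.neg_mem (hm1 (n + 1)))
      (F.mul_mem (orb2_sg n) (orb2_m3 hF hc ha0 ha1 n))
      (F.mul_mem (orb2_sg n) (orb2_m1 hF ha1 n)) F.zero_mem (hm2 0) (F.neg_mem (hm1 0)) (hm2 1)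
      (F.neg_mem (hm1 1))
      (by
        rw [zero_mul, add_zero, ← hd n, ← hd (n + 1), ← hd0, ← hd1, hrel, orb2_a hv a0 a1 n]
        ring)).1
  rw [zero_mul, zero_mul] at h1
  exact mul_ne_zero (mul_ne_zero hb (neg_ne_zero.2 (mul_ne_zero (hse n) (hsg n))))
    (neg_ne_zero.2 (mul_ne_zero (hse (n + 1)) (hsg (n + 1)))) h1

theorem orb_deg2 (hF : Stb s F) (hc : c ∈ F) (hv : s v + v = c) (hn : ¬ Im s F c) {e0 xp : K}
    (he : e0 ∈ F) (he0 : e0 ≠ 0) (hxp : xp ∈ F) {a0 a1 a2 b0 b1 : K} (ha0 : a0 ∈ F) (ha1 : a1 ∈ F)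
    (ha2 : a2 ∈ F) (hb0 : b0 ∈ F) (hb1 : b1 ∈ F) (ha : a2 ≠ 0) (n : ℕ) :
    (b0 + b1 * v) * s^[n] (xp - e0 * v) * s^[n + 1] (xp - e0 * v) ≠
      (-1) ^ n * s^[n] (a0 + a1 * v + a2 * v ^ 2) * (xp - e0 * v) * s (xp - e0 * v) := by
  intro hrel
  have hT : Tr F v := tr_of_not_im hF hc hv hn
  have hd := fun l => orb2_d (xp := xp) hv he0 l
  have hm1 := fun l => orb2_m1 hF he l
  have hm2 := fun l => orb2_m2 hF hc he hxp l
  have hsg : ∀ l : ℕ, ((-1 : K) ^ l) ≠ 0 := fun l => pow_ne_zero _ (by norm_num)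
  have hse : ∀ l : ℕ, s^[l] e0 ≠ 0 := fun l => orb2_sne he0 l
  have hd0 : xp - e0 * v = s^[0] e0 * (-1) ^ 0 * (ta s c)^[0] (xp / e0) +
      -(s^[0] e0 * (-1) ^ 0) * v := by
    rw [← hd 0]; rfl
  have hd1 : s (xp - e0 * v) = s^[1] e0 * (-1) ^ 1 * (ta s c)^[1] (xp / e0) +
      -(s^[1] e0 * (-1) ^ 1) * v := by
    rw [← hd 1]; rfl
  have hsv : s^[n] v = (-1) ^ n * (v - (ta s c)^[n] 0) := by
    have := iter_sub hv 0 n
    rwa [sub_zero] at this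
  have hsq : (((-1 : K) ^ n) * (-1) ^ n) = 1 := by
    rw [← mul_pow]; norm_num
  have hexp : s^[n] (a0 + a1 * v + a2 * v ^ 2) =
      (s^[n] a0 - s^[n] a1 * (-1) ^ n * (ta s c)^[n] 0 + s^[n] a2 * ((ta s c)^[n] 0) ^ 2) +
      (s^[n] a1 * (-1) ^ n - 2 * s^[n] a2 * (ta s c)^[n] 0) * v + s^[n] a2 * v ^ 2 := by
    rw [orb2_sadd, orb2_a hv a0 a1 n, orb2_smul, pow_two v, orb2_smul, hsv]
    linear_combination (s^[n] a2 * (v - (ta s c)^[n] 0) ^ 2) * hsq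
  have hz : (ta s c)^[n] (0 : K) ∈ F := orb2_tm hF hc F.zero_mem n
  have h2F : (2 : K) ∈ F := by
    have := F.add_mem F.one_mem F.one_mem
    rwa [one_add_one_eq_two] at this
  have h1 := (orb2_id hT (p0 := b0) (p1 := b1) (p2 := 0)
      (q0 := s^[n] e0 * (-1) ^ n * (ta s c)^[n] (xp / e0)) (q1 := -(s^[n] e0 * (-1) ^ n))
      (r0 := s^[n + 1] e0 * (-1) ^ (n + 1) * (ta s c)^[n + 1] (xp / e0))
      (r1 := -(s^[n + 1] e0 * (-1) ^ (n + 1)))
      (P0 := (-1) ^ n * (s^[n] a0 - s^[n] a1 * (-1) ^ n * (ta s c)^[n] 0 +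
        s^[n] a2 * ((ta s c)^[n] 0) ^ 2))
      (P1 := (-1) ^ n * (s^[n] a1 * (-1) ^ n - 2 * s^[n] a2 * (ta s c)^[n] 0))
      (P2 := (-1) ^ n * s^[n] a2)
      (Q0 := s^[0] e0 * (-1) ^ 0 * (ta s c)^[0] (xp / e0)) (Q1 := -(s^[0] e0 * (-1) ^ 0))
      (R0 := s^[1] e0 * (-1) ^ 1 * (ta s c)^[1] (xp / e0)) (R1 := -(s^[1] e0 * (-1) ^ 1))
      hb0 hb1 F.zero_mem (hm2 n) (F.neg_mem (hm1 n)) (hm2 (n + 1)) (F.neg_mem (hm1 (n + 1)))
      (F.mul_mem (orb2_sg n) (F.add_mem (orb2_m3 hF hc ha0 ha1 n)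
        (F.mul_mem (orb2_smem hF ha2 n) (F.pow_mem hz 2))))
      (F.mul_mem (orb2_sg n) (F.sub_mem (orb2_m1 hF ha1 n)
        (F.mul_mem (F.mul_mem h2F (orb2_smem hF ha2 n)) hz)))
      (F.mul_mem (orb2_sg n) (orb2_smem hF ha2 n)) (hm2 0) (F.neg_mem (hm1 0)) (hm2 1)
      (F.neg_mem (hm1 1))
      (by
        rw [zero_mul, add_zero, ← hd n, ← hd (n + 1), ← hd0, ← hd1, hrel, hexp]
        ring)).1
  rw [zero_mul, zero_mul] at h1
  exact mul_ne_zero (mul_ne_zero (mul_ne_zero (hsg n) (orb2_sne ha n))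
    (neg_ne_zero.2 (mul_ne_zero (hse 0) (hsg 0))))
    (neg_ne_zero.2 (mul_ne_zero (hse 1) (hsg 1))) h1.symm

end Pool.Agent.H47.GD
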