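import Pool.Agent.H47.GD.Orb2
import Pool.Agent.H47.GD.Dlt

/-!
# Module Orb3a (80 lines): the relation between the defects

`t ≥ M` has the parents `p < q`, `d = dd t = x p - x q ≠ 0`, `c = ss t = (y p - y q)/(d s d)`.
`ee t a = x a s(d) + s(x a) d - (y p - y q) = d s(d) (s (x a/d) + x a/d - c)`.
`ee_ne`: if it vanished, `c = s g + g` with `g = x a / d ∈ LL t` (`a < t`), contradiction to `NI (t+1)`.
`ee_rel`: `iter_rel` with `g = x a / d`: `ε (x b/d) = (-1)^n s^[n] (ε (x a/d))`, multiply by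
`d s(d) s^[n] (d s d)`.
-/

set_option autoImplicit false

namespace Pool.Agent.H47.GD

variable {K : Type} [Field K] [CharZero K] {s : K ≃+* K} {ξ : K} {S : Sch} {x y w : ℕ → K}

/-- the defect of `a` for the vertex `t` -/
def ee (s : K ≃+* K) (S : Sch) (x y : ℕ → K) (t a : ℕ) : K :=
  x a * s (dd S x t) + s (x a) * dd S x t - (y (S.p t) - y (S.q t))

omit [CharZero K] in
private theorem orb3a_ss {t : ℕ} (htM : S.M ≤ t) :
    ss s ξ S x y t = (y (S.p t) - y (S.q t)) / (dd S x t * s (dd S x t)) := by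
  have h : ¬ t < S.M := not_lt.mpr htM
  simp only [ss, dd, sp, if_neg h]

omit [CharZero K] in
private theorem orb3a_ee {t : ℕ} (hd : dd S x t ≠ 0) (htM : S.M ≤ t) (a : ℕ) :
    ee s S x y t a = (s (x a / dd S x t) + x a / dd S x t - ss s ξ S x y t) *
      (dd S x t * s (dd S x t)) := by
  have hs : s (dd S x t) ≠ 0 := (map_ne_zero s).mpr hd
  rw [orb3a_ss (s := s) (ξ := ξ) (y := y) htM, map_div₀, ee]
  field_simp
  ring

theorem ee_ne (T : Tow s ξ S x y w) {t : ℕ} (hNI : NI s ξ S x y w (t + 1)) (htN : t < S.N)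
    (htM : S.M ≤ t) {a : ℕ} (ha : a < t) : ee s S x y t a ≠ 0 := by
  intro h0
  have hd : dd S x t ≠ 0 := T.dd_ne hNI (Nat.le_succ t) htN
  have hs : s (dd S x t) ≠ 0 := (map_ne_zero s).mpr hd
  rw [orb3a_ee (ξ := ξ) hd htM a] at h0
  have h1 : s (x a / dd S x t) + x a / dd S x t - ss s ξ S x y t = 0 := by
    rcases mul_eq_zero.mp h0 with h | h
    · exact h
    · exact absurd h (mul_ne_zero hd hs)
  exact hNI t (Nat.lt_succ_self t) htN ⟨x a / dd S x t,
    (LL s ξ w t).div_mem (T.x_mem htN.le ha) (T.dd_mem htN), sub_eq_zero.mp h1⟩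

theorem ee_rel (T : Tow s ξ S x y w) {t : ℕ} (hNI : NI s ξ S x y w (t + 1)) (htN : t < S.N)
    (htM : S.M ≤ t) {a b n : ℕ} (ha : a < t) (hb : b < t)
    (h : (ta s (ss s ξ S x y t))^[n] (x a / dd S x t) = x b / dd S x t) :
    ee s S x y t b * s^[n] (dd S x t) * s^[n + 1] (dd S x t) =
      (-1) ^ n * s^[n] (ee s S x y t a) * dd S x t * s (dd S x t) := by
  have hd : dd S x t ≠ 0 := T.dd_ne hNI (Nat.le_succ t) htN
  have h1 := iter_rel (s := s) (c := ss s ξ S x y t) (x a / dd S x t) n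
  rw [h] at h1
  rw [orb3a_ee (ξ := ξ) hd htM a, orb3a_ee (ξ := ξ) hd htM b, h1, iterate_map_mul,
    iterate_map_mul, Function.iterate_succ_apply]
  ring

end Pool.Agent.H47.GD
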