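import Pool.Agent.H47.GD.Dlt

/-!
# Module Ratio (100 lines): the quotient of two values of the form is not constant

`t` has the parents `p < q`, `a < t` is not adjacent to `p` and to `q` (`a = p` or `a = q` allowed).
Suppose `dl a q = λ dl a p`, `s λ = λ`.
(i) `a > q`: `dl_lin` for `z = a`, `b = q` and `b = p`; `w a` is transcendental over `LL a`
(`Tow.w_nmem` suffices), so the coefficients satisfy `k_q = λ k_p`: with `d = dd a`, `x0 = x0 a`,
`e = (x q - x0) - λ (x p - x0)`: `d s(e) - s(d) e = 0` (`s λ = λ`), so `κ = e/d` is constant and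
`x q = λ x p + (1 - λ) x0 + κ d` with `x0 = 0`, `d = 1` (`a < M`) or `x0 = x (p a)`,
`d = x (p a) - x (q a)`, and `q ≠ p`, `q ≠ p a`, `q ≠ q a` (not adjacent): contradiction to
`x_ne_lin`.
(ii) `a < q`: `dl q a ∉ LL q` by `dl_nmem`, but `λ dl a p ∈ LL q` (all of `x a`, `y a`, `x p`, `y p`,
their images under `s` and `λ` are in `LL q`).
(iii) `a = q`: `dl q q = λ dl q p` is affine in `w q` by `dl_lin`, contradiction to `dl_self`.
-/

set_option autoImplicit false

namespace Pool.Agent.H47.GD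

variable {K : Type} [Field K] [CharZero K] {s : K ≃+* K} {ξ : K} {S : Sch} {x y w : ℕ → K}

theorem ratio (T : Tow s ξ S x y w) {t : ℕ} (hNI : NI s ξ S x y w t) (htN : t < S.N)
    (htM : S.M ≤ t) {a : ℕ} (ha : a < t) (hp : ¬ S.Adj a (S.p t)) (hq : ¬ S.Adj a (S.q t)) :
    ∀ l ∈ Cst s, dl s x y a (S.q t) ≠ l * dl s x y a (S.p t) := by
  intro l hl heq
  have htN' : t ≤ S.N := htN.le
  have hpq : S.p t < S.q t := S.hpq t htM htN
  have hqt : S.q t < t := S.hqj t htM htN
  have hls : s l = l := hl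
  obtain ⟨p, hpd⟩ : ∃ p, p = S.p t := ⟨_, rfl⟩
  obtain ⟨q, hqd⟩ : ∃ q, q = S.q t := ⟨_, rfl⟩
  rw [← hpd] at hp hpq heq
  rw [← hqd] at hq hpq hqt heq
  have hpt : p < t := hpq.trans hqt
  rcases lt_trichotomy a q with haq | haq | haq
  · -- `a < q`
    have hqN : q ≤ S.N := hqt.le.trans htN'
    have h1 : dl s x y q a ∉ LL s ξ w q :=
      dl_nmem T hNI htN' hqt haq (fun h => hq (Sch.adj_comm.1 h))
    apply h1
    rw [dl_comm, heq]
    have hst := T.stb hqN
    have xa := T.x_mem hqN haq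
    have xp := T.x_mem hqN hpq
    have ya := T.y_mem hqN haq
    have yp := T.y_mem hqN hpq
    refine (LL s ξ w q).mul_mem (cst_le_LL q hl) ?_
    unfold dl
    exact (LL s ξ w q).sub_mem ((LL s ξ w q).sub_mem ((LL s ξ w q).add_mem
      ((LL s ξ w q).mul_mem xa ((hst _).2 xp)) ((LL s ξ w q).mul_mem ((hst _).2 xa) xp)) ya) yp
  · -- `a = q`
    subst haq
    have haN : a < S.N := lt_of_lt_of_le ha htN'
    obtain ⟨m, hm, h1⟩ := dl_lin T haN hpq
    have hst := T.stb haN.le
    have hd := T.dd_mem haN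
    have xp := T.x_mem haN.le hpq
    have hx0 : x0 S x a ∈ LL s ξ w a := by
      unfold x0
      split_ifs with hM
      · exact (LL s ξ w a).zero_mem
      · have hM' : S.M ≤ a := not_lt.1 hM
        exact T.x_mem haN.le ((S.hpq a hM' haN).trans (S.hqj a hM' haN))
    have hk : dd S x a * s (x p - x0 S x a) - s (dd S x a) * (x p - x0 S x a) ∈ LL s ξ w a :=
      (LL s ξ w a).sub_mem ((LL s ξ w a).mul_mem hd ((hst _).2 ((LL s ξ w a).sub_mem xp hx0)))
        ((LL s ξ w a).mul_mem ((hst _).2 hd) ((LL s ξ w a).sub_mem xp hx0))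
    refine dl_self T hNI htN' ha _ ((LL s ξ w a).mul_mem (cst_le_LL a hl) hk) _
      ((LL s ξ w a).mul_mem (cst_le_LL a hl) hm) ?_
    rw [heq, h1]
    ring
  · -- `q < a`
    have haN : a < S.N := lt_of_lt_of_le ha htN'
    obtain ⟨mq, hmq, h1⟩ := dl_lin T haN haq
    obtain ⟨mp, hmp, h2⟩ := dl_lin T haN (hpq.trans haq)
    have hst := T.stb haN.le
    have hd := T.dd_mem haN
    have xq := T.x_mem haN.le haq
    have xp := T.x_mem haN.le (hpq.trans haq)
    have hx0 : x0 S x a ∈ LL s ξ w a := by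
      unfold x0
      split_ifs with hM
      · exact (LL s ξ w a).zero_mem
      · have hM' : S.M ≤ a := not_lt.1 hM
        exact T.x_mem haN.le ((S.hpq a hM' haN).trans (S.hqj a hM' haN))
    have hkq : dd S x a * s (x q - x0 S x a) - s (dd S x a) * (x q - x0 S x a) ∈ LL s ξ w a :=
      (LL s ξ w a).sub_mem ((LL s ξ w a).mul_mem hd ((hst _).2 ((LL s ξ w a).sub_mem xq hx0)))
        ((LL s ξ w a).mul_mem ((hst _).2 hd) ((LL s ξ w a).sub_mem xq hx0))
    have hkp : dd S x a * s (x p - x0 S x a) - s (dd S x a) * (x p - x0 S x a) ∈ LL s ξ w a :=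
      (LL s ξ w a).sub_mem ((LL s ξ w a).mul_mem hd ((hst _).2 ((LL s ξ w a).sub_mem xp hx0)))
        ((LL s ξ w a).mul_mem ((hst _).2 hd) ((LL s ξ w a).sub_mem xp hx0))
    rw [h1, h2] at heq
    obtain ⟨kq, hkqd⟩ : ∃ kq, kq = dd S x a * s (x q - x0 S x a) -
      s (dd S x a) * (x q - x0 S x a) := ⟨_, rfl⟩
    obtain ⟨kp, hkpd⟩ : ∃ kp, kp = dd S x a * s (x p - x0 S x a) -
      s (dd S x a) * (x p - x0 S x a) := ⟨_, rfl⟩
    rw [← hkqd] at hkq heq
    rw [← hkpd] at hkp heq
    have hk0 : kq - l * kp = 0 := by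
      by_contra hne
      apply T.w_nmem hNI ha haN
      have e1 : w a = (l * mp - mq) / (kq - l * kp) := by
        rw [eq_div_iff hne]
        linear_combination heq
      rw [e1]
      exact (LL s ξ w a).div_mem
        ((LL s ξ w a).sub_mem ((LL s ξ w a).mul_mem (cst_le_LL a hl) hmp) hmq)
        ((LL s ξ w a).sub_mem hkq ((LL s ξ w a).mul_mem (cst_le_LL a hl) hkp))
    have hdne : dd S x a ≠ 0 := T.dd_ne hNI ha.le haN
    have hsd : s (dd S x a) ≠ 0 := fun h0 => hdne ((map_eq_zero s).1 h0)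
    obtain ⟨e, he⟩ : ∃ e, e = (x q - x0 S x a) - l * (x p - x0 S x a) := ⟨_, rfl⟩
    have hse : s e = s (x q - x0 S x a) - l * s (x p - x0 S x a) := by
      rw [he, map_sub, map_mul, hls]
    have hcross : dd S x a * s e = s (dd S x a) * e := by
      rw [hse, he]
      have h3 := hk0
      rw [hkqd, hkpd] at h3
      linear_combination h3
    have hκ : e / dd S x a ∈ Cst s := by
      rw [mem_Cst, map_div₀, div_eq_div_iff hsd hdne]
      linear_combination hcross
    have hxq : x q = l * x p + (1 - l) * x0 S x a + e / dd S x a * dd S x a := by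
      rw [div_mul_cancel₀ _ hdne, he]
      ring
    have h1C : (1 : K) ∈ Cst s := (Cst s).one_mem
    have h0C : (0 : K) ∈ Cst s := (Cst s).zero_mem
    by_cases hM : a < S.M
    · have e1 : x0 S x a = 0 := if_pos hM
      have e2 : dd S x a = 1 := if_pos hM
      refine x_ne_lin T hNI htN' (q := q) (a1 := p) (a2 := p) (a3 := p) hqt hpt hpt hpt hpq.ne'
        hpq.ne' hpq.ne' (c1 := l) (c2 := 0) (c3 := 0) (c4 := e / dd S x a) hl h0C h0C hκ ?_
      rw [hxq, e1]
      rw [show e / dd S x a * dd S x a = e / dd S x a by rw [e2, mul_one]]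
      ring
    · have hM' : S.M ≤ a := not_lt.1 hM
      have e1 : x0 S x a = x (S.p a) := if_neg hM
      have e2 : dd S x a = x (S.p a) - x (S.q a) := if_neg hM
      have hqa := S.hqj a hM' haN
      have hpa := (S.hpq a hM' haN).trans hqa
      have n2 : q ≠ S.p a := fun h => hq (Or.inr ⟨hM', haN, Or.inl h⟩)
      have n3 : q ≠ S.q a := fun h => hq (Or.inr ⟨hM', haN, Or.inr h⟩)
      refine x_ne_lin T hNI htN' (q := q) (a1 := p) (a2 := S.p a) (a3 := S.q a) hqt hpt
        (hpa.trans ha) (hqa.trans ha) hpq.ne' n2 n3 (c1 := l) (c2 := 1 - l + e / dd S x a)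
        (c3 := -(e / dd S x a)) (c4 := 0) hl
        ((Cst s).add_mem ((Cst s).sub_mem h1C hl) hκ) ((Cst s).neg_mem hκ) h0C ?_
      rw [hxq, e1]
      obtain ⟨κ, hκd⟩ : ∃ κ, κ = e / dd S x a := ⟨_, rfl⟩
      rw [← hκd, e2]
      ring

end Pool.Agent.H47.GD
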