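import Pool.Agent.H47.GD.TrA

/-!
# Module Res (200 lines): the residue lemma

Let `s w + w = c`, `c ∈ F` not in the image of `F`, `τ π = c - s π` (`ta s c`). Let `ω a ∈ F`, `a ∈ A`,
be different, with `τ^n (ω a) ≠ ω b` for `n ≥ 1` (`a = b` included: `ta_iter_ne`). Suppose
`R = R0 + ∑_{a ∈ A} κ a (n0 a + n1 a w) / ((w - ω a)(w - τ (ω a)))` is `s g + g` with `g ∈ F(w)`.
Then for every `a` with `κ a ≠ 0`:
`s ((n0 a + n1 a ω a)/(ω a - τ (ω a))) = (n0 a + n1 a τ (ω a))/(ω a - τ (ω a))`.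

PROOF. `w` is transcendental over `F`. Regular at `π` means `∃ v, Val F w π _ v`. By `Val.sigma`,
`Val.of_sigma` (with `α = -1`, `β = c`, `(s π - c)/(-1) = τ π`): `g` regular at `π` iff `s g` regular at
`τ π`. `R` is regular at every `π ∈ F` different from all `ω b`, `τ (ω b)`. So if `τ π` is such a point,
then `g` is regular at `τ π` iff `s g = R - g` is, iff `g` is regular at `π`. Fix `a`. The points
`π_i = τ^i (ω a)` for `i ≥ 0` and `π_(-i) = ` the preimages (`τ^i (π_(-i)) = ω a`, exist in `F`: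
`τ⁻¹ π = s.symm (c - π)`) are pairwise different (`ta_iter_ne`, injectivity), and for `i ∉ {0, 1}` the
point `π_i` is not one of `ω b`, `τ (ω b)` (hypothesis for `a`, `b` and for `b`, `a`). As `g` has only
finitely many poles (`finite_poles`): `g` is regular at `π_i` for all `i ≤ -1` and for all `i ≥ 1`.
At `π_0 = ω a`: `s g` is regular (`g` is at `π_(-1)`); `(w - ω a) R` is regular with the value
`V = κ a (n0 a + n1 a ω a)/(ω a - τ (ω a))` (the other terms are regular, and get the factor `0`); so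
`(w - ω a) g = (w - ω a) R - (w - ω a) s g` is regular at `ω a` with value `V`.
Apply `s`: `s ((w - ω a) g) = -(w - τ (ω a)) s g` is regular at `τ (ω a)` with value `s V`. At
`τ (ω a)`: `g` is regular (`π_1`), `(w - τ(ω a)) R` has the value `κ a (n0 a + n1 a τ(ω a))/(τ(ω a) - ω a)`,
so `-(s V) = κ a (n0 a + n1 a τ(ω a))/(τ(ω a) - ω a)` by `Val.eq`. Cancel `κ a = s (κ a) ≠ 0`.
-/

set_option autoImplicit false

namespace Pool.Agent.H47.GD

open Polynomial

variable {K : Type} [Field K] {F : Subfield K} {s : K ≃+* K} {c w : K}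

private lemma Res_sig (hF : Stb s F) (hc : c ∈ F) (hw : s w + w = c) {π g v : K}
    (h : Val F w π g v) : Val F w (ta s c π) (s g) (s v) := by
  have h1 : s w = (-1) * w + c := by rw [← hw]; ring
  have h2 := h.sigma hF (F.neg_mem F.one_mem) hc (neg_ne_zero.2 one_ne_zero) h1
  have e : (s π - c) / (-1) = ta s c π := by unfold ta; ring
  rwa [e] at h2

private lemma Res_osig (hF : Stb s F) (hc : c ∈ F) (hw : s w + w = c) {π g v : K}
    (h : Val F w (ta s c π) (s g) v) : ∃ v, Val F w π g v := by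
  have h1 : s w = (-1) * w + c := by rw [← hw]; ring
  have e : (s π - c) / (-1) = ta s c π := by unfold ta; ring
  rw [← e] at h
  exact h.of_sigma hF (F.neg_mem F.one_mem) hc (neg_ne_zero.2 one_ne_zero) h1

private lemma Res_term (ht : Tr F w) {π o t k m0 m1 : K} (ho : o ∈ F) (ht' : t ∈ F) (hk : k ∈ F)
    (h0 : m0 ∈ F) (h1 : m1 ∈ F) (hp : π ≠ o) (hq : π ≠ t) :
    ∃ v, Val F w π (k * ((m0 + m1 * w) / ((w - o) * (w - t)))) v := by
  refine ⟨_, (val_const hk).mul (((val_const h0).add ((val_const h1).mul val_self)).div ht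
    ((val_self.sub (val_const ho)).mul (val_self.sub (val_const ht'))) ?_)⟩
  exact mul_ne_zero (sub_ne_zero.2 hp) (sub_ne_zero.2 hq)

/-- the backward orbit -/
private def Res_u (s : K ≃+* K) (c o : K) : ℕ → K
  | 0 => o
  | n + 1 => s.symm (c - Res_u s c o n)

private lemma Res_ta_u (s : K ≃+* K) (c o : K) (n : ℕ) :
    ta s c (Res_u s c o (n + 1)) = Res_u s c o n := by
  unfold ta
  rw [Res_u]
  rw [RingEquiv.apply_symm_apply]
  ring

private lemma Res_iter_u (s : K ≃+* K) (c o : K) (m n : ℕ) :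
    (ta s c)^[n] (Res_u s c o (m + n)) = Res_u s c o m := by
  induction n with
  | zero => rfl
  | succ n ih =>
    rw [Function.iterate_succ_apply, ← Nat.add_assoc, Res_ta_u, ih]

private lemma Res_reg {g : K} (hg : g ∈ Fx F w) (f : ℕ → K) (hf : Function.Injective f)
    (hstep : ∀ i, (∃ v, Val F w (f (i + 1)) g v) → ∃ v, Val F w (f i) g v) :
    ∃ v, Val F w (f 0) g v := by
  have hfin := (finite_poles hg).preimage hf.injOn
  obtain ⟨i, hi⟩ := hfin.exists_notMem
  simp only [Set.mem_preimage, Set.mem_setOf_eq, not_not] at hi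
  induction i with
  | zero => exact hi
  | succ n ih => exact ih (hstep n hi)

private lemma Res_pole (A : Finset ℕ) (T : ℕ → K) {R0 : K} (hR0 : R0 ∈ F) {a : ℕ}
    (ha : a ∈ A) {π : K} (hπ : π ∈ F) {V : K} (hT : ∀ b ∈ A, b ≠ a → ∃ v, Val F w π (T b) v)
    (hV : Val F w π ((w - π) * T a) V) :
    Val F w π ((w - π) * (R0 + ∑ b ∈ A, T b)) V := by
  classical
  choose! u hu using hT
  have h1 : Val F w π (∑ b ∈ A.erase a, T b) (∑ b ∈ A.erase a, u b) :=
    Val.sum fun b hb => hu b (Finset.mem_of_mem_erase hb) (Finset.ne_of_mem_erase hb)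
  have h2 : Val F w π (w - π) (π - π) := val_self.sub (val_const hπ)
  have h3 := hV.add (h2.mul ((val_const hR0).add h1))
  have e1 : (w - π) * (R0 + ∑ b ∈ A, T b) =
      (w - π) * T a + (w - π) * (R0 + ∑ b ∈ A.erase a, T b) := by
    rw [← Finset.add_sum_erase A T ha]
    ring
  have e2 : V = V + (π - π) * (R0 + ∑ b ∈ A.erase a, u b) := by ring
  rw [e1, e2]
  exact h3

theorem residue [CharZero K] (hF : Stb s F) (hc : c ∈ F) (hw : s w + w = c) (hn : ¬ Im s F c)
    (hC : Cst s ≤ F) (A : Finset ℕ) (ω κ n0 n1 : ℕ → K) (R0 : K) (hR0 : R0 ∈ F)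
    (hω : ∀ a ∈ A, ω a ∈ F) (hκ : ∀ a ∈ A, κ a ∈ Cst s) (hn0 : ∀ a ∈ A, n0 a ∈ F)
    (hn1 : ∀ a ∈ A, n1 a ∈ F) (hinj : ∀ a ∈ A, ∀ b ∈ A, a ≠ b → ω a ≠ ω b)
    (horb : ∀ a ∈ A, ∀ b ∈ A, a ≠ b → ∀ n, 0 < n → (ta s c)^[n] (ω a) ≠ ω b)
    (him : Im s (Fx F w) (R0 + ∑ a ∈ A, κ a * ((n0 a + n1 a * w) /
      ((w - ω a) * (w - ta s c (ω a)))))) :
    ∀ a ∈ A, κ a ≠ 0 → s ((n0 a + n1 a * ω a) / (ω a - ta s c (ω a))) =
      (n0 a + n1 a * ta s c (ω a)) / (ω a - ta s c (ω a)) := by
  intro a ha hka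
  have ht : Tr F w := tr_of_not_im hF hc hw hn
  obtain ⟨g, hg, hgR⟩ := him
  have hτ : ∀ b ∈ A, ta s c (ω b) ∈ F := fun b hb => (ta_mem hF hc).2 (hω b hb)
  -- no iterate of a point `ω b` returns to a point `ω b'`
  have hall : ∀ b ∈ A, ∀ b' ∈ A, ∀ n, 0 < n → (ta s c)^[n] (ω b) ≠ ω b' := by
    intro b hb b' hb' n h0
    by_cases h : b = b'
    · subst h
      exact ta_iter_ne hF hc hn (hω b hb) h0
    · exact horb b hb b' hb' h n h0
  set T : ℕ → K := fun b => κ b * ((n0 b + n1 b * w) / ((w - ω b) * (w - ta s c (ω b)))) with hT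
  have hterm : ∀ b ∈ A, ∀ π : K, π ≠ ω b → π ≠ ta s c (ω b) → ∃ v, Val F w π (T b) v :=
    fun b hb π h1 h2 => Res_term ht (hω b hb) (hτ b hb) (hC (hκ b hb)) (hn0 b hb) (hn1 b hb) h1 h2
  have hRreg : ∀ π : K, (∀ b ∈ A, π ≠ ω b ∧ π ≠ ta s c (ω b)) →
      ∃ v, Val F w π (R0 + ∑ b ∈ A, T b) v := by
    intro π h
    have h1 : ∀ b ∈ A, ∃ v, Val F w π (T b) v := fun b hb => hterm b hb π (h b hb).1 (h b hb).2
    choose! u hu using h1
    exact ⟨_, (val_const hR0).add (Val.sum hu)⟩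
  have hsg : s g = (R0 + ∑ b ∈ A, T b) - g := by rw [← hgR]; ring
  have hg' : g = (R0 + ∑ b ∈ A, T b) - s g := by rw [← hgR]; ring
  -- transport of regularity along `π ↦ τ π`
  have hfw : ∀ π : K, (∀ b ∈ A, ta s c π ≠ ω b ∧ ta s c π ≠ ta s c (ω b)) →
      (∃ v, Val F w (ta s c π) g v) → ∃ v, Val F w π g v := by
    rintro π h ⟨v, hv⟩
    obtain ⟨r, hr⟩ := hRreg _ h
    have h1 : Val F w (ta s c π) (s g) (r - v) := by
      rw [hsg]
      exact hr.sub hv
    exact Res_osig hF hc hw h1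
  have hbw : ∀ π : K, (∀ b ∈ A, ta s c π ≠ ω b ∧ ta s c π ≠ ta s c (ω b)) →
      (∃ v, Val F w π g v) → ∃ v, Val F w (ta s c π) g v := by
    rintro π h ⟨v, hv⟩
    obtain ⟨r, hr⟩ := hRreg _ h
    have h1 := hr.sub (Res_sig hF hc hw hv)
    rw [← hg'] at h1
    exact ⟨_, h1⟩
  -- the forward orbit
  have hreg1 : ∃ v, Val F w (ta s c (ω a)) g v := by
    have h1 := Res_reg hg (fun i => (ta s c)^[i + 1] (ω a)) (fun i j hij => by
      have := ta_iter_inj hF hc hn (hω a ha) hij
      omega) (fun i hi => by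
        have e : (ta s c)^[i + 1 + 1] (ω a) = ta s c ((ta s c)^[i + 1] (ω a)) :=
          Function.iterate_succ_apply' _ _ _
        refine hfw _ (fun b hb => ?_) (by rw [← e]; exact hi)
        rw [← e]
        refine ⟨hall a ha b hb _ (by omega), fun h => ?_⟩
        rw [e] at h
        exact hall a ha b hb (i + 1) (by omega) (ta_inj h))
    exact h1
  -- the backward orbit
  have hunp : ∀ i, 0 < i → ∀ b ∈ A, Res_u s c (ω a) i ≠ ω b ∧
      Res_u s c (ω a) i ≠ ta s c (ω b) := by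
    intro i hi b hb
    have h1 := Res_iter_u s c (ω a) 0 i
    rw [Nat.zero_add] at h1
    constructor
    · intro h
      rw [h] at h1
      exact hall b hb a ha i hi h1
    · intro h
      rw [h, ← Function.iterate_succ_apply] at h1
      exact hall b hb a ha (i + 1) (by omega) h1
  have huinj : ∀ m n, m < n → Res_u s c (ω a) m ≠ Res_u s c (ω a) n := by
    intro m n hmn h
    obtain ⟨l, rfl⟩ : ∃ l, n = (l + 1) + m := ⟨n - m - 1, by omega⟩
    have h1 := Res_iter_u s c (ω a) 0 m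
    have h2 := Res_iter_u s c (ω a) (l + 1) m
    rw [Nat.zero_add, h, h2] at h1
    exact (hunp (l + 1) (by omega) a ha).1 h1
  have hregm : ∃ v, Val F w (Res_u s c (ω a) 1) g v := by
    have h1 := Res_reg hg (fun i => Res_u s c (ω a) (i + 1)) (fun i j hij => by
      rcases lt_trichotomy i j with h | h | h
      · exact absurd hij (huinj _ _ (by omega))
      · exact h
      · exact absurd hij.symm (huinj _ _ (by omega))) (fun i hi => by
        have e := Res_ta_u s c (ω a) (i + 1)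
        have h2 := hbw (Res_u s c (ω a) (i + 1 + 1)) (fun b hb => by
          rw [e]
          exact hunp (i + 1) (by omega) b hb) hi
        rw [e] at h2
        exact h2)
    exact h1
  -- values at `ω a`
  have hwne : ∀ π ∈ F, w - π ≠ 0 := by
    intro π hπ h
    have h1 := ht (X - C π) ((PP F).sub_mem X_mem_PP (C_mem_PP hπ)) (by simp [h])
    exact X_sub_C_ne_zero π h1
  have hne : ω a ≠ ta s c (ω a) := fun h => hall a ha a ha 1 one_pos h.symm
  have hk := hC (hκ a ha)
  obtain ⟨v0, hv0⟩ := hregm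
  have hs0 := Res_sig hF hc hw hv0
  rw [Res_ta_u] at hs0
  have hs0' : Val F w (ω a) (s g) (s v0) := hs0
  have hV : Val F w (ω a) ((w - ω a) * T a)
      (κ a * ((n0 a + n1 a * ω a) / (ω a - ta s c (ω a)))) := by
    have e : (w - ω a) * T a = κ a * ((n0 a + n1 a * w) / (w - ta s c (ω a))) := by
      have h1 := hwne _ (hω a ha)
      have h2 := hwne _ (hτ a ha)
      rw [hT]
      field_simp
    rw [e]
    exact (val_const hk).mul (((val_const (hn0 a ha)).add ((val_const (hn1 a ha)).mul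
      val_self)).div ht (val_self.sub (val_const (hτ a ha))) (sub_ne_zero.2 hne))
  have hRa := Res_pole A T hR0 ha (hω a ha) (fun b hb hba => hterm b hb _
    (hinj a ha b hb (Ne.symm hba)) (fun h => hall b hb a ha 1 one_pos h.symm)) hV
  have hga : Val F w (ω a) ((w - ω a) * g)
      (κ a * ((n0 a + n1 a * ω a) / (ω a - ta s c (ω a)))) := by
    have h1 := hRa.sub ((val_self.sub (val_const (hω a ha))).mul hs0')
    have e1 : (w - ω a) * g = (w - ω a) * (R0 + ∑ b ∈ A, T b) - (w - ω a) * s g := by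
      rw [← hgR]
      ring
    rw [e1]
    have e2 : κ a * ((n0 a + n1 a * ω a) / (ω a - ta s c (ω a))) -
      (ω a - ω a) * s v0 = κ a * ((n0 a + n1 a * ω a) / (ω a - ta s c (ω a))) := by ring
    rw [e2] at h1
    exact h1
  have hsa := Res_sig hF hc hw hga
  -- values at `τ (ω a)`
  obtain ⟨v1, hv1⟩ := hreg1
  have hne' : ta s c (ω a) - ω a ≠ 0 := sub_ne_zero.2 (Ne.symm hne)
  have hV2 : Val F w (ta s c (ω a)) ((w - ta s c (ω a)) * T a)
      (κ a * ((n0 a + n1 a * ta s c (ω a)) / (ta s c (ω a) - ω a))) := by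
    have e : (w - ta s c (ω a)) * T a = κ a * ((n0 a + n1 a * w) / (w - ω a)) := by
      have h1 := hwne _ (hω a ha)
      have h2 := hwne _ (hτ a ha)
      rw [hT]
      field_simp
    rw [e]
    exact (val_const hk).mul (((val_const (hn0 a ha)).add ((val_const (hn1 a ha)).mul
      val_self)).div ht (val_self.sub (val_const (hω a ha))) hne')
  have hRb := Res_pole A T hR0 ha (hτ a ha) (fun b hb hba => hterm b hb _
    (fun h => hall a ha b hb 1 one_pos h) (fun h => hinj a ha b hb (Ne.symm hba) (ta_inj h))) hV2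
  have hgb : Val F w (ta s c (ω a)) (s ((w - ω a) * g))
      (-(κ a * ((n0 a + n1 a * ta s c (ω a)) / (ta s c (ω a) - ω a)))) := by
    have h1 := (hRb.sub ((val_self.sub (val_const (hτ a ha))).mul hv1)).neg
    have e1 : s ((w - ω a) * g) =
        -((w - ta s c (ω a)) * (R0 + ∑ b ∈ A, T b) - (w - ta s c (ω a)) * g) := by
      have h2 : s w = c - w := by rw [← hw]; ring
      rw [← hgR, map_mul, map_sub, h2]
      unfold ta
      ring
    rw [e1]
    have e2 : -(κ a * ((n0 a + n1 a * ta s c (ω a)) / (ta s c (ω a) - ω a)) -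
      (ta s c (ω a) - ta s c (ω a)) * v1) =
        -(κ a * ((n0 a + n1 a * ta s c (ω a)) / (ta s c (ω a) - ω a))) := by ring
    rw [e2] at h1
    exact h1
  have hfin := Val.eq ht hsa hgb
  rw [map_mul, mem_Cst.1 (hκ a ha)] at hfin
  have e3 : -(κ a * ((n0 a + n1 a * ta s c (ω a)) / (ta s c (ω a) - ω a))) =
      κ a * ((n0 a + n1 a * ta s c (ω a)) / (ω a - ta s c (ω a))) := by
    rw [← mul_neg, ← div_neg, neg_sub]
  rw [e3] at hfin
  exact mul_left_cancel₀ hka hfin

end Pool.Agent.H47.GD
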