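import Pool.Agent.H47.GD.Dlt

/-!
# Module SpForm (160 lines): the classes `sp a t` in the last variable

`d = dd t ≠ 0`, `c = ss t`, `v = w t`, `ω = x a / d`, `τ ω = c - s ω` (`ta s c ω`), `ε = ω - τ ω =
s ω + ω - c ≠ 0` (else `c` is in the image of `LL t`, contradiction to `NI (t+1)`).
`x a - x t = d (ω - v)`, `s (x a - x t) = s d (s ω - c + v) = s d (v - τ ω)`, so
`sp a t = (y a - y t)/(-d s(d) (v - ω)(v - τ ω))`.
`sp_form0`, `t < M`: `d = 1`, `c = fb t`, `y a - y t = (fb a)^2 - (fb t)^2` (`a < t < M`):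
`n0 = (fb t)^2 - (fb a)^2`, `n1 = 0`, `ε = s (x a) + x a - fb t = fb a - fb t`, `n0/ε = -(fb a + fb t)`;
the equation says that `fb a + fb t` is constant: contradiction to `fb_add_nmem`.
`sp_form1`, `t ≥ M`, parents `p < q`: `y t = x t s(x p) + s(x t) x p - y p =
(d s(x p) - s d x p) v + s d c x p - y p`. So `n1 = (d s(x p) - s d x p)/(d s d)`,
`n0 = -(y a + y p - s d c x p)/(d s d)`. With `e = d s(d) ε = dl a p - dl a q`
(`= x a s(d) + s(x a) d - (y p - y q)`) one finds
`(n0 + n1 ω)/ε = -x p/d + dl a p/e` and `(n0 + n1 τ ω)/ε = -s (x p)/s d + dl a p/e`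
(`s d (c - ω) = s (x a) - e/d`, `d τ ω = x a - e / s d`). So the equation says `s (dl a p/e) = dl a p/e`;
`κ = dl a p / e` is constant and not zero, `dl a p = κ (dl a p - dl a q)`, `dl a q = (1 - κ⁻¹) dl a p`.
-/

set_option autoImplicit false

namespace Pool.Agent.H47.GD

variable {K : Type} [Field K] [CharZero K] {s : K ≃+* K} {ξ : K} {S : Sch} {x y w : ℕ → K}

/-- the common part of the two formulas -/
private theorem SpForm_gen (T : Tow s ξ S x y w) {t : ℕ} (hNI : NI s ξ S x y w (t + 1))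
    (htN : t < S.N) {a : ℕ} (ha : a < t) :
    dd S x t ≠ 0 ∧ s (dd S x t) ≠ 0 ∧
    x a / dd S x t - ta s (ss s ξ S x y t) (x a / dd S x t) ≠ 0 ∧
    ∀ n0 n1 : K, n0 + n1 * w t = (y t - y a) / (dd S x t * s (dd S x t)) →
      sp s x y a t = (n0 + n1 * w t) / ((w t - x a / dd S x t) *
        (w t - ta s (ss s ξ S x y t) (x a / dd S x t))) := by
  have hd : dd S x t ≠ 0 := T.dd_ne hNI (Nat.le_succ t) htN
  have hsd : s (dd S x t) ≠ 0 := fun h => hd (by
    rw [← map_zero s] at h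
    exact s.injective h)
  have haN : a < S.N := ha.trans htN
  refine ⟨hd, hsd, ?_, ?_⟩
  · intro h
    refine hNI t (Nat.lt_succ_self t) htN ⟨x a / dd S x t, ?_, ?_⟩
    · exact (LL s ξ w t).div_mem (T.x_mem htN.le ha) (T.dd_mem htN)
    · unfold ta at h
      linear_combination h
  · intro n0 n1 h
    have hne : x a - x t ≠ 0 := sub_ne_zero.2
      (T.x_ne hNI (ha.trans (Nat.lt_succ_self t)) (Nat.lt_succ_self t) haN htN ha.ne)
    have hsne : s (x a - x t) ≠ 0 := fun h => hne (by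
      rw [← map_zero s] at h
      exact s.injective h)
    have hw' : s (w t) = ss s ξ S x y t - w t := by
      have h1 := T.hw t htN
      linear_combination h1
    have e1 : w t - x a / dd S x t = -(x a - x t) / dd S x t := by
      rw [T.hx t htN]
      field_simp
      ring
    have e2 : w t - ta s (ss s ξ S x y t) (x a / dd S x t) = s (x a - x t) / s (dd S x t) := by
      unfold ta
      rw [map_sub, T.hx t htN, map_mul, hw', map_div₀]
      field_simp
      ring
    rw [h, e1, e2]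
    unfold sp
    field_simp
    ring

theorem sp_form0 (T : Tow s ξ S x y w) {t : ℕ} (hNI : NI s ξ S x y w (t + 1)) (htN : t < S.N)
    (htM : t < S.M) {a : ℕ} (ha : a < t) :
    ∃ n0 ∈ LL s ξ w t, ∃ n1 ∈ LL s ξ w t,
      sp s x y a t = (n0 + n1 * w t) / ((w t - x a / dd S x t) *
        (w t - ta s (ss s ξ S x y t) (x a / dd S x t))) ∧
      s ((n0 + n1 * (x a / dd S x t)) /
          (x a / dd S x t - ta s (ss s ξ S x y t) (x a / dd S x t))) ≠
        (n0 + n1 * ta s (ss s ξ S x y t) (x a / dd S x t)) /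
          (x a / dd S x t - ta s (ss s ξ S x y t) (x a / dd S x t)) := by
  obtain ⟨hd, hsd, hε, hf⟩ := SpForm_gen T hNI htN ha
  have haM : a < S.M := ha.trans htM
  have haN : a < S.N := ha.trans htN
  have hd1 : dd S x t = 1 := by
    unfold dd
    rw [if_pos htM]
  have hda : dd S x a = 1 := by
    unfold dd
    rw [if_pos haM]
  have hst : ss s ξ S x y t = fb ξ t := by
    unfold ss
    rw [if_pos htM]
  have hsa : ss s ξ S x y a = fb ξ a := by
    unfold ss
    rw [if_pos haM]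
  refine ⟨fb ξ t ^ 2 - fb ξ a ^ 2, ?_, 0, (LL s ξ w t).zero_mem, ?_, ?_⟩
  · exact (LL s ξ w t).sub_mem ((LL s ξ w t).pow_mem (fb_mem_LL t t) 2)
      ((LL s ξ w t).pow_mem (fb_mem_LL t a) 2)
  · apply hf
    rw [hd1, map_one, T.hy0 t htM, T.hy0 a haM]
    ring
  · have hxa : x a = w a := by
      rw [T.hx a haN, hda, one_mul]
    have hε2 : x a / dd S x t - ta s (ss s ξ S x y t) (x a / dd S x t) = fb ξ a - fb ξ t := by
      have h1 := T.hw a haN
      rw [hsa] at h1
      unfold ta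
      rw [hd1, div_one, hxa, hst]
      linear_combination h1
    rw [hε2] at hε ⊢
    have h1 : (fb ξ t ^ 2 - fb ξ a ^ 2 + 0 * (x a / dd S x t)) / (fb ξ a - fb ξ t) =
        -(fb ξ a + fb ξ t) := by
      rw [div_eq_iff hε]
      ring
    have h2 : (fb ξ t ^ 2 - fb ξ a ^ 2 + 0 * ta s (ss s ξ S x y t) (x a / dd S x t)) /
        (fb ξ a - fb ξ t) = -(fb ξ a + fb ξ t) := by
      rw [div_eq_iff hε]
      ring
    rw [h1, h2, map_neg]
    intro h3
    exact fb_add_nmem T.hxi ha.ne (neg_injective h3)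

theorem sp_form1 (T : Tow s ξ S x y w) {t : ℕ} (hNI : NI s ξ S x y w (t + 1)) (htN : t < S.N)
    (htM : S.M ≤ t) {a : ℕ} (ha : a < t) (h0 : dl s x y a (S.p t) ≠ 0) :
    ∃ n0 ∈ LL s ξ w t, ∃ n1 ∈ LL s ξ w t,
      sp s x y a t = (n0 + n1 * w t) / ((w t - x a / dd S x t) *
        (w t - ta s (ss s ξ S x y t) (x a / dd S x t))) ∧
      (s ((n0 + n1 * (x a / dd S x t)) /
          (x a / dd S x t - ta s (ss s ξ S x y t) (x a / dd S x t))) =
        (n0 + n1 * ta s (ss s ξ S x y t) (x a / dd S x t)) /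
          (x a / dd S x t - ta s (ss s ξ S x y t) (x a / dd S x t)) →
        ∃ l ∈ Cst s, dl s x y a (S.q t) = l * dl s x y a (S.p t)) := by
  obtain ⟨hd, hsd, hε, hf⟩ := SpForm_gen T hNI htN ha
  have hpq : S.p t < S.q t := S.hpq t htM htN
  have hqt : S.q t < t := S.hqj t htM htN
  have hpt : S.p t < t := hpq.trans hqt
  have hnM : ¬ t < S.M := not_lt.2 htM
  have hdd : dd S x t = x (S.p t) - x (S.q t) := by
    unfold dd
    rw [if_neg hnM]
  have hss : ss s ξ S x y t * (dd S x t * s (dd S x t)) = y (S.p t) - y (S.q t) := by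
    have h1 : ss s ξ S x y t = sp s x y (S.p t) (S.q t) := by
      unfold ss
      rw [if_neg hnM]
    rw [h1]
    unfold sp
    rw [← hdd]
    exact div_mul_cancel₀ _ (mul_ne_zero hd hsd)
  have hw' : s (w t) = ss s ξ S x y t - w t := by
    have h1 := T.hw t htN
    linear_combination h1
  have hyt : y t = dd S x t * w t * s (x (S.p t)) +
      s (dd S x t) * (ss s ξ S x y t - w t) * x (S.p t) - y (S.p t) := by
    rw [T.hy1 t htM htN, T.hx t htN, map_mul, hw']
  have hstb := T.stb htN.le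
  have hL := LL s ξ w t
  have mxp : x (S.p t) ∈ LL s ξ w t := T.x_mem htN.le hpt
  have msxp : s (x (S.p t)) ∈ LL s ξ w t := (hstb _).2 mxp
  have md : dd S x t ∈ LL s ξ w t := T.dd_mem htN
  have msd : s (dd S x t) ∈ LL s ξ w t := (hstb _).2 md
  have mc : ss s ξ S x y t ∈ LL s ξ w t := T.ss_mem htN
  have mya : y a ∈ LL s ξ w t := T.y_mem htN.le ha
  have myp : y (S.p t) ∈ LL s ξ w t := T.y_mem htN.le hpt
  refine ⟨(s (dd S x t) * ss s ξ S x y t * x (S.p t) - y (S.p t) - y a) /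
      (dd S x t * s (dd S x t)), ?_,
    (dd S x t * s (x (S.p t)) - s (dd S x t) * x (S.p t)) / (dd S x t * s (dd S x t)), ?_, ?_, ?_⟩
  · exact (LL s ξ w t).div_mem ((LL s ξ w t).sub_mem ((LL s ξ w t).sub_mem
      ((LL s ξ w t).mul_mem ((LL s ξ w t).mul_mem msd mc) mxp) myp) mya)
      ((LL s ξ w t).mul_mem md msd)
  · exact (LL s ξ w t).div_mem ((LL s ξ w t).sub_mem ((LL s ξ w t).mul_mem md msxp)
      ((LL s ξ w t).mul_mem msd mxp)) ((LL s ξ w t).mul_mem md msd)
  · apply hf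
    rw [hyt]
    field_simp
    ring
  · intro h
    obtain ⟨d, hd'⟩ : ∃ d, d = dd S x t := ⟨_, rfl⟩
    obtain ⟨c, hc'⟩ : ∃ c, c = ss s ξ S x y t := ⟨_, rfl⟩
    obtain ⟨xp, hxp⟩ : ∃ xp, xp = x (S.p t) := ⟨_, rfl⟩
    obtain ⟨xq, hxq⟩ : ∃ xq, xq = x (S.q t) := ⟨_, rfl⟩
    obtain ⟨D, hD⟩ : ∃ D, D = dl s x y a (S.p t) := ⟨_, rfl⟩
    obtain ⟨D', hD'⟩ : ∃ D', D' = dl s x y a (S.q t) := ⟨_, rfl⟩
    rw [← hd', ← hc', ← hxp] at h
    rw [← hd', ← hc'] at hε hss
    rw [← hd'] at hd hsd hdd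
    rw [← hxp, ← hxq] at hdd
    have hD1 : D = x a * s xp + s (x a) * xp - y a - y (S.p t) := by rw [hD, hxp]; rfl
    have hD1' : D' = x a * s xq + s (x a) * xq - y a - y (S.q t) := by rw [hD', hxq]; rfl
    have hsdd : s d = s xp - s xq := by rw [hdd, map_sub]
    unfold ta at h hε
    rw [map_div₀ s (x a) d] at h hε
    obtain ⟨ε, hεd⟩ : ∃ ε, ε = x a / d - (c - s (x a) / s d) := ⟨_, rfl⟩
    rw [← hεd] at h hε
    have he : d * s d * ε = D - D' := by
      have e1 : d * s d * ε = x a * s d + s (x a) * d - c * (d * s d) := by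
        rw [hεd]
        field_simp
        ring
      rw [e1, hss, hD1, hD1', hsdd, hdd]
      ring
    have hDD : D - D' ≠ 0 := by
      rw [← he]
      exact mul_ne_zero (mul_ne_zero hd hsd) hε
    have f1 : ((s d * c * xp - y (S.p t) - y a) / (d * s d) +
        (d * s xp - s d * xp) / (d * s d) * (x a / d)) / ε = -xp / d + D / (D - D') := by
      rw [← he, hD1]
      have e2 : ε * (d * s d) = x a * s d + s (x a) * d - c * (d * s d) := by
        rw [hεd]
        field_simp
        ring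
      field_simp
      linear_combination xp * e2
    have f2 : ((s d * c * xp - y (S.p t) - y a) / (d * s d) +
        (d * s xp - s d * xp) / (d * s d) * (c - s (x a) / s d)) / ε =
          -s xp / s d + D / (D - D') := by
      rw [← he, hD1]
      have e2 : ε * (d * s d) = x a * s d + s (x a) * d - c * (d * s d) := by
        rw [hεd]
        field_simp
        ring
      field_simp
      linear_combination s xp * e2
    rw [f1, f2, map_add, map_div₀ s (-xp) d, map_neg] at h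
    have hκ : s (D / (D - D')) = D / (D - D') := add_left_cancel h
    have hD0 : D ≠ 0 := by
      rw [hD]
      exact h0
    have hκ0 : D / (D - D') ≠ 0 := div_ne_zero hD0 hDD
    refine ⟨1 - (D / (D - D'))⁻¹, ?_, ?_⟩
    · exact (Cst s).sub_mem (Cst s).one_mem ((Cst s).inv_mem hκ)
    · rw [← hD, ← hD']
      field_simp
      ring

end Pool.Agent.H47.GD
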