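import Pool.Agent.H47.GD.LemB
import Pool.Agent.H47.GD.Res
import Pool.Agent.H47.GD.Ratio
import Pool.Agent.H47.GD.Orb
import Pool.Agent.H47.GD.SpForm

/-!
# Module Step (200 lines): the induction step

`ni_of_ind`: for `i ≤ j`, `i < N` let `i0 = Sum.inl i` (`i < M`) or `Sum.inr (p i, q i)` (`i ≥ M`). It is
available at the stage `i`: for `i ≥ M`, `p i < q i < i`, and a common neighbour `c < i` of `p i`, `q i`
besides `i` would contradict `S.NC`. `ss i = vv i0`. If `ss i` were in the image, `IndS i` with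
`T = {i0}`, `k = 1` would give `1 = 0`.
`ind_step`: `t = j`, `F = LL t`, `v = w t`, `c = ss t`. `NI (t+1)` holds. Let `T`, `k` be given at the stage
`t + 1`, `A = {a | Sum.inr (a, t) ∈ T}` (`a < t`, `a` has no common neighbour `≤ t` with `t`), `T0` the other
elements of `T`: available at the stage `t`, and different from `i0` (for `t < M`: `Sum.inl t` is not
available at `t + 1`; for `t ≥ M`: `t` is a common neighbour of `p t`, `q t`). `vv i ∈ LL t` for
`i ∈ T0`. (1) `k = 0` on `A`: write `sp a t` as in `sp_form0`/`sp_form1` (for `t ≥ M`: `a` is not adjacent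
to `p t`, because `p t` would be a common neighbour of `a` and `t`; so `dl a (p t) ≠ 0` by `dl_ne`, same for
`q t`), apply `residue` with `ω a = x a / dd t` (different by `Tow.x_ne`, orbits by `orb`, for `A` with
`k ≠ 0` or all of `A`): if `k a ≠ 0` the conclusion contradicts `sp_form0`, or `sp_form1` and `ratio`.
(2) Then `∑_{T0} k i vv i` is in the image of `Fx F v`, so by `im_of_im_Fx` there is a constant `κ` with
`∑_{T0} k i vv i - κ vv i0` in the image of `F`. `IndS t` for `T0 ∪ {i0}` gives `k = 0` on `T0`.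
-/

set_option autoImplicit false

namespace Pool.Agent.H47.GD

variable {K : Type} [Field K] [CharZero K] {s : K ≃+* K} {ξ : K} {S : Sch} {x y w : ℕ → K}

private theorem step_par (t : ℕ) (hM : S.M ≤ t) (hN : t < S.N) :
    S.Adj t (S.p t) ∧ S.Adj t (S.q t) ∧ S.Adj (S.p t) t ∧ S.Adj (S.q t) t :=
  ⟨Or.inr ⟨hM, hN, Or.inl rfl⟩, Or.inr ⟨hM, hN, Or.inr rfl⟩, Or.inl ⟨hM, hN, Or.inl rfl⟩,
    Or.inl ⟨hM, hN, Or.inr rfl⟩⟩

omit [CharZero K] in
private theorem step_i0 (s : K ≃+* K) (ξ : K) (x y : ℕ → K) (hNC : S.NC) (t : ℕ) (hN : t < S.N) :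
    ∃ i0 : ℕ ⊕ (ℕ × ℕ), InSt S t i0 ∧ ¬ InSt S (t + 1) i0 ∧
      vv s ξ x y i0 = ss s ξ S x y t := by
  rcases lt_or_ge t S.M with hM | hM
  · refine ⟨Sum.inl t, ⟨le_refl t, hM⟩, ?_, ?_⟩
    · intro h
      exact absurd h.1 (by omega)
    · unfold ss
      rw [if_pos hM]
      rfl
  · obtain ⟨h1, h2, h3, h4⟩ := step_par t hM hN
    refine ⟨Sum.inr (S.p t, S.q t), ⟨S.hpq t hM hN, S.hqj t hM hN, ?_⟩, ?_, ?_⟩
    · intro c hc hh
      exact hNC c t (S.p t) (S.q t) (by omega) (S.hpq t hM hN).ne hh.1 h1 hh.2 h2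
    · intro h
      exact h.2.2 t (by omega) ⟨h1, h2⟩
    · unfold ss
      rw [if_neg (by omega)]
      rfl

theorem ni_of_ind (T : Tow s ξ S x y w) (hNC : S.NC) {j : ℕ}
    (h : ∀ i, i < j → IndS s ξ S x y w i) : NI s ξ S x y w j := by
  intro i hi hiN him
  obtain ⟨i0, h1, _, h3⟩ := step_i0 s ξ x y hNC i hiN
  have h4 := h i hi {i0} (fun _ => 1) (by
    intro l hl
    rw [Finset.mem_singleton.1 hl]
    exact h1) (fun _ _ => (Cst s).one_mem) (by
    rw [Finset.sum_singleton, one_mul, h3]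
    exact him) i0 (Finset.mem_singleton_self i0)
  exact one_ne_zero h4

theorem residue_step (T : Tow s ξ S x y w) (hNC : S.NC) {t : ℕ} (hNI : NI s ξ S x y w (t + 1))
    (htN : t < S.N) (A : Finset ℕ) (hA : ∀ a ∈ A, a < t)
    (hA2 : ∀ a ∈ A, ∀ c, c < t → ¬ (S.Adj c a ∧ S.Adj c t)) (k : ℕ → K)
    (hk : ∀ a ∈ A, k a ∈ Cst s) (R0 : K) (hR0 : R0 ∈ LL s ξ w t)
    (him : Im s (LL s ξ w (t + 1)) (R0 + ∑ a ∈ A, k a * sp s x y a t)) :
    ∀ a ∈ A, k a = 0 := by
  classical
  have hNIt : NI s ξ S x y w t := fun i hi hiN => hNI i (by omega) hiN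
  have hd0 : dd S x t ≠ 0 := T.dd_ne hNI (Nat.le_succ t) htN
  have hform : ∀ a ∈ A, ∃ n0 ∈ LL s ξ w t, ∃ n1 ∈ LL s ξ w t,
      sp s x y a t = (n0 + n1 * w t) / ((w t - x a / dd S x t) *
        (w t - ta s (ss s ξ S x y t) (x a / dd S x t))) ∧
      s ((n0 + n1 * (x a / dd S x t)) /
          (x a / dd S x t - ta s (ss s ξ S x y t) (x a / dd S x t))) ≠
        (n0 + n1 * ta s (ss s ξ S x y t) (x a / dd S x t)) /
          (x a / dd S x t - ta s (ss s ξ S x y t) (x a / dd S x t)) := by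
    intro a ha
    rcases lt_or_ge t S.M with hM | hM
    · exact sp_form0 T hNI htN hM (hA a ha)
    · obtain ⟨_, _, h3, h4⟩ := step_par t hM htN
      have hqt : S.q t < t := S.hqj t hM htN
      have hpt : S.p t < t := (S.hpq t hM htN).trans hqt
      have hnp : ¬ S.Adj a (S.p t) := fun h => hA2 a ha (S.p t) hpt ⟨Sch.adj_comm.1 h, h3⟩
      have hnq : ¬ S.Adj a (S.q t) := fun h => hA2 a ha (S.q t) hqt ⟨Sch.adj_comm.1 h, h4⟩
      have h0 : dl s x y a (S.p t) ≠ 0 := dl_ne T hNIt htN.le (hA a ha) hpt hnp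
      obtain ⟨n0, m0, n1, m1, e1, e2⟩ := sp_form1 T hNI htN hM (hA a ha) h0
      refine ⟨n0, m0, n1, m1, e1, ?_⟩
      intro he
      obtain ⟨l, hl, hle⟩ := e2 he
      exact ratio T hNIt htN hM (hA a ha) hnp hnq l hl hle
  choose! n0 m0 n1 m1 e1 e2 using hform
  have hres := residue (T.stb htN.le) (T.ss_mem htN) (T.hw t htN) (hNI t (Nat.lt_succ_self t) htN)
    (cst_le_LL t) A (fun a => x a / dd S x t) k n0 n1 R0 hR0
    (fun a ha => div_mem (T.x_mem htN.le (hA a ha)) (T.dd_mem htN)) hk m0 m1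
    (by
      intro a ha b hb hab he
      have h1 : x a ≠ x b := T.x_ne hNIt (hA a ha) (hA b hb) ((hA a ha).trans htN)
        ((hA b hb).trans htN) hab
      apply h1
      have h2 : x a / dd S x t = x b / dd S x t := he
      rw [div_left_inj' hd0] at h2
      exact h2)
    (fun a ha b hb hab n hn => orb T hNC hNI htN (hA a ha) (hA b hb) hab hn)
    (by
      have h1 : ∑ a ∈ A, k a * ((n0 a + n1 a * w t) / ((w t - x a / dd S x t) *
          (w t - ta s (ss s ξ S x y t) (x a / dd S x t)))) = ∑ a ∈ A, k a * sp s x y a t :=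
        Finset.sum_congr rfl fun a ha => by rw [e1 a ha]
      show Im s (LL s ξ w (t + 1)) (R0 + ∑ a ∈ A, k a * ((n0 a + n1 a * w t) /
        ((w t - x a / dd S x t) * (w t - ta s (ss s ξ S x y t) (x a / dd S x t)))))
      rw [h1]
      exact him)
  intro a ha
  by_contra hka
  exact e2 a ha (hres a ha hka)

theorem ind_step (T : Tow s ξ S x y w) (hNC : S.NC) {t : ℕ} (htN : t < S.N)
    (h : ∀ i, i ≤ t → IndS s ξ S x y w i) : IndS s ξ S x y w (t + 1) := by
  classical
  intro U k hU hk him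
  have hNI : NI s ξ S x y w (t + 1) := ni_of_ind T hNC fun i hi => h i (by omega)
  obtain ⟨i0, hi1, hi2, hi3⟩ := step_i0 s ξ x y hNC t htN
  obtain ⟨f, hf⟩ : ∃ f : ℕ → ℕ ⊕ (ℕ × ℕ), ∀ a, f a = Sum.inr (a, t) :=
    ⟨fun a => Sum.inr (a, t), fun _ => rfl⟩
  have hfi : Function.Injective f := by
    intro a b hab
    rw [hf, hf] at hab
    simpa using hab
  obtain ⟨A, hAdef⟩ : ∃ A : Finset ℕ, A = (Finset.range t).filter fun a => f a ∈ U := ⟨_, rfl⟩
  obtain ⟨U0, hU0⟩ : ∃ U0 : Finset (ℕ ⊕ (ℕ × ℕ)), U0 = U \ A.image f := ⟨_, rfl⟩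
  have hAU : A.image f ⊆ U := by
    intro i hi
    obtain ⟨a, ha, rfl⟩ := Finset.mem_image.1 hi
    rw [hAdef] at ha
    exact (Finset.mem_filter.1 ha).2
  have hAI : ∀ a ∈ A, InSt S (t + 1) (Sum.inr (a, t)) := by
    intro a ha
    rw [← hf]
    exact hU _ (hAU (Finset.mem_image_of_mem f ha))
  have hsum : ∑ i ∈ U, k i * vv s ξ x y i =
      ∑ i ∈ U0, k i * vv s ξ x y i + ∑ a ∈ A, k (f a) * sp s x y a t := by
    rw [hU0, ← Finset.sum_sdiff hAU, Finset.sum_image fun a _ b _ hab => hfi hab]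
    refine congrArg _ (Finset.sum_congr rfl fun a _ => ?_)
    rw [hf]
    rfl
  -- the elements of `U0`
  have hU0t : ∀ i ∈ U0, InSt S t i ∧ vv s ξ x y i ∈ LL s ξ w t := by
    intro i hi
    rw [hU0, Finset.mem_sdiff] at hi
    obtain ⟨hiU, hiA⟩ := hi
    have hiI := hU i hiU
    rcases i with j | ⟨a, b⟩
    · exact ⟨⟨by have := hiI.1; omega, hiI.2⟩, fb_mem_LL _ _⟩
    · obtain ⟨hab, hbt, hc⟩ := hiI
      have hab' : a < b := hab
      have hbt' : b < t + 1 := hbt
      have hbne : b ≠ t := by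
        intro hbe
        apply hiA
        rw [hbe, ← hf]
        refine Finset.mem_image_of_mem f ?_
        rw [hAdef, Finset.mem_filter, Finset.mem_range, hf, ← hbe]
        exact ⟨by omega, hiU⟩
      have hbt2 : b < t := by omega
      refine ⟨⟨hab, hbt2, fun c hct => hc c (by omega)⟩, ?_⟩
      have xa := T.x_mem htN.le (hab'.trans hbt2)
      have xb := T.x_mem htN.le hbt2
      have ya := T.y_mem htN.le (hab'.trans hbt2)
      have yb := T.y_mem htN.le hbt2
      have xs : x a - x b ∈ LL s ξ w t := sub_mem xa xb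
      have sxs : s (x a - x b) ∈ LL s ξ w t := (T.stb htN.le _).2 xs
      exact div_mem (sub_mem ya yb) (mul_mem xs sxs)
  have hR0 : ∑ i ∈ U0, k i * vv s ξ x y i ∈ LL s ξ w t := by
    refine sum_mem fun i hi => ?_
    have hiU : i ∈ U := by
      rw [hU0, Finset.mem_sdiff] at hi
      exact hi.1
    exact mul_mem (cst_le_LL t (hk i hiU)) (hU0t i hi).2
  -- step 1
  have hA0 : ∀ a ∈ A, k (f a) = 0 := by
    refine residue_step T hNC hNI htN A (fun a ha => (hAI a ha).1)
      (fun a ha c hc => (hAI a ha).2.2 c (by omega)) (fun a => k (f a))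
      (fun a ha => hk _ (hAU (Finset.mem_image_of_mem f ha))) _ hR0 ?_
    rw [← hsum]
    exact him
  have hsum2 : ∑ i ∈ U, k i * vv s ξ x y i = ∑ i ∈ U0, k i * vv s ξ x y i := by
    rw [hsum, Finset.sum_eq_zero (s := A) fun a ha => by rw [hA0 a ha, zero_mul], add_zero]
  rw [hsum2] at him
  -- step 2
  obtain ⟨κ, hκ, _, hIm⟩ := im_of_im_Fx (T.stb htN.le) (T.ss_mem htN) (T.hw t htN)
    (hNI t (Nat.lt_succ_self t) htN) hR0 him
  have hi0 : i0 ∉ U0 := by
    intro hi
    rw [hU0, Finset.mem_sdiff] at hi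
    exact hi2 (hU i0 hi.1)
  have hk2 := h t (le_refl t) (insert i0 U0) (fun i => if i = i0 then -κ else k i)
    (by
      intro i hi
      rcases Finset.mem_insert.1 hi with rfl | hi
      · exact hi1
      · exact (hU0t i hi).1)
    (by
      intro i hi
      show (if i = i0 then -κ else k i) ∈ Cst s
      split_ifs with hii
      · exact neg_mem hκ
      · rcases Finset.mem_insert.1 hi with hi | hi
        · exact absurd hi hii
        · rw [hU0, Finset.mem_sdiff] at hi
          exact hk i hi.1)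
    (by
      rw [Finset.sum_insert hi0]
      have h1 : ∑ i ∈ U0, (if i = i0 then -κ else k i) * vv s ξ x y i =
          ∑ i ∈ U0, k i * vv s ξ x y i := by
        refine Finset.sum_congr rfl fun i hi => ?_
        rw [if_neg fun hii => hi0 (by rw [← hii]; exact hi)]
      rw [h1, if_pos rfl, hi3]
      have h2 : -κ * ss s ξ S x y t + ∑ i ∈ U0, k i * vv s ξ x y i =
          ∑ i ∈ U0, k i * vv s ξ x y i - κ * ss s ξ S x y t := by ring
      rw [h2]
      exact hIm)
  intro i hi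
  by_cases hiA : i ∈ A.image f
  · obtain ⟨a, ha, rfl⟩ := Finset.mem_image.1 hiA
    exact hA0 a ha
  · have hi0' : i ∈ U0 := by
      rw [hU0, Finset.mem_sdiff]
      exact ⟨hi, hiA⟩
    have h1 := hk2 i (Finset.mem_insert_of_mem hi0')
    have h2 : i ≠ i0 := fun hii => hi0 (by rw [← hii]; exact hi0')
    have h3 : (if i = i0 then -κ else k i) = 0 := h1
    rw [if_neg h2] at h3
    exact h3

end Pool.Agent.H47.GD
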