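import Pool.Agent.H47.GD.TrA
import Pool.Agent.H47.GD.Base

/-!
# Module TowB (180 lines): first properties of the tower

`L i = LL s ξ w i`. `cst_le_LL`, `LL_mono`, `w_mem`: from `le_Fx`, `self_mem_Fx`. `fb_mem_LL`: `fb_mem`.
`Tow.main`: by induction on `i ≤ N`: `L i` is stable under `s` and `s.symm` and `x j, y j ∈ L (j+1)` for
`j < i`. Start: `stb_zero`. Step `i -> i + 1`, `i < N`: the parents of `i` are `< i`, so `dd i`, `ss i`
are in `L i` (and `s` of them, by stability), `x i = dd i * w i ∈ L (i+1)`, `s (w i) = ss i - w i`,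
`y i` is in `L (i+1)` (`s (x i) = s (dd i) (ss i - w i)`). Stability of `Fx F w` when `F` is stable,
`s w = c - w`, `c ∈ F`: `s (P(w)/Q(w))` is the quotient of `(P.map s).eval (c - w)` and the same for `Q`,
which are in `Fx F w` (`eval_mem` with `PP_mono (le_Fx F w)`, the coefficients of `P.map s` are in `F`),
and the same for `s.symm`, `s.symm w = s.symm c - w`.
`NI s ξ S x y w t`: for `i < t` the right hand side is not in the image; then `Tow.tr` is
`tr_of_not_im`; `Tow.w_nmem`: `X - C (w i)` would be a polynomial relation. `Tow.x_nmem`, `Tow.x_ne`,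
`Tow.dd_ne` together by strong induction: `dd i = 1` or `x (p i) - x (q i) ≠ 0` as
`x (q i) ∉ L (q i)`, `x (p i) ∈ L (q i)`; `x i = dd i * w i ∉ L i`.
-/

set_option autoImplicit false

namespace Pool.Agent.H47.GD

open Polynomial

variable {K : Type} [Field K] {s : K ≃+* K} {ξ : K} {S : Sch} {x y w : ℕ → K}

theorem TowB_eval {F G : Subfield K} (hFG : F ≤ G) (t : K ≃+* K) (ht : ∀ a ∈ F, t a ∈ F) {v : K}
    (hv : t v ∈ G) {P : K[X]} (hP : P ∈ PP F) : t (P.eval v) ∈ G := by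
  rw [Polynomial.eval_eq_sum_range, map_sum]
  refine G.sum_mem fun i _ => ?_
  rw [map_mul, map_pow]
  exact G.mul_mem (hFG (ht _ (hP i))) (G.pow_mem hv _)

theorem TowB_map {F : Subfield K} (t : K ≃+* K) (ht : ∀ a ∈ F, t a ∈ F) {v : K}
    (hv : t v ∈ Fx F v) {x : K} (hx : x ∈ Fx F v) : t x ∈ Fx F v := by
  obtain ⟨P, hP, Q, hQ, hQ0, h⟩ := hx
  have h1 : t (P.eval v) ∈ Fx F v := TowB_eval (le_Fx F v) t ht hv hP
  have h2 : t (Q.eval v) ∈ Fx F v := TowB_eval (le_Fx F v) t ht hv hQ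
  have h3 : t (Q.eval v) ≠ 0 := fun h0 => hQ0 ((map_eq_zero t).1 h0)
  have h4 : t x = t (P.eval v) / t (Q.eval v) := by
    rw [eq_div_iff h3, ← map_mul, h]
  rw [h4]
  exact (Fx F v).div_mem h1 h2

theorem stb_Fx {F : Subfield K} (hF : Stb s F) {c v : K} (hc : c ∈ F) (hv : s v + v = c) :
    Stb s (Fx F v) := by
  have hvm : v ∈ Fx F v := self_mem_Fx F v
  have hcm : c ∈ Fx F v := le_Fx F v hc
  have hsv : s v ∈ Fx F v := by
    have : s v = c - v := by rw [← hv]; ring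
    rw [this]
    exact (Fx F v).sub_mem hcm hvm
  have htv : s.symm v ∈ Fx F v := by
    have h1 : s.symm v = s.symm c - v := by
      have h2 : s.symm (s v + v) = s.symm c := by rw [hv]
      rw [map_add, s.symm_apply_apply] at h2
      rw [← h2]; ring
    rw [h1]
    refine (Fx F v).sub_mem (le_Fx F v ?_) hvm
    exact (hF (s.symm c)).1 (by rw [s.apply_symm_apply]; exact hc)
  intro x
  constructor
  · intro hx
    have h := TowB_map s.symm (fun a ha => (hF (s.symm a)).1 (by rw [s.apply_symm_apply]; exact ha))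
      htv hx
    rwa [s.symm_apply_apply] at h
  · intro hx
    exact TowB_map s (fun a ha => (hF a).2 ha) hsv hx

theorem cst_le_LL (i : ℕ) : Cst s ≤ LL s ξ w i := by
  induction i with
  | zero => exact le_Fx _ _
  | succ i ih => exact ih.trans (le_Fx _ _)

theorem LL_mono {i k : ℕ} (h : i ≤ k) : LL s ξ w i ≤ LL s ξ w k := by
  induction k, h using Nat.le_induction with
  | base => exact le_rfl
  | succ k _ ih => exact ih.trans (le_Fx _ _)

theorem w_mem {i k : ℕ} (h : i < k) : w i ∈ LL s ξ w k := by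
  exact LL_mono (Nat.succ_le_of_lt h) (self_mem_Fx (LL s ξ w i) (w i))

theorem fb_mem_LL (i j : ℕ) : fb ξ j ∈ LL s ξ w i := by
  exact LL_mono (Nat.zero_le i)
    ((Fx (Cst s) ξ).inv_mem ((Fx (Cst s) ξ).pow_mem (self_mem_Fx (Cst s) ξ) _))

variable [CharZero K]

omit [CharZero K] in
theorem TowB_dd {i : ℕ} (hiN : i < S.N) (hx : ∀ j, j < i → x j ∈ LL s ξ w (j + 1)) :
    dd S x i ∈ LL s ξ w i := by
  unfold dd
  split_ifs with hM
  · exact (LL s ξ w i).one_mem
  · have hM' : S.M ≤ i := not_lt.1 hM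
    have hq : S.q i < i := S.hqj i hM' hiN
    have hp : S.p i < i := (S.hpq i hM' hiN).trans hq
    exact (LL s ξ w i).sub_mem (LL_mono (Nat.succ_le_of_lt hp) (hx _ hp))
      (LL_mono (Nat.succ_le_of_lt hq) (hx _ hq))

omit [CharZero K] in
theorem TowB_ss {i : ℕ} (hiN : i < S.N) (hst : Stb s (LL s ξ w i))
    (hx : ∀ j, j < i → x j ∈ LL s ξ w (j + 1)) (hy : ∀ j, j < i → y j ∈ LL s ξ w (j + 1)) :
    ss s ξ S x y i ∈ LL s ξ w i := by
  unfold ss
  split_ifs with hM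
  · exact fb_mem_LL _ _
  · have hM' : S.M ≤ i := not_lt.1 hM
    have hq : S.q i < i := S.hqj i hM' hiN
    have hp : S.p i < i := (S.hpq i hM' hiN).trans hq
    have h1 := (LL s ξ w i).sub_mem (LL_mono (Nat.succ_le_of_lt hp) (hx _ hp))
      (LL_mono (Nat.succ_le_of_lt hq) (hx _ hq))
    have h2 := (LL s ξ w i).sub_mem (LL_mono (Nat.succ_le_of_lt hp) (hy _ hp))
      (LL_mono (Nat.succ_le_of_lt hq) (hy _ hq))
    unfold sp
    exact (LL s ξ w i).div_mem h2 ((LL s ξ w i).mul_mem h1 ((hst _).2 h1))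

theorem Tow.main (T : Tow s ξ S x y w) {i : ℕ} (hi : i ≤ S.N) :
    Stb s (LL s ξ w i) ∧ ∀ j, j < i → x j ∈ LL s ξ w (j + 1) ∧ y j ∈ LL s ξ w (j + 1) := by
  induction i with
  | zero => exact ⟨stb_zero T.hxi, fun j hj => absurd hj (Nat.not_lt_zero j)⟩
  | succ i ih =>
    obtain ⟨hst, hxy⟩ := ih (Nat.le_of_succ_le hi)
    have hiN : i < S.N := hi
    have hdd : dd S x i ∈ LL s ξ w i := TowB_dd hiN fun j hj => (hxy j hj).1
    have hss : ss s ξ S x y i ∈ LL s ξ w i :=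
      TowB_ss hiN hst (fun j hj => (hxy j hj).1) fun j hj => (hxy j hj).2
    have hst' : Stb s (LL s ξ w (i + 1)) := stb_Fx hst hss (T.hw i hiN)
    have hwi : w i ∈ LL s ξ w (i + 1) := w_mem (Nat.lt_succ_self i)
    have hxi : x i ∈ LL s ξ w (i + 1) := by
      rw [T.hx i hiN]
      exact (LL s ξ w (i + 1)).mul_mem (LL_mono (Nat.le_succ i) hdd) hwi
    have hyi : y i ∈ LL s ξ w (i + 1) := by
      by_cases hM : i < S.M
      · rw [T.hy0 i hM]
        exact (LL s ξ w (i + 1)).pow_mem (fb_mem_LL _ _) 2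
      · have hM' : S.M ≤ i := not_lt.1 hM
        have hp : S.p i < i := (S.hpq i hM' hiN).trans (S.hqj i hM' hiN)
        have h1 : x (S.p i) ∈ LL s ξ w (i + 1) :=
          LL_mono (Nat.le_succ_of_le (Nat.succ_le_of_lt hp)) (hxy _ hp).1
        have h2 : y (S.p i) ∈ LL s ξ w (i + 1) :=
          LL_mono (Nat.le_succ_of_le (Nat.succ_le_of_lt hp)) (hxy _ hp).2
        rw [T.hy1 i hM' hiN]
        exact (LL s ξ w (i + 1)).sub_mem ((LL s ξ w (i + 1)).add_mem
          ((LL s ξ w (i + 1)).mul_mem hxi ((hst' _).2 h1))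
          ((LL s ξ w (i + 1)).mul_mem ((hst' _).2 hxi) h1)) h2
    refine ⟨hst', fun j hj => ?_⟩
    rcases Nat.lt_succ_iff_lt_or_eq.1 hj with h | h
    · exact hxy j h
    · rw [h]
      exact ⟨hxi, hyi⟩

theorem Tow.stb (T : Tow s ξ S x y w) {i : ℕ} (hi : i ≤ S.N) : Stb s (LL s ξ w i) := by
  exact (T.main hi).1

theorem Tow.x_mem (T : Tow s ξ S x y w) {i j : ℕ} (hi : i ≤ S.N) (hj : j < i) :
    x j ∈ LL s ξ w i := by
  exact LL_mono (Nat.succ_le_of_lt hj) ((T.main hi).2 j hj).1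

theorem Tow.y_mem (T : Tow s ξ S x y w) {i j : ℕ} (hi : i ≤ S.N) (hj : j < i) :
    y j ∈ LL s ξ w i := by
  exact LL_mono (Nat.succ_le_of_lt hj) ((T.main hi).2 j hj).2

theorem Tow.dd_mem (T : Tow s ξ S x y w) {i : ℕ} (hi : i < S.N) : dd S x i ∈ LL s ξ w i := by
  exact TowB_dd hi fun j hj => ((T.main hi.le).2 j hj).1

theorem Tow.ss_mem (T : Tow s ξ S x y w) {i : ℕ} (hi : i < S.N) :
    ss s ξ S x y i ∈ LL s ξ w i := by
  exact TowB_ss hi (T.stb hi.le) (fun j hj => ((T.main hi.le).2 j hj).1)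
    fun j hj => ((T.main hi.le).2 j hj).2

theorem Tow.tr (T : Tow s ξ S x y w) {t : ℕ} (hNI : NI s ξ S x y w t) {i : ℕ} (hi : i < t)
    (hiN : i < S.N) : Tr (LL s ξ w i) (w i) := by
  exact tr_of_not_im (T.stb hiN.le) (T.ss_mem hiN) (T.hw i hiN) (hNI i hi hiN)

theorem Tow.w_nmem (T : Tow s ξ S x y w) {t : ℕ} (hNI : NI s ξ S x y w t) {i : ℕ} (hi : i < t)
    (hiN : i < S.N) : w i ∉ LL s ξ w i := by
  intro h
  have h1 := T.tr hNI hi hiN (X - C (w i)) ((PP _).sub_mem X_mem_PP (C_mem_PP h))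
    (by rw [eval_sub, eval_X, eval_C, sub_self])
  exact X_sub_C_ne_zero (w i) h1

theorem TowB_ddn (T : Tow s ξ S x y w) {t i : ℕ} (hi : i ≤ t) (hiN : i < S.N)
    (hx : ∀ j, j < t → j < S.N → x j ∉ LL s ξ w j) : dd S x i ≠ 0 := by
  unfold dd
  split_ifs with hM
  · exact one_ne_zero
  · have hM' : S.M ≤ i := not_lt.1 hM
    have hq : S.q i < i := S.hqj i hM' hiN
    intro h0
    have h1 : x (S.p i) = x (S.q i) := sub_eq_zero.1 h0
    refine hx (S.q i) (hq.trans_le hi) (hq.trans hiN) ?_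
    rw [← h1]
    exact T.x_mem (hq.trans hiN).le (S.hpq i hM' hiN)

theorem TowB_xn (T : Tow s ξ S x y w) {t : ℕ} (hNI : NI s ξ S x y w t) (i : ℕ) (hi : i < t)
    (hiN : i < S.N) : x i ∉ LL s ξ w i := by
  induction i using Nat.strong_induction_on with
  | _ i ih =>
    have hd : dd S x i ≠ 0 :=
      TowB_ddn T (t := i) le_rfl hiN fun j hj hjN => ih j hj (hj.trans hi) hjN
    intro h
    rw [T.hx i hiN] at h
    refine T.w_nmem hNI hi hiN ?_
    have h1 := (LL s ξ w i).mul_mem ((LL s ξ w i).inv_mem (T.dd_mem hiN)) h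
    rwa [inv_mul_cancel_left₀ hd] at h1

theorem Tow.dd_ne (T : Tow s ξ S x y w) {t : ℕ} (hNI : NI s ξ S x y w t) {i : ℕ} (hi : i ≤ t)
    (hiN : i < S.N) : dd S x i ≠ 0 := by
  exact TowB_ddn T hi hiN fun j hj hjN => TowB_xn T hNI j hj hjN

theorem Tow.x_nmem (T : Tow s ξ S x y w) {t : ℕ} (hNI : NI s ξ S x y w t) {i : ℕ} (hi : i < t)
    (hiN : i < S.N) : x i ∉ LL s ξ w i := by
  exact TowB_xn T hNI i hi hiN

theorem Tow.x_ne (T : Tow s ξ S x y w) {t : ℕ} (hNI : NI s ξ S x y w t) {a b : ℕ} (ha : a < t)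
    (hb : b < t) (haN : a < S.N) (hbN : b < S.N) (hab : a ≠ b) : x a ≠ x b := by
  intro h
  rcases lt_or_gt_of_ne hab with h1 | h1
  · refine T.x_nmem hNI hb hbN ?_
    rw [← h]
    exact T.x_mem hbN.le h1
  · refine T.x_nmem hNI ha haN ?_
    rw [h]
    exact T.x_mem haN.le h1

end Pool.Agent.H47.GD
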