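import Pool.Agent.H47.GD.ValA

/-!
# Module TrA (120 lines): the new element is transcendental, orbits are infinite

`tr_of_not_im`. Let `s w + w = c`, `c ∈ F`, `c` not in the image of `g ↦ s g + g` on `F`. Suppose `w`
is a root of a nonzero polynomial with coefficients in `F`; take one of least degree `n ≥ 1`, monic,
`P = X^n + a X^(n-1) + ...` (multiply by the inverse of the leading coefficient). Then
`Q = (-1)^n ((P.map s).comp (C c - X))` is monic of degree `n`, has coefficients in `F` and
`Q(w) = (-1)^n s (P(w)) = 0` (as `s w = c - w`), so `P - Q`, of smaller degree, vanishes, `P = Q`.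
The coefficient of `X^(n-1)` of `Q` is `-(n c + s a)`: `a = -(n c + s a)`, `c = s g + g` with
`g = -a / n` in `F` (characteristic 0): contradiction.
(Alternative: `minpoly` over `F`.)

`ta_iter_ne`. `τ π = c - s π`. If `τ^n π = π`, `n ≥ 1`, let `Ω = ∑_{l < n} τ^l π`. Then
`Ω = ∑_{l<n} τ^(l+1) π = n c - s Ω`, so `c = s (Ω/n) + Ω/n`, `Ω/n ∈ F`: contradiction.
`ta` is injective, so all iterates are different (`ta_iter_inj`).
-/

set_option autoImplicit false

namespace Pool.Agent.H47.GD

open Polynomial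

variable {K : Type} [Field K] {F : Subfield K} {s : K ≃+* K} {c w π : K}

theorem ta_mem (hF : Stb s F) (hc : c ∈ F) : ta s c π ∈ F ↔ π ∈ F := by
  unfold ta
  constructor
  · intro h
    have h1 : s π ∈ F := by
      have h2 := F.sub_mem hc h
      rwa [sub_sub_cancel] at h2
    exact (hF π).1 h1
  · intro h
    exact F.sub_mem hc ((hF π).2 h)

theorem ta_iter_mem (hF : Stb s F) (hc : c ∈ F) (n : ℕ) : (ta s c)^[n] π ∈ F ↔ π ∈ F := by
  induction n with
  | zero => exact Iff.rfl
  | succ n ih => rw [Function.iterate_succ_apply', ta_mem hF hc, ih]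

theorem ta_inj : Function.Injective (ta s c) := by
  intro a b h
  unfold ta at h
  exact s.injective (sub_right_injective h)

/-- The reflected polynomial. -/
private noncomputable def TrA_refl (s : K ≃+* K) (c : K) (P : K[X]) : K[X] :=
  (P.map (s : K →+* K)).comp (C c - X)

private theorem TrA_refl_mem (hF : Stb s F) (hc : c ∈ F) {P : K[X]} (hP : P ∈ PP F) :
    TrA_refl s c P ∈ PP F :=
  comp_mem_PP (map_mem_PP hF hP) ((PP F).sub_mem (C_mem_PP hc) X_mem_PP)

private theorem TrA_refl_eval (hw : s w + w = c) (P : K[X]) :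
    (TrA_refl s c P).eval w = s (P.eval w) := by
  unfold TrA_refl
  have h1 : c - w = s w := by rw [← hw]; ring
  rw [eval_comp, eval_sub, eval_C, eval_X, h1]
  have := Polynomial.eval_map_apply (s : K →+* K) (p := P) w
  simpa using this

private theorem TrA_pow_coeff (c : K) (i k : ℕ) :
    ((C c - X) ^ i : K[X]).coeff k = (-1) ^ i * ((-c) ^ (i - k) * (i.choose k : K)) := by
  have h1 : (C c - X : K[X]) = C (-1) * (X + C (-c)) := by
    rw [C_neg, C_neg, C_1]; ring
  rw [h1, mul_pow, ← C_pow, coeff_C_mul, coeff_X_add_C_pow]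

private theorem TrA_comp_coeff (c : K) {p : K[X]} {m : ℕ} (hp : p.natDegree ≤ m + 1) (k : ℕ) :
    (p.comp (C c - X)).coeff k =
      ∑ i ∈ Finset.range (m + 2), p.coeff i * ((-1) ^ i * ((-c) ^ (i - k) * (i.choose k : K))) := by
  unfold Polynomial.comp
  rw [Polynomial.eval₂_eq_sum_range' C (show p.natDegree < m + 2 by omega) (C c - X),
    finsetSum_coeff]
  refine Finset.sum_congr rfl fun i _ => ?_
  rw [coeff_C_mul, TrA_pow_coeff]

private theorem TrA_coeff_high (c : K) {p : K[X]} {m : ℕ} (hp : p.natDegree ≤ m + 1) {k : ℕ}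
    (hk : m + 1 < k) : (p.comp (C c - X)).coeff k = 0 := by
  rw [TrA_comp_coeff c hp]
  refine Finset.sum_eq_zero fun i hi => ?_
  rw [Finset.mem_range] at hi
  rw [Nat.choose_eq_zero_of_lt (show i < k by omega)]
  simp

private theorem TrA_coeff_top (c : K) {p : K[X]} {m : ℕ} (hp : p.natDegree ≤ m + 1) :
    (p.comp (C c - X)).coeff (m + 1) = (-1) ^ (m + 1) * p.coeff (m + 1) := by
  rw [TrA_comp_coeff c hp, Finset.sum_range_succ]
  rw [Finset.sum_eq_zero]
  · simp [mul_comm]
  · intro i hi
    rw [Finset.mem_range] at hi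
    rw [Nat.choose_eq_zero_of_lt (show i < m + 1 by omega)]
    simp

private theorem TrA_coeff_next (c : K) {p : K[X]} {m : ℕ} (hp : p.natDegree ≤ m + 1) :
    (p.comp (C c - X)).coeff m = (-1) ^ m * (p.coeff m + ((m : K) + 1) * c * p.coeff (m + 1)) := by
  rw [TrA_comp_coeff c hp, Finset.sum_range_succ, Finset.sum_range_succ]
  rw [Finset.sum_eq_zero]
  · rw [Nat.choose_self, Nat.choose_succ_self_right, Nat.sub_self, Nat.add_sub_cancel_left]
    push_cast
    ring
  · intro i hi
    rw [Finset.mem_range] at hi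
    rw [Nat.choose_eq_zero_of_lt (show i < m by omega)]
    simp

private theorem TrA_main [CharZero K] (hF : Stb s F) (hc : c ∈ F) (hw : s w + w = c)
    (hn : ¬ Im s F c) (n : ℕ) : ∀ P ∈ PP F, P.natDegree ≤ n → P.eval w = 0 → P = 0 := by
  induction n with
  | zero =>
    intro P _ hd he
    rw [Polynomial.eq_C_of_natDegree_le_zero hd] at he ⊢
    rw [eval_C] at he
    rw [he, C_0]
  | succ m ih =>
    intro P hP hd he
    by_contra hP0
    have ha : P.coeff (m + 1) ≠ 0 := by
      intro ha
      apply hP0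
      refine ih P hP ?_ he
      rw [Polynomial.natDegree_le_iff_coeff_eq_zero]
      intro k hk
      by_cases hk1 : k = m + 1
      · rw [hk1, ha]
      · exact Polynomial.coeff_eq_zero_of_natDegree_lt (by omega)
    set a0 := P.coeff (m + 1) with ha0
    have hP1 : C a0⁻¹ * P ∈ PP F := (PP F).mul_mem (C_mem_PP (F.inv_mem (hP _))) hP
    obtain ⟨P1, hP1e⟩ : ∃ P1, P1 = C a0⁻¹ * P := ⟨_, rfl⟩
    rw [← hP1e] at hP1
    have hd1 : P1.natDegree ≤ m + 1 := by
      rw [hP1e]
      exact (Polynomial.natDegree_C_mul_le _ _).trans hd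
    have he1 : P1.eval w = 0 := by
      rw [hP1e, eval_mul, he, mul_zero]
    have hl1 : P1.coeff (m + 1) = 1 := by
      rw [hP1e, coeff_C_mul, ← ha0, inv_mul_cancel₀ ha]
    have hdm : (P1.map (s : K →+* K)).natDegree ≤ m + 1 := (Polynomial.natDegree_map_le).trans hd1
    have hR := TrA_refl_mem hF hc hP1
    have hRe : (TrA_refl s c P1).eval w = 0 := by
      rw [TrA_refl_eval hw, he1, map_zero]
    have hD0 : P1 - C ((-1) ^ (m + 1)) * TrA_refl s c P1 = 0 := by
      refine ih _ ?_ ?_ ?_
      · refine (PP F).sub_mem hP1 ((PP F).mul_mem (C_mem_PP ?_) hR)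
        exact F.pow_mem (F.neg_mem F.one_mem) _
      · rw [Polynomial.natDegree_le_iff_coeff_eq_zero]
        intro k hk
        rw [coeff_sub, coeff_C_mul]
        unfold TrA_refl
        by_cases hk1 : k = m + 1
        · rw [hk1, TrA_coeff_top c hdm, hl1, coeff_map, hl1, map_one, mul_one, ← mul_pow]
          norm_num
        · rw [TrA_coeff_high c hdm (by omega), mul_zero, sub_zero]
          exact Polynomial.coeff_eq_zero_of_natDegree_lt (by omega)
      · rw [eval_sub, eval_mul, he1, hRe, mul_zero, sub_zero]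
    apply hn
    have hm0 : ((m : K) + 1) ≠ 0 := by exact_mod_cast Nat.succ_ne_zero m
    have hco := congrArg (fun Q => Polynomial.coeff Q m) hD0
    simp only [coeff_sub, coeff_C_mul, coeff_zero] at hco
    unfold TrA_refl at hco
    rw [TrA_coeff_next c hdm, coeff_map, coeff_map, hl1, RingHom.map_one, mul_one] at hco
    have hs2 : ((-1 : K) ^ (m + 1)) * (-1) ^ m = -1 := by
      rw [pow_succ, mul_comm ((-1 : K) ^ m) (-1), mul_assoc, ← mul_pow]
      norm_num
    have hco2 : P1.coeff m + (s (P1.coeff m) + ((m : K) + 1) * c) = 0 := by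
      rw [← mul_assoc, hs2] at hco
      have : (s : K →+* K) (P1.coeff m) = s (P1.coeff m) := rfl
      rw [this] at hco
      linear_combination hco
    refine ⟨-(P1.coeff m) / ((m : K) + 1), ?_, ?_⟩
    · refine F.div_mem (F.neg_mem (hP1 m)) (F.add_mem ?_ F.one_mem)
      exact natCast_mem F m
    · rw [map_div₀, map_neg, map_add, map_natCast, map_one, ← add_div, div_eq_iff hm0]
      linear_combination -hco2

theorem tr_of_not_im [CharZero K] (hF : Stb s F) (hc : c ∈ F) (hw : s w + w = c)
    (hn : ¬ Im s F c) : Tr F w := fun P hP he => TrA_main hF hc hw hn P.natDegree P hP le_rfl he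

theorem ta_iter_ne [CharZero K] (hF : Stb s F) (hc : c ∈ F) (hn : ¬ Im s F c) (hπ : π ∈ F)
    {n : ℕ} (h0 : 0 < n) : (ta s c)^[n] π ≠ π := by
  intro hfix
  apply hn
  have hn0 : (n : K) ≠ 0 := by exact_mod_cast h0.ne'
  have h1 : ∀ l, s ((ta s c)^[l] π) = c - (ta s c)^[l + 1] π := by
    intro l
    rw [Function.iterate_succ_apply']
    unfold ta
    ring
  have h2 : s (∑ l ∈ Finset.range n, (ta s c)^[l] π) + ∑ l ∈ Finset.range n, (ta s c)^[l] π
      = n * c := by
    rw [map_sum, Finset.sum_congr rfl fun l _ => h1 l, Finset.sum_sub_distrib, Finset.sum_const,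
      Finset.card_range, nsmul_eq_mul]
    have h3 := Finset.sum_range_succ (fun l => (ta s c)^[l] π) n
    have h4 := Finset.sum_range_succ' (fun l => (ta s c)^[l] π) n
    rw [h3] at h4
    rw [hfix] at h4
    simp only [Function.iterate_zero, id_eq] at h4
    linear_combination h4
  refine ⟨(∑ l ∈ Finset.range n, (ta s c)^[l] π) / n, ?_, ?_⟩
  · refine F.div_mem (F.sum_mem fun l _ => (ta_iter_mem hF hc l).2 hπ) (natCast_mem F n)
  · rw [map_div₀, map_natCast, ← add_div, h2, mul_div_cancel_left₀ _ hn0]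

theorem ta_iter_inj [CharZero K] (hF : Stb s F) (hc : c ∈ F) (hn : ¬ Im s F c) (hπ : π ∈ F)
    {m n : ℕ} (h : (ta s c)^[m] π = (ta s c)^[n] π) : m = n := by
  have key : ∀ m n : ℕ, m < n → (ta s c)^[m] π ≠ (ta s c)^[n] π := by
    intro m n hmn h
    obtain ⟨d, rfl⟩ := Nat.exists_eq_add_of_lt hmn
    rw [show m + d + 1 = m + (d + 1) by ring, Function.iterate_add_apply] at h
    exact ta_iter_ne hF hc hn hπ (Nat.succ_pos d) ((ta_inj.iterate m) h).symm
  rcases lt_trichotomy m n with h1 | h1 | h1
  · exact absurd h (key m n h1)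
  · exact h1
  · exact absurd h.symm (key n m h1)

end Pool.Agent.H47.GD
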