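import Pool.Agent.H47.GD.Defs

/-!
# Module ValA (150 lines): calculus of regular elements and their values

Everything is elementary. `Val F w π g v` means `g = P(w)/Q(w)`, `v = P(π)/Q(π)` with `Q(π) ≠ 0`.
PROOFS. `Val.eq`: `g Q(w) = P(w)`, `g Q'(w) = P'(w)` give `(P Q' - P' Q)(w) = 0`, so `P Q' = P' Q` by
`Tr`, evaluate at `π`. `Val.inv`: `P(π) ≠ 0`, so `P ≠ 0`, so `P(w) ≠ 0` by `Tr`; exchange `P`, `Q`
(note `Q(w) ≠ 0` for the same reason, hence `g ≠ 0`). `Val.mem`: `Q ≠ 0`, so `Q(w) ≠ 0`.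
`finite_poles`: `g Q(w) = P(w)` with `Q(w) ≠ 0`; every `π` outside the roots of `Q` is regular with the
value `P(π)/Q(π)`. `Val.sigma`: apply `s`: `s (Q(w)) = (Q.map s).eval (s w) =
((Q.map s).comp (C α * X + C β)).eval w`, and the value of this polynomial at `(s π - β)/α` is
`(Q.map s).eval (s π) = s (Q(π))`; its coefficients are in `F` (sum of products). `Val.of_sigma`: the
same with `s.symm`: `s w = α w + β` gives `s.symm w = (w - s.symm β)/(s.symm α)`, and
`(π' - s.symm β) ...`: for `π' = (s π - β)/α` one has `s.symm π' = (π - s.symm β)/s.symm α`.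
-/

set_option autoImplicit false

namespace Pool.Agent.H47.GD

open Polynomial

variable {K : Type} [Field K] {F : Subfield K} {w π g g' v v' a : K}

theorem comp_mem_PP {P Q : K[X]} (hP : P ∈ PP F) (hQ : Q ∈ PP F) : P.comp Q ∈ PP F := by
  rw [Polynomial.comp_eq_sum_left, Polynomial.sum_def]
  exact (PP F).sum_mem fun i _ => (PP F).mul_mem (C_mem_PP (hP i)) ((PP F).pow_mem hQ i)

theorem map_mem_PP {s : K ≃+* K} (hF : Stb s F) {P : K[X]} (hP : P ∈ PP F) :
    P.map (s : K →+* K) ∈ PP F := by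
  intro n
  rw [Polynomial.coeff_map]
  exact (hF _).2 (hP n)

theorem Val.eq (ht : Tr F w) (h : Val F w π g v) (h' : Val F w π g v') : v = v' := by
  obtain ⟨P, hP, Q, hQ, h1, h2, h3⟩ := h
  obtain ⟨P', hP', Q', hQ', h1', h2', h3'⟩ := h'
  have h4 : P * Q' - P' * Q = 0 := by
    refine ht _ ((PP F).sub_mem ((PP F).mul_mem hP hQ') ((PP F).mul_mem hP' hQ)) ?_
    rw [eval_sub, eval_mul, eval_mul, ← h2, ← h2']
    ring
  have h5 := congrArg (Polynomial.eval π) h4
  rw [eval_sub, eval_mul, eval_mul, eval_zero, ← h3, ← h3'] at h5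
  have h6 : (v - v') * (Q.eval π * Q'.eval π) = 0 := by rw [← h5]; ring
  rcases mul_eq_zero.1 h6 with h7 | h7
  · exact sub_eq_zero.1 h7
  · exact absurd h7 (mul_ne_zero h1 h1')

theorem val_const (ha : a ∈ F) : Val F w π a a := by
  exact ⟨C a, C_mem_PP ha, 1, (PP F).one_mem, by simp, by simp, by simp⟩

theorem val_self : Val F w π w π := by
  exact ⟨X, X_mem_PP, 1, (PP F).one_mem, by simp, by simp, by simp⟩

theorem Val.add (h : Val F w π g v) (h' : Val F w π g' v') : Val F w π (g + g') (v + v') := by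
  obtain ⟨P, hP, Q, hQ, h1, h2, h3⟩ := h
  obtain ⟨P', hP', Q', hQ', h1', h2', h3'⟩ := h'
  refine ⟨P * Q' + P' * Q, (PP F).add_mem ((PP F).mul_mem hP hQ') ((PP F).mul_mem hP' hQ),
    Q * Q', (PP F).mul_mem hQ hQ', ?_, ?_, ?_⟩
  · rw [eval_mul]; exact mul_ne_zero h1 h1'
  · rw [eval_mul, eval_add, eval_mul, eval_mul, ← h2, ← h2']; ring
  · rw [eval_mul, eval_add, eval_mul, eval_mul, ← h3, ← h3']; ring

theorem Val.mul (h : Val F w π g v) (h' : Val F w π g' v') : Val F w π (g * g') (v * v') := by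
  obtain ⟨P, hP, Q, hQ, h1, h2, h3⟩ := h
  obtain ⟨P', hP', Q', hQ', h1', h2', h3'⟩ := h'
  refine ⟨P * P', (PP F).mul_mem hP hP', Q * Q', (PP F).mul_mem hQ hQ', ?_, ?_, ?_⟩
  · rw [eval_mul]; exact mul_ne_zero h1 h1'
  · rw [eval_mul, eval_mul, ← h2, ← h2']; ring
  · rw [eval_mul, eval_mul, ← h3, ← h3']; ring

theorem Val.neg (h : Val F w π g v) : Val F w π (-g) (-v) := by
  obtain ⟨P, hP, Q, hQ, h1, h2, h3⟩ := h
  exact ⟨-P, (PP F).neg_mem hP, Q, hQ, h1, by rw [eval_neg, ← h2]; ring,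
    by rw [eval_neg, ← h3]; ring⟩

theorem Val.sub (h : Val F w π g v) (h' : Val F w π g' v') : Val F w π (g - g') (v - v') := by
  rw [sub_eq_add_neg, sub_eq_add_neg]
  exact h.add h'.neg

theorem Val.inv (ht : Tr F w) (h : Val F w π g v) (hv : v ≠ 0) : Val F w π g⁻¹ v⁻¹ := by
  obtain ⟨P, hP, Q, hQ, h1, h2, h3⟩ := h
  have h4 : P.eval π ≠ 0 := by rw [← h3]; exact mul_ne_zero hv h1
  have h5 : P.eval w ≠ 0 := fun h6 => h4 (by rw [ht P hP h6, eval_zero])
  have h7 : g ≠ 0 := fun h8 => h5 (by rw [← h2, h8, zero_mul])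
  refine ⟨Q, hQ, P, hP, h4, ?_, ?_⟩
  · rw [← h2, inv_mul_cancel_left₀ h7]
  · rw [← h3, inv_mul_cancel_left₀ hv]

theorem Val.div (ht : Tr F w) (h : Val F w π g v) (h' : Val F w π g' v') (hv : v' ≠ 0) :
    Val F w π (g / g') (v / v') := by
  rw [div_eq_mul_inv, div_eq_mul_inv]
  exact h.mul (h'.inv ht hv)

theorem Val.sum {ι : Type} {A : Finset ι} {f u : ι → K} (h : ∀ i ∈ A, Val F w π (f i) (u i)) :
    Val F w π (∑ i ∈ A, f i) (∑ i ∈ A, u i) := by
  classical
  induction A using Finset.induction_on with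
  | empty =>
    rw [Finset.sum_empty, Finset.sum_empty]
    exact val_const F.zero_mem
  | insert i A hi ih =>
    rw [Finset.sum_insert hi, Finset.sum_insert hi]
    exact (h i (Finset.mem_insert_self i A)).add
      (ih fun j hj => h j (Finset.mem_insert_of_mem hj))

theorem Val.mem (ht : Tr F w) (h : Val F w π g v) : g ∈ Fx F w := by
  obtain ⟨P, hP, Q, hQ, h1, h2, _⟩ := h
  exact ⟨P, hP, Q, hQ, fun h4 => h1 (by rw [ht Q hQ h4, eval_zero]), h2⟩

theorem Val.val_mem (hπ : π ∈ F) (h : Val F w π g v) : v ∈ F := by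
  obtain ⟨P, hP, Q, hQ, h1, _, h3⟩ := h
  have h4 : v = P.eval π / Q.eval π := by rw [← h3, mul_div_cancel_right₀ _ h1]
  rw [h4]
  exact F.div_mem (eval_mem hP hπ) (eval_mem hQ hπ)

theorem val_poly {P : K[X]} (hP : P ∈ PP F) : Val F w π (P.eval w) (P.eval π) := by
  exact ⟨P, hP, 1, (PP F).one_mem, by simp, by simp, by simp⟩

theorem finite_poles (hg : g ∈ Fx F w) : {π : K | ¬ ∃ v, Val F w π g v}.Finite := by
  classical
  obtain ⟨P, hP, Q, hQ, h1, h2⟩ := hg
  have hQ0 : Q ≠ 0 := fun h => h1 (by rw [h, eval_zero])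
  refine (Q.roots.toFinset.finite_toSet).subset ?_
  intro π hπ
  rw [Finset.mem_coe, Multiset.mem_toFinset, Polynomial.mem_roots hQ0, Polynomial.IsRoot.def]
  by_contra h3
  exact hπ ⟨P.eval π / Q.eval π, P, hP, Q, hQ, h3, h2, div_mul_cancel₀ _ h3⟩

theorem Val.sigma {s : K ≃+* K} (hF : Stb s F) {α β : K} (hα : α ∈ F) (hβ : β ∈ F) (h0 : α ≠ 0)
    (hw : s w = α * w + β) (h : Val F w π g v) : Val F w ((s π - β) / α) (s g) (s v) := by
  obtain ⟨P, hP, Q, hQ, h1, h2, h3⟩ := h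
  have hL : (C α * X + C β : K[X]) ∈ PP F :=
    (PP F).add_mem ((PP F).mul_mem (C_mem_PP hα) X_mem_PP) (C_mem_PP hβ)
  have hw' : ∀ R : K[X], ((R.map (s : K →+* K)).comp (C α * X + C β)).eval w = s (R.eval w) := by
    intro R
    rw [eval_comp, eval_add, eval_mul, eval_C, eval_C, eval_X, ← hw]
    exact Polynomial.eval_map_apply (s : K →+* K) w
  have hp' : ∀ R : K[X], ((R.map (s : K →+* K)).comp (C α * X + C β)).eval ((s π - β) / α) =
      s (R.eval π) := by
    intro R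
    rw [eval_comp, eval_add, eval_mul, eval_C, eval_C, eval_X, mul_div_cancel₀ _ h0,
      sub_add_cancel]
    exact Polynomial.eval_map_apply (s : K →+* K) π
  refine ⟨_, comp_mem_PP (map_mem_PP hF hP) hL, _, comp_mem_PP (map_mem_PP hF hQ) hL, ?_, ?_, ?_⟩
  · rw [hp']
    exact (map_ne_zero_iff s s.injective).2 h1
  · rw [hw', hw', ← map_mul, h2]
  · rw [hp', hp', ← map_mul, h3]

theorem Val.of_sigma {s : K ≃+* K} (hF : Stb s F) {α β : K} (hα : α ∈ F) (hβ : β ∈ F) (h0 : α ≠ 0)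
    (hw : s w = α * w + β) (h : Val F w ((s π - β) / α) (s g) v') : ∃ v, Val F w π g v := by
  have hF' : Stb s.symm F := fun x => by
    rw [← hF (s.symm x), RingEquiv.apply_symm_apply]
  have h0' : s.symm α ≠ 0 := (map_ne_zero_iff s.symm s.symm.injective).2 h0
  have hw' : s.symm w = (s.symm α)⁻¹ * w + -(s.symm β / s.symm α) := by
    have h1 : s.symm (s w) = s.symm (α * w + β) := congrArg s.symm hw
    rw [RingEquiv.symm_apply_apply, map_add, map_mul] at h1
    have h4 : s.symm α * s.symm w = w - s.symm β := eq_sub_iff_add_eq.2 h1.symm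
    calc s.symm w = (s.symm α)⁻¹ * (s.symm α * s.symm w) := by rw [inv_mul_cancel_left₀ h0']
      _ = (s.symm α)⁻¹ * (w - s.symm β) := by rw [h4]
      _ = _ := by ring
  have h2 := Val.sigma (s := s.symm) hF' (F.inv_mem ((hF' α).2 hα))
    (F.neg_mem (F.div_mem ((hF' β).2 hβ) ((hF' α).2 hα))) (inv_ne_zero h0') hw' h
  have h3 : (s.symm ((s π - β) / α) - -(s.symm β / s.symm α)) / (s.symm α)⁻¹ = π := by
    rw [map_div₀, map_sub, RingEquiv.symm_apply_apply]
    field_simp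
    ring
  rw [h3, RingEquiv.symm_apply_apply] at h2
  exact ⟨_, h2⟩

end Pool.Agent.H47.GD
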